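import Mathlib

/-!
# Solutions of `x ^ p + y ^ p = z ^ q` with `p` not dividing `z`
-/

set_option autoImplicit false

namespace Pool.Agent.K9h9

open Finset

/-- Solutions of `x ^ p + y ^ p = z ^ q` in non-zero integers, `x` and `y` coprime, `p` and `q`
different odd primes, `p` not dividing `z`. -/
structure Sol (x y z : ℤ) (p q : ℕ) : Prop where
  pp : p.Prime
  qp : q.Prime
  p2 : p ≠ 2
  q2 : q ≠ 2
  ne : p ≠ q
  x0 : x ≠ 0
  y0 : y ≠ 0
  z0 : z ≠ 0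
  cop : IsCoprime x y
  pz : ¬ (p : ℤ) ∣ z
  eq : x ^ p + y ^ p = z ^ q

lemma Sol.symm {x y z : ℤ} {p q : ℕ} (h : Sol x y z p q) : Sol y x z p q :=
  ⟨h.pp, h.qp, h.p2, h.q2, h.ne, h.y0, h.x0, h.z0, h.cop.symm, h.pz, by rw [add_comm]; exact h.eq⟩

lemma Sol.neg {x y z : ℤ} {p q : ℕ} (h : Sol x y z p q) : Sol (-x) (-y) (-z) p q := by
  have hp := h.pp.odd_of_ne_two h.p2
  have hq := h.qp.odd_of_ne_two h.q2
  refine ⟨h.pp, h.qp, h.p2, h.q2, h.ne, neg_ne_zero.mpr h.x0, neg_ne_zero.mpr h.y0,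
    neg_ne_zero.mpr h.z0, h.cop.neg_neg, ?_, ?_⟩
  · rw [dvd_neg]
    exact h.pz
  · rw [hp.neg_pow, hp.neg_pow, hq.neg_pow, ← h.eq]
    ring

lemma Sol.oddp {x y z : ℤ} {p q : ℕ} (h : Sol x y z p q) : Odd p := h.pp.odd_of_ne_two h.p2

lemma Sol.oddq {x y z : ℤ} {p q : ℕ} (h : Sol x y z p q) : Odd q := h.qp.odd_of_ne_two h.q2

lemma Sol.p3 {x y z : ℤ} {p q : ℕ} (h : Sol x y z p q) : 3 ≤ p := by
  have h1 := h.pp.two_le
  have h2 := h.p2
  omega

lemma Sol.q3 {x y z : ℤ} {p q : ℕ} (h : Sol x y z p q) : 3 ≤ q := by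
  have h1 := h.qp.two_le
  have h2 := h.q2
  omega

lemma Sol.sum_ne {x y z : ℤ} {p q : ℕ} (h : Sol x y z p q) : x + y ≠ 0 := by
  intro h1
  have h2 : y = -x := by linarith
  have h3 := h.eq
  rw [h2, h.oddp.neg_pow, add_neg_cancel] at h3
  exact pow_ne_zero _ h.z0 h3.symm

/-- The factorisation. -/
lemma Sol.fact {x y z : ℤ} {p q : ℕ} (h : Sol x y z p q) :
    ∃ a b : ℤ, a ≠ 0 ∧ 0 < b ∧ x + y = a ^ q ∧ z = a * b ∧
      b ^ q = ∑ i ∈ range p, x ^ i * (-y) ^ (p - 1 - i) := by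
  obtain ⟨Φ, hΦ⟩ : ∃ Φ, Φ = ∑ i ∈ range p, x ^ i * (-y) ^ (p - 1 - i) := ⟨_, rfl⟩
  have hmul : (x + y) * Φ = z ^ q := by
    have h1 := (Commute.all x (-y)).geom_sum₂_mul p
    rw [← hΦ, h.oddp.neg_pow, sub_neg_eq_add, sub_neg_eq_add, h.eq] at h1
    rw [mul_comm]
    exact h1
  have hcop : IsCoprime (x + y) Φ := by
    rw [Int.isCoprime_iff_gcd_eq_one]
    by_contra hne
    obtain ⟨l, hl, hl2⟩ := Nat.exists_prime_and_dvd hne
    have hlint : Prime (l : ℤ) := Nat.prime_iff_prime_int.mp hl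
    have h1 : (l : ℤ) ∣ x + y := (Int.natCast_dvd_natCast.mpr hl2).trans (Int.gcd_dvd_left _ _)
    have h2 : (l : ℤ) ∣ Φ := (Int.natCast_dvd_natCast.mpr hl2).trans (Int.gcd_dvd_right _ _)
    have h3 : (l : ℤ) ∣ x - (-y) := by rw [sub_neg_eq_add]; exact h1
    rw [hΦ, dvd_geom_sum₂_iff_of_dvd_sub h3] at h2
    have hlz : (l : ℤ) ∣ z := by
      have h4 : (l : ℤ) ∣ z ^ q := by
        rw [← hmul]
        exact h1.mul_right _
      exact hlint.dvd_of_dvd_pow h4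
    rcases hlint.dvd_or_dvd h2 with h4 | h4
    · have h5 : l ∣ p := by exact_mod_cast h4
      have h6 := (Nat.prime_dvd_prime_iff_eq hl h.pp).mp h5
      rw [h6] at hlz
      exact h.pz hlz
    · have h5 := hlint.dvd_of_dvd_pow h4
      rw [dvd_neg] at h5
      have h6 : (l : ℤ) ∣ x := by
        have := dvd_sub h1 h5
        rwa [add_sub_cancel_right] at this
      exact hlint.not_isUnit (h.cop.isUnit_of_dvd' h6 h5)
  obtain ⟨a, ha⟩ := Int.eq_pow_of_mul_eq_pow_odd_left hcop h.oddq hmul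
  obtain ⟨b, hb⟩ := Int.eq_pow_of_mul_eq_pow_odd_left hcop.symm h.oddq (by rw [mul_comm]; exact hmul)
  have hsum := h.sum_ne
  have hΦpos : 0 < Φ := by
    rcases lt_or_gt_of_ne hsum with h1 | h1
    · have h2 : x ^ p < (-y) ^ p := h.oddp.strictMono_pow (by linarith)
      rw [h.oddp.neg_pow] at h2
      have h3 : (x + y) * Φ < 0 := by
        rw [hmul, ← h.eq]
        linarith
      nlinarith
    · have h2 : (-y) ^ p < x ^ p := h.oddp.strictMono_pow (by linarith)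
      rw [h.oddp.neg_pow] at h2
      have h3 : 0 < (x + y) * Φ := by
        rw [hmul, ← h.eq]
        linarith
      nlinarith
  refine ⟨a, b, ?_, ?_, ha, ?_, by rw [← hb, hΦ]⟩
  · intro h1
    rw [h1, zero_pow h.qp.ne_zero] at ha
    exact hsum ha
  · rw [hb] at hΦpos
    exact (h.oddq.pow_pos_iff).mp hΦpos
  · have h1 : z ^ q = (a * b) ^ q := by
      rw [mul_pow, ← ha, ← hb, hmul]
    exact h.oddq.strictMono_pow.injective h1

lemma Sol.eq_ab {x y z a b : ℤ} {p q : ℕ} (h : Sol x y z p q) (hz : z = a * b) :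
    a ^ q * b ^ q = x ^ p + y ^ p := by
  rw [h.eq, hz, mul_pow]

end Pool.Agent.K9h9
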