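import Mathlib

/-!
# Integral binomial coefficients with denominator `q`

`bq l n` is the binomial coefficient `l (l - 1) ... (l - n + 1) / n!` of a rational number `l`, and
`beta q g n` is the integer `q ^ (2 n) * bq (g / q) n`, `q` a prime.
-/

set_option autoImplicit false

namespace Pool.Agent.K9h9

open Finset

/-- The binomial coefficient `l (l - 1) ... (l - n + 1) / n!`. -/
noncomputable def bq (l : ℚ) (n : ℕ) : ℚ := (∏ i ∈ range n, (l - i)) / n.factorial

lemma bq_eq_choose (l : ℚ) (n : ℕ) : bq l n = Ring.choose l n := by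
  have h1 := Ring.descPochhammer_eq_factorial_smul_choose l n
  have h2 : (descPochhammer ℤ n).smeval l = ∏ i ∈ range n, (l - i) := by
    rw [← descPochhammer_eval_eq_prod_range, ← Polynomial.aeval_eq_smeval,
      Polynomial.aeval_def, Polynomial.eval₂_eq_eval_map]
    congr 1
    exact descPochhammer_map (algebraMap ℤ ℚ) n
  rw [bq, ← h2, h1, nsmul_eq_mul]
  have : (n.factorial : ℚ) ≠ 0 := by exact_mod_cast n.factorial_ne_zero
  field_simp

lemma bq_add (a b : ℚ) (n : ℕ) :
    bq (a + b) n = ∑ ij ∈ antidiagonal n, bq a ij.1 * bq b ij.2 := by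
  simp only [bq_eq_choose]
  exact Ring.add_choose_eq n (Commute.all a b)

lemma bq_zero_right (l : ℚ) : bq l 0 = 1 := by simp [bq]

lemma bq_one_right (l : ℚ) : bq l 1 = l := by simp [bq]

lemma bq_natCast (k n : ℕ) : bq (k : ℚ) n = (k.choose n : ℚ) := by
  rw [bq_eq_choose, Ring.choose_natCast]

lemma prod_sub_natCast (N n : ℕ) : (∏ i ∈ range n, ((N : ℤ) - i)) = (N.descFactorial n : ℤ) := by
  have h := descPochhammer_eval_eq_prod_range n (N : ℤ)
  rw [← h, descPochhammer_eval_eq_descFactorial]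

lemma exists_beta {q : ℕ} (hq : q.Prime) (g : ℤ) (n : ℕ) :
    ∃ z : ℤ, (z : ℚ) = (q : ℚ) ^ (2 * n) * bq (g / q) n := by
  have hq0 : (q : ℚ) ≠ 0 := by exact_mod_cast hq.ne_zero
  have h1 : (q : ℚ) ^ (2 * n) * bq (g / q) n =
      ((q ^ n * ∏ i ∈ range n, (g - i * q) : ℤ) : ℚ) / (n.factorial : ℤ) := by
    have h2 : (q : ℚ) ^ n * (∏ i ∈ range n, ((g : ℚ) / q - i)) = ∏ i ∈ range n, ((g : ℚ) - i * q) := by
      rw [← card_range n, ← prod_const, card_range, ← prod_mul_distrib]
      refine prod_congr rfl ?_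
      intro i _
      field_simp
    rw [bq, two_mul, pow_add]
    push_cast
    rw [← h2]
    ring
  have h3 : (n.factorial : ℤ) ∣ q ^ n * ∏ i ∈ range n, (g - i * q) := by
    obtain ⟨v, m, hm, hvm⟩ := Nat.exists_eq_pow_mul_and_not_dvd n.factorial_ne_zero q hq.ne_one
    have hv : v ≤ n := by
      have h4 : q ^ v ∣ n.factorial := ⟨m, hvm⟩
      have := Fact.mk hq
      have h5 := (padicValNat_dvd_iff_le n.factorial_ne_zero).mp h4
      have h6 := sub_one_mul_padicValNat_factorial (p := q) n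
      have h7 : 1 ≤ q - 1 := by have := hq.two_le; omega
      have h8 : padicValNat q n.factorial ≤ (q - 1) * padicValNat q n.factorial :=
        Nat.le_mul_of_pos_left _ h7
      omega
    have hcop : Nat.Coprime q m := (Nat.Prime.coprime_iff_not_dvd hq).mpr hm
    have hm0 : m ≠ 0 := by
      intro h
      apply n.factorial_ne_zero
      rw [hvm, h, mul_zero]
    have h9 : (m : ℤ) ∣ ∏ i ∈ range n, (g - i * q) := by
      obtain ⟨N, hN⟩ : ∃ N : ℕ, (m : ℤ) ∣ q * N - g := by
        have h10 : IsCoprime (q : ℤ) (m : ℤ) := Nat.isCoprime_iff_coprime.mpr hcop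
        obtain ⟨a, b, hab⟩ := h10
        refine ⟨((a * g) % m).toNat, ?_⟩
        have h11 : 0 ≤ (a * g) % m := Int.emod_nonneg _ (by exact_mod_cast hm0)
        rw [Int.toNat_of_nonneg h11]
        have h12 : (m : ℤ) ∣ a * g - (a * g) % m := Int.dvd_self_sub_emod
        have h13 : (q : ℤ) * (a * g % m) - g = - (q * (a * g - (a * g) % m)) - (b * g) * m := by
          linear_combination g * hab
        rw [h13]
        exact dvd_sub (dvd_neg.mpr (h12.mul_left _)) (dvd_mul_left _ _)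
      have h14 : (∏ i ∈ range n, (g - i * q) : ℤ) ≡ ∏ i ∈ range n, ((q : ℤ) * (N - i)) [ZMOD m] := by
        apply Int.ModEq.prod
        intro i _
        rw [Int.modEq_iff_dvd]
        have : (q : ℤ) * (N - i) - (g - i * q) = q * N - g := by ring
        rw [this]
        exact hN
      rw [prod_mul_distrib, prod_sub_natCast, Nat.descFactorial_eq_factorial_mul_choose] at h14
      have h15 : (m : ℤ) ∣ (∏ x ∈ range n, (q : ℤ)) * ((n.factorial * N.choose n : ℕ) : ℤ) := by
        apply Dvd.dvd.mul_left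
        have : m ∣ n.factorial * N.choose n := by
          rw [hvm]
          exact (Dvd.intro_left _ rfl).mul_right _
        exact_mod_cast this
      exact (Int.ModEq.dvd_iff h14).mpr h15
    rw [hvm]
    push_cast
    exact mul_dvd_mul (pow_dvd_pow _ hv) h9
  obtain ⟨z, hz⟩ := h3
  refine ⟨z, ?_⟩
  rw [h1, hz]
  have : ((n.factorial : ℤ) : ℚ) ≠ 0 := by exact_mod_cast n.factorial_ne_zero
  push_cast at this ⊢
  field_simp

/-- The integer `q ^ (2 n) * bq (g / q) n`. -/
noncomputable def beta (q : ℕ) (g : ℤ) (n : ℕ) : ℤ := ⌊(q : ℚ) ^ (2 * n) * bq (g / q) n⌋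

lemma beta_cast {q : ℕ} (hq : q.Prime) (g : ℤ) (n : ℕ) :
    (beta q g n : ℚ) = (q : ℚ) ^ (2 * n) * bq (g / q) n := by
  obtain ⟨z, hz⟩ := exists_beta hq g n
  rw [beta, ← hz, Int.floor_intCast]

lemma beta_add {q : ℕ} (hq : q.Prime) (g h : ℤ) (n : ℕ) :
    beta q (g + h) n = ∑ ij ∈ antidiagonal n, beta q g ij.1 * beta q h ij.2 := by
  have h1 : ((beta q (g + h) n : ℤ) : ℚ) =
      ((∑ ij ∈ antidiagonal n, beta q g ij.1 * beta q h ij.2 : ℤ) : ℚ) := by
    push_cast
    rw [beta_cast hq]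
    push_cast
    rw [add_div, bq_add, mul_sum]
    refine sum_congr rfl ?_
    intro ij hij
    rw [beta_cast hq, beta_cast hq, ← mem_antidiagonal.mp hij]
    ring
  exact_mod_cast h1

lemma beta_zero_right {q : ℕ} (hq : q.Prime) (g : ℤ) : beta q g 0 = 1 := by
  have := beta_cast hq g 0
  rw [bq_zero_right] at this
  simp at this
  exact_mod_cast this

lemma beta_self_one {q : ℕ} (hq : q.Prime) : beta q q 1 = (q : ℤ) ^ 2 := by
  have := beta_cast hq q 1
  have hq0 : (q : ℚ) ≠ 0 := by exact_mod_cast hq.ne_zero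
  rw [bq_one_right] at this
  push_cast at this
  rw [div_self hq0, mul_one] at this
  exact_mod_cast this

lemma beta_self_of_two_le {q : ℕ} (hq : q.Prime) {n : ℕ} (hn : 2 ≤ n) : beta q q n = 0 := by
  have := beta_cast hq q n
  have hq0 : (q : ℚ) ≠ 0 := by exact_mod_cast hq.ne_zero
  have h1 : (((q : ℤ) : ℚ) / q) = ((1 : ℕ) : ℚ) := by
    push_cast
    exact div_self hq0
  rw [h1, bq_natCast, Nat.choose_eq_zero_of_lt (by omega)] at this
  simp at this
  exact_mod_cast this

lemma beta_zero_left {q : ℕ} (hq : q.Prime) {n : ℕ} (hn : 1 ≤ n) : beta q 0 n = 0 := by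
  have := beta_cast hq 0 n
  have h1 : (((0 : ℤ) : ℚ) / q) = ((0 : ℕ) : ℚ) := by
    push_cast
    exact zero_div _
  rw [h1, bq_natCast, Nat.choose_eq_zero_of_lt (by omega)] at this
  simp at this
  exact_mod_cast this

/-- `|l (l - 1) ... (l - n + 1)| ≤ n! 2 ^ N` if `N - 1 ≤ l ≤ N`, `0 ≤ l`. -/
lemma abs_prod_le {l : ℚ} {N : ℕ} (h0 : 0 ≤ l) (h1 : l ≤ N) (h2 : (N : ℚ) ≤ l + 1) (n : ℕ) :
    |∏ i ∈ range n, (l - i)| ≤ n.factorial * 2 ^ N := by
  have hsmall : ∀ n : ℕ, n ≤ N → |∏ i ∈ range n, (l - i)| ≤ N.descFactorial n := by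
    intro n hn
    rw [abs_prod]
    have h3 : ((N.descFactorial n : ℕ) : ℚ) = ∏ i ∈ range n, ((N : ℚ) - i) := by
      have := prod_sub_natCast N n
      have h4 : (((∏ i ∈ range n, ((N : ℤ) - i)) : ℤ) : ℚ) = ((N.descFactorial n : ℤ) : ℚ) := by
        rw [this]
      push_cast at h4
      rw [h4]
    rw [h3]
    refine prod_le_prod (fun i _ => abs_nonneg _) ?_
    intro i hi
    have hi' : i + 1 ≤ N := by
      have := mem_range.mp hi
      omega
    have hi2 : (i : ℚ) + 1 ≤ N := by exact_mod_cast hi'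
    rw [abs_le]
    constructor <;> linarith
  rcases le_total n N with h | h
  · refine (hsmall n h).trans ?_
    rw [Nat.descFactorial_eq_factorial_mul_choose]
    push_cast
    have : ((N.choose n : ℕ) : ℚ) ≤ 2 ^ N := by
      exact_mod_cast Nat.choose_le_two_pow N n
    gcongr
  · have hbig : ∀ k : ℕ, |∏ i ∈ range (N + k), (l - i)| ≤ (N + k).factorial := by
      intro k
      induction k with
      | zero =>
        have := hsmall N le_rfl
        rwa [Nat.descFactorial_self] at this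
      | succ k ih =>
        rw [← add_assoc, prod_range_succ, abs_mul, Nat.factorial_succ]
        push_cast
        rw [mul_comm ((N : ℚ) + k + 1)]
        have h5 : |l - ((N : ℚ) + k)| ≤ (N : ℚ) + k + 1 := by
          rw [abs_le]
          have : (0 : ℚ) ≤ k := Nat.cast_nonneg _
          constructor <;> linarith
        exact mul_le_mul ih h5 (abs_nonneg _) (by positivity)
    obtain ⟨k, rfl⟩ := Nat.exists_eq_add_of_le h
    refine (hbig k).trans ?_
    have : (1 : ℚ) ≤ 2 ^ N := one_le_pow₀ (by norm_num)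
    have h6 : (0 : ℚ) ≤ (N + k).factorial := Nat.cast_nonneg _
    nlinarith

lemma abs_bq_le {l : ℚ} {G : ℕ} (h0 : 0 ≤ l) (h1 : l ≤ G) (n : ℕ) : |bq l n| ≤ 2 ^ G := by
  have h2 : |∏ i ∈ range n, (l - i)| ≤ n.factorial * 2 ^ G := by
    have h3 := abs_prod_le h0 (Nat.le_ceil l) (Nat.ceil_lt_add_one h0).le n
    have h4 : ⌈l⌉₊ ≤ G := Nat.ceil_le.mpr h1
    refine h3.trans ?_
    have : (2 : ℚ) ^ ⌈l⌉₊ ≤ 2 ^ G := pow_le_pow_right₀ (by norm_num) h4
    gcongr
  rw [bq, abs_div, Nat.abs_cast]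
  have h5 : (0 : ℚ) < n.factorial := by exact_mod_cast n.factorial_pos
  rw [div_le_iff₀ h5]
  linarith

lemma abs_beta_le {q : ℕ} (hq : q.Prime) {g : ℤ} {G : ℕ} (h0 : 0 ≤ g) (h1 : g ≤ G * q) (n : ℕ) :
    |beta q g n| ≤ q ^ (2 * n) * 2 ^ G := by
  have hq0 : (0 : ℚ) < q := by exact_mod_cast hq.pos
  have h2 : |(beta q g n : ℚ)| ≤ (q : ℚ) ^ (2 * n) * 2 ^ G := by
    rw [beta_cast hq, abs_mul, abs_of_nonneg (by positivity : (0 : ℚ) ≤ (q : ℚ) ^ (2 * n))]
    have h3 : (0 : ℚ) ≤ (g : ℚ) / q := div_nonneg (by exact_mod_cast h0) hq0.le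
    have h4 : (g : ℚ) / q ≤ G := by
      rw [div_le_iff₀ hq0]
      exact_mod_cast h1
    have := abs_bq_le h3 h4 n
    gcongr
  exact_mod_cast h2

end Pool.Agent.K9h9
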