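import Mathlib
import Pool.Agent.K9h9.Beta

/-!
# A zero estimate for sums of binomial functions

If `c s j` (`s < r`, `j < K`) are rational numbers, and the sums
`∑ c s j * w s * sigma ^ j * P (j + nu s)` vanish for all polynomials `P` of degree less than `mu`,
and the same sums with `w = 1`, `sigma = 1` vanish for all `P` of degree less than `M`, then
`(M + 1 - r) + (mu + 1 - r) ≤ r (K - 1)`.
-/

set_option autoImplicit false

namespace Pool.Agent.K9h9

open Finset Polynomial

section Moments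

variable {ι : Type*}

lemma bq_succ (l : ℚ) (n : ℕ) : ((n : ℚ) + 1) * bq l (n + 1) = (l - n) * bq l n := by
  rw [bq, bq, prod_range_succ, Nat.factorial_succ]
  have : (n.factorial : ℚ) ≠ 0 := by exact_mod_cast n.factorial_ne_zero
  push_cast
  field_simp

/-- If `∑ c * bq l n = 0` for `n < M`, then `∑ c * l ^ k * bq l n = 0` for `k + n < M`. -/
lemma moments {s : Finset ι} {c l : ι → ℚ} {M : ℕ}
    (h : ∀ n < M, ∑ i ∈ s, c i * bq (l i) n = 0) :
    ∀ k n : ℕ, k + n < M → ∑ i ∈ s, c i * (l i) ^ k * bq (l i) n = 0 := by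
  intro k
  induction k with
  | zero =>
    intro n hn
    simpa using h n (by omega)
  | succ k ih =>
    intro n hn
    have h1 : ∀ i, c i * (l i) ^ (k + 1) * bq (l i) n =
        ((n : ℚ) + 1) * (c i * (l i) ^ k * bq (l i) (n + 1)) + n * (c i * (l i) ^ k * bq (l i) n) := by
      intro i
      linear_combination (- c i * (l i) ^ k) * bq_succ (l i) n
    rw [sum_congr rfl (fun i _ => h1 i), sum_add_distrib, ← mul_sum, ← mul_sum,
      ih (n + 1) (by omega), ih n (by omega)]
    simp

/-- If `∑ c * bq l n = 0` for `n < M`, then `∑ c * l ^ a * bq l k * bq l n = 0` for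
`a + k + n < M`. -/
lemma moments2 {s : Finset ι} {c l : ι → ℚ} {M : ℕ}
    (h : ∀ n < M, ∑ i ∈ s, c i * bq (l i) n = 0) :
    ∀ k a n : ℕ, a + k + n < M → ∑ i ∈ s, c i * (l i) ^ a * bq (l i) k * bq (l i) n = 0 := by
  intro k
  induction k with
  | zero =>
    intro a n hn
    simp only [bq_zero_right, mul_one]
    exact moments h a n (by omega)
  | succ k ih =>
    intro a n hn
    have h1 : ∀ i, ((k : ℚ) + 1) * (c i * (l i) ^ a * bq (l i) (k + 1) * bq (l i) n) =
        (c i * (l i) ^ (a + 1) * bq (l i) k * bq (l i) n) -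
          k * (c i * (l i) ^ a * bq (l i) k * bq (l i) n) := by
      intro i
      linear_combination (c i * (l i) ^ a * bq (l i) n) * bq_succ (l i) k
    have h2 : ((k : ℚ) + 1) * ∑ i ∈ s, c i * (l i) ^ a * bq (l i) (k + 1) * bq (l i) n = 0 := by
      rw [mul_sum, sum_congr rfl (fun i _ => h1 i), sum_sub_distrib, ← mul_sum,
        ih (a + 1) n (by omega), ih a n (by omega)]
      simp
    have h3 : ((k : ℚ) + 1) ≠ 0 := by positivity
    exact (mul_eq_zero.mp h2).resolve_left h3

end Moments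

/-- The binomial series `(1 + X) ^ l`. -/
noncomputable def bs (l : ℚ) : PowerSeries ℚ := PowerSeries.mk (bq l)

lemma bs_add (a b : ℚ) : bs (a + b) = bs a * bs b := by
  ext n
  rw [PowerSeries.coeff_mul, bs, PowerSeries.coeff_mk, bq_add]
  simp [bs]

lemma bs_zero : bs 0 = 1 := by
  ext n
  rw [bs, PowerSeries.coeff_mk, show (0 : ℚ) = ((0 : ℕ) : ℚ) by simp, bq_natCast,
    PowerSeries.coeff_one]
  rcases n with _ | n
  · simp
  · simp

lemma bs_one : bs 1 = 1 + PowerSeries.X := by
  ext n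
  rw [bs, PowerSeries.coeff_mk, show (1 : ℚ) = ((1 : ℕ) : ℚ) by simp, bq_natCast]
  rw [map_add, PowerSeries.coeff_one, PowerSeries.coeff_X]
  rcases n with _ | _ | n
  · simp
  · simp
  · rw [Nat.choose_eq_zero_of_lt (by omega)]
    simp

lemma bs_natCast_add (j : ℕ) (l : ℚ) : bs (j + l) = (1 + PowerSeries.X) ^ j * bs l := by
  induction j with
  | zero => simp
  | succ j ih =>
    rw [show (((j + 1 : ℕ) : ℚ) + l) = 1 + (j + l) by push_cast; ring, bs_add, ih, bs_one]
    ring

lemma isUnit_bs (l : ℚ) : IsUnit (bs l) := by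
  have h : bs l * bs (-l) = 1 := by
    rw [← bs_add, add_neg_cancel, bs_zero]
  exact IsUnit.of_mul_eq_one _ h

section Estimate

variable {r K : ℕ} (c : Fin r → ℕ → ℚ) (ν w : Fin r → ℚ)

/-- The matrix of the polynomials `∑ c s j (j + nu s) ^ k X ^ j`. -/
noncomputable def Wm (K : ℕ) (c : Fin r → ℕ → ℚ) (ν : Fin r → ℚ) : Matrix (Fin r) (Fin r) ℚ[X] :=
  Matrix.of fun k s => ∑ j ∈ range K, C (c s j * (j + ν s) ^ (k : ℕ)) * X ^ j

lemma X_pow_dvd_of_col_sum {e : ℕ} (hr : 1 ≤ r) (A : Matrix (Fin r) (Fin r) (PowerSeries ℚ))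
    (h : ∀ k, (PowerSeries.X : PowerSeries ℚ) ^ e ∣ ∑ s, A k s) :
    (PowerSeries.X : PowerSeries ℚ) ^ e ∣ A.det := by
  choose B hB using h
  have h1 := Matrix.det_updateCol_sum A ⟨0, hr⟩ (fun _ => (1 : PowerSeries ℚ))
  simp only [one_smul] at h1
  rw [← h1]
  have h2 : (fun k => ∑ i, A k i) = (PowerSeries.X : PowerSeries ℚ) ^ e • B := by
    funext k
    rw [hB k]
    rfl
  rw [h2, Matrix.det_updateCol_smul]
  exact Dvd.intro _ rfl

lemma det_point {μ : ℕ} {σ : ℚ} (hr : 1 ≤ r) (hσ : σ ≠ 0) (hw : ∀ s, w s ≠ 0)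
    (h : ∀ k n : ℕ, k + n < μ →
      ∑ s, ∑ j ∈ range K, c s j * (w s * σ ^ j) * (j + ν s) ^ k * bq (j + ν s) n = 0) :
    (X - C σ) ^ (μ + 1 - r) ∣ (Wm K c ν).det := by
  obtain ⟨e, he⟩ : ∃ e, e = μ + 1 - r := ⟨_, rfl⟩
  rw [← he]
  -- the shifted matrix
  have hshift : (Wm K c ν).det.comp (C σ * (1 + X)) =
      (Matrix.of fun k s : Fin r => ((Wm K c ν) k s).comp (C σ * (1 + X))).det := by
    have := RingHom.map_det (Polynomial.compRingHom (C σ * (1 + X) : ℚ[X])) (Wm K c ν)
    rw [Polynomial.coe_compRingHom_apply] at this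
    rw [this]
    congr 1
  have hps : (X : ℚ[X]) ^ e ∣ (Wm K c ν).det.comp (C σ * (1 + X)) := by
    have h1 : (PowerSeries.X : PowerSeries ℚ) ^ e ∣
        (((Wm K c ν).det.comp (C σ * (1 + X)) : ℚ[X]) : PowerSeries ℚ) := by
      rw [hshift]
      have h2 := RingHom.map_det (Polynomial.coeToPowerSeries.ringHom (R := ℚ))
        (Matrix.of fun k s : Fin r => ((Wm K c ν) k s).comp (C σ * (1 + X)))
      rw [Polynomial.coeToPowerSeries.ringHom_apply] at h2
      rw [h2]
      obtain ⟨A, hA⟩ : ∃ A : Matrix (Fin r) (Fin r) (PowerSeries ℚ),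
          A = (Polynomial.coeToPowerSeries.ringHom (R := ℚ)).mapMatrix
        (Matrix.of fun k s : Fin r => ((Wm K c ν) k s).comp (C σ * (1 + X))) := ⟨_, rfl⟩
      rw [← hA]
      have h3 : ∀ k, (PowerSeries.X : PowerSeries ℚ) ^ e ∣
          ∑ s, (Matrix.of fun k s : Fin r => (PowerSeries.C (w s) * bs (ν s)) * A k s) k s := by
        intro k
        rw [PowerSeries.X_pow_dvd_iff]
        intro n hn
        have h4 : ∀ s, (Matrix.of fun k s : Fin r => (PowerSeries.C (w s) * bs (ν s)) * A k s) k s =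
            ∑ j ∈ range K, PowerSeries.C (c s j * (w s * σ ^ j) * (j + ν s) ^ (k : ℕ)) *
              bs (j + ν s) := by
          intro s
          have h5 : A k s = ∑ j ∈ range K, PowerSeries.C (c s j * (j + ν s) ^ (k : ℕ)) *
              (PowerSeries.C σ * (1 + PowerSeries.X)) ^ j := by
            rw [hA]
            simp only [Wm, RingHom.mapMatrix_apply, Matrix.map_apply, Matrix.of_apply,
              coeToPowerSeries.ringHom_apply, Polynomial.sum_comp, mul_comp, C_comp, pow_comp,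
              X_comp]
            rw [← coeToPowerSeries.ringHom_apply, map_sum]
            refine sum_congr rfl ?_
            intro j _
            rw [map_mul (coeToPowerSeries.ringHom (R := ℚ)), map_pow,
              map_mul (coeToPowerSeries.ringHom (R := ℚ)) (C σ), map_add, map_one,
              coeToPowerSeries.ringHom_apply, coeToPowerSeries.ringHom_apply,
              coeToPowerSeries.ringHom_apply, coe_C, coe_C, coe_X]
          rw [Matrix.of_apply, h5, mul_sum]
          refine sum_congr rfl ?_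
          intro j _
          rw [bs_natCast_add, mul_pow]
          simp only [map_mul, map_pow]
          ring
        rw [sum_congr rfl (fun s _ => h4 s), map_sum]
        rw [← h k n (by have := k.2; omega)]
        refine sum_congr rfl ?_
        intro s _
        rw [map_sum]
        refine sum_congr rfl ?_
        intro j _
        rw [PowerSeries.coeff_C_mul, bs, PowerSeries.coeff_mk]
      have h6 := X_pow_dvd_of_col_sum hr _ h3
      rw [Matrix.det_mul_row] at h6
      have h7 : IsUnit (∏ i, PowerSeries.C (w i) * bs (ν i)) := by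
        apply IsUnit.prod_univ_iff.mpr
        intro i
        exact ((hw i).isUnit.map PowerSeries.C).mul (isUnit_bs _)
      exact (h7.dvd_mul_left).mp h6
    rw [PowerSeries.X_pow_dvd_iff] at h1
    rw [Polynomial.X_pow_dvd_iff]
    intro d hd
    have := h1 d hd
    rwa [Polynomial.coeff_coe] at this
  obtain ⟨Q, hQ⟩ := hps
  have h8 : (Wm K c ν).det = ((Wm K c ν).det.comp (C σ * (1 + X))).comp (C σ⁻¹ * X - 1) := by
    rw [Polynomial.comp_assoc]
    have : (C σ * (1 + X) : ℚ[X]).comp (C σ⁻¹ * X - 1) = X := by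
      simp only [mul_comp, C_comp, add_comp, one_comp, X_comp]
      rw [add_sub_cancel, ← mul_assoc, ← C_mul, mul_inv_cancel₀ hσ, C_1, one_mul]
    rw [this, Polynomial.comp_X]
  rw [h8, hQ, mul_comp, pow_comp, X_comp]
  have h9 : (X - C σ : ℚ[X]) ∣ C σ⁻¹ * X - 1 := by
    refine ⟨C σ⁻¹, ?_⟩
    rw [sub_mul, ← C_mul, mul_inv_cancel₀ hσ, C_1]
    ring
  exact (pow_dvd_pow_of_dvd h9 e).mul_right _

lemma det_ne_zero (hc : ∀ s, ∃ j < K, c s j ≠ 0)
    (hν : ∀ s s', s ≠ s' → ∀ a b : ℕ, (a : ℚ) + ν s ≠ b + ν s') : (Wm K c ν).det ≠ 0 := by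
  classical
  obtain ⟨e, he⟩ : ∃ e : Fin r → ℕ, ∀ s, e s < K ∧ c s (e s) ≠ 0 ∧ ∀ j < e s, c s j = 0 := by
    refine ⟨fun s => Nat.find (hc s), ?_⟩
    intro s
    have h1 := Nat.find_spec (hc s)
    refine ⟨h1.1, h1.2, ?_⟩
    intro j hj
    by_contra h2
    exact Nat.find_min (hc s) hj ⟨hj.trans h1.1, h2⟩
  have h1 : Wm K c ν = Matrix.of fun k s => (X ^ (e s) : ℚ[X]) *
      (Matrix.of fun (k s : Fin r) => ∑ j ∈ range K, if e s ≤ j then
        C (c s j * (j + ν s) ^ (k : ℕ)) * X ^ (j - e s) else 0) k s := by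
    ext1 k s
    simp only [Wm, Matrix.of_apply]
    rw [mul_sum]
    refine sum_congr rfl ?_
    intro j _
    split_ifs with h
    · rw [mul_left_comm, ← pow_add, Nat.add_sub_cancel' h]
    · rw [(he s).2.2 j (by omega)]
      simp
  rw [h1, Matrix.det_mul_row]
  apply mul_ne_zero
  · exact prod_ne_zero_iff.mpr (fun s _ => pow_ne_zero _ X_ne_zero)
  · intro h2
    have h3 := congrArg (Polynomial.evalRingHom (0 : ℚ)) h2
    rw [map_zero, RingHom.map_det] at h3
    have h4 : (Polynomial.evalRingHom (0 : ℚ)).mapMatrix (Matrix.of fun (k s : Fin r) =>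
        ∑ j ∈ range K, if e s ≤ j then C (c s j * (j + ν s) ^ (k : ℕ)) * X ^ (j - e s) else 0) =
        Matrix.of fun k s => c s (e s) * (Matrix.vandermonde (fun s => (e s : ℚ) + ν s)).transpose k s := by
      ext1 k s
      simp only [RingHom.mapMatrix_apply, Matrix.map_apply, Matrix.of_apply, map_sum,
        Matrix.transpose_apply, Matrix.vandermonde_apply]
      rw [Finset.sum_eq_single (e s)]
      · simp
      · intro j _ hj
        split_ifs with h
        · simp only [coe_evalRingHom, eval_mul, eval_C, eval_pow, eval_X]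
          rw [zero_pow (by omega), mul_zero]
        · simp
      · intro h
        exact absurd (mem_range.mpr (he s).1) h
    rw [h4, Matrix.det_mul_row, Matrix.det_transpose] at h3
    rcases mul_eq_zero.mp h3 with h5 | h5
    · obtain ⟨s, _, hs⟩ := prod_eq_zero_iff.mp h5
      exact (he s).2.1 hs
    · refine (Matrix.det_vandermonde_ne_zero_iff.mpr ?_) h5
      intro s s' hss
      by_contra hne
      exact hν s s' hne _ _ hss

lemma natDegree_det_le : (Wm K c ν).det.natDegree ≤ r * (K - 1) := by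
  classical
  rw [Matrix.det_apply]
  refine natDegree_sum_le_of_forall_le _ _ ?_
  intro σ _
  refine (natDegree_smul_le _ _).trans ?_
  refine (natDegree_prod_le _ _).trans ?_
  have : ∀ i : Fin r, (Wm K c ν (σ i) i).natDegree ≤ K - 1 := by
    intro i
    simp only [Wm, Matrix.of_apply]
    refine natDegree_sum_le_of_forall_le _ _ ?_
    intro j hj
    refine (natDegree_C_mul_X_pow_le _ _).trans ?_
    have := mem_range.mp hj
    omega
  refine (sum_le_sum (fun i _ => this i)).trans ?_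
  simp

theorem zero_estimate {M μ : ℕ} {σ : ℚ} (hr : 1 ≤ r) (hσ0 : σ ≠ 0) (hσ1 : σ ≠ 1)
    (hw : ∀ s, w s ≠ 0) (hc : ∀ s, ∃ j < K, c s j ≠ 0)
    (hν : ∀ s s', s ≠ s' → ∀ a b : ℕ, (a : ℚ) + ν s ≠ b + ν s')
    (h1 : ∀ k n : ℕ, k + n < M →
      ∑ s, ∑ j ∈ range K, c s j * (j + ν s) ^ k * bq (j + ν s) n = 0)
    (h2 : ∀ k n : ℕ, k + n < μ →
      ∑ s, ∑ j ∈ range K, c s j * (w s * σ ^ j) * (j + ν s) ^ k * bq (j + ν s) n = 0) :
    (M + 1 - r) + (μ + 1 - r) ≤ r * (K - 1) := by
  have hd1 : (X - C (1 : ℚ)) ^ (M + 1 - r) ∣ (Wm K c ν).det := by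
    refine det_point c ν (fun _ => 1) hr one_ne_zero (fun _ => one_ne_zero) ?_
    intro k n hkn
    simpa using h1 k n hkn
  have hd2 := det_point c ν w hr hσ0 hw h2
  have hne := det_ne_zero c ν hc hν
  have hcop : IsCoprime ((X - C (1 : ℚ)) ^ (M + 1 - r)) ((X - C σ) ^ (μ + 1 - r)) := by
    apply IsCoprime.pow
    exact Polynomial.isCoprime_X_sub_C_of_isUnit_sub (sub_ne_zero.mpr (Ne.symm hσ1)).isUnit
  have hd := hcop.mul_dvd hd1 hd2
  have h3 := natDegree_le_of_dvd hd hne
  rw [natDegree_mul (pow_ne_zero _ (X_sub_C_ne_zero _)) (pow_ne_zero _ (X_sub_C_ne_zero _)),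
    natDegree_pow, natDegree_pow, natDegree_X_sub_C, natDegree_X_sub_C, mul_one, mul_one] at h3
  exact h3.trans (natDegree_det_le c ν)

end Estimate

end Pool.Agent.K9h9
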