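import Mathlib
import Pool.Agent.K9h9.Zero

/-!
# The auxiliary coefficients (Siegel's lemma) and divisibility by powers of `D`
-/

set_option autoImplicit false

namespace Pool.Agent.K9h9

open Finset

/-- The vanishing conditions. -/
def Van (q c L K M : ℕ) (t : ℕ → ℕ → ℤ) : Prop :=
  ∀ n < M, ∑ i ∈ range L, ∑ j ∈ range K, t i j * beta q (i * c + j * q) n = 0

attribute [local instance] Matrix.seminormedAddCommGroup in
/-- Siegel's lemma. -/
lemma exists_coeffs {q : ℕ} (hq : q.Prime) {c L K M G : ℕ} (hM : 1 ≤ M) (hMLK : M < L * K)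
    (hG : (L - 1) * c + (K - 1) * q ≤ G * q) :
    ∃ t : ℕ → ℕ → ℤ, (∃ i < L, ∃ j < K, t i j ≠ 0) ∧ Van q c L K M t ∧
      ∀ i j, |(t i j : ℝ)| ≤ ((L * K : ℕ) * ((q : ℝ) ^ (2 * M) * 2 ^ G)) ^
        ((M : ℝ) / ((L * K : ℕ) - M)) := by
  have hq1 : (1 : ℝ) ≤ q := by exact_mod_cast hq.one_lt.le
  have hB1 : (1 : ℝ) ≤ (q : ℝ) ^ (2 * M) * 2 ^ G :=
    one_le_mul_of_one_le_of_one_le (one_le_pow₀ hq1) (one_le_pow₀ (by norm_num))
  obtain ⟨A, hA⟩ : ∃ A : Matrix (Fin M) (Fin L × Fin K) ℤ,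
      A = Matrix.of fun (n : Fin M) (ij : Fin L × Fin K) =>
        beta q ((ij.1 : ℕ) * c + (ij.2 : ℕ) * q) n := ⟨_, rfl⟩
  have hAnorm : ‖A‖ ≤ (q : ℝ) ^ (2 * M) * 2 ^ G := by
    rw [Matrix.norm_le_iff (by linarith)]
    intro n ij
    rw [hA, Matrix.of_apply, Int.norm_eq_abs]
    have h1 : (((ij.1 : ℕ) : ℤ) * c + (ij.2 : ℕ) * q) ≤ G * q := by
      have h2 : (ij.1 : ℕ) ≤ L - 1 := by have := ij.1.2; omega
      have h3 : (ij.2 : ℕ) ≤ K - 1 := by have := ij.2.2; omega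
      have h4 : (ij.1 : ℕ) * c + (ij.2 : ℕ) * q ≤ G * q :=
        (add_le_add (Nat.mul_le_mul_right _ h2) (Nat.mul_le_mul_right _ h3)).trans hG
      exact_mod_cast h4
    have h5 := abs_beta_le hq (by positivity) h1 n
    have h6 : |((beta q (((ij.1 : ℕ) : ℤ) * c + (ij.2 : ℕ) * q) n : ℤ) : ℝ)| ≤
        (q : ℝ) ^ (2 * (n : ℕ)) * 2 ^ G := by exact_mod_cast h5
    refine h6.trans ?_
    have h7 : (q : ℝ) ^ (2 * (n : ℕ)) ≤ (q : ℝ) ^ (2 * M) :=
      pow_le_pow_right₀ hq1 (by have := n.2; omega)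
    gcongr
  obtain ⟨v, hv0, hv1, hv2⟩ := Int.Matrix.exists_ne_zero_int_vec_norm_le A
    (by simpa using hMLK) (by simpa using Nat.lt_of_lt_of_le Nat.one_pos hM)
  simp only [Fintype.card_prod, Fintype.card_fin] at hv2
  have hbound : ‖v‖ ≤ ((L * K : ℕ) * ((q : ℝ) ^ (2 * M) * 2 ^ G)) ^
        ((M : ℝ) / ((L * K : ℕ) - M)) := by
    refine hv2.trans ?_
    have h8 : (0 : ℝ) < (L * K : ℕ) - M := by
      have : (M : ℝ) < (L * K : ℕ) := by exact_mod_cast hMLK
      linarith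
    refine Real.rpow_le_rpow (by positivity) ?_ (by positivity)
    have h9 : max 1 ‖A‖ ≤ (q : ℝ) ^ (2 * M) * 2 ^ G := max_le hB1 hAnorm
    gcongr
  refine ⟨fun i j => if h : i < L ∧ j < K then v (⟨i, h.1⟩, ⟨j, h.2⟩) else 0, ?_, ?_, ?_⟩
  · obtain ⟨ij, hij⟩ := Function.ne_iff.mp hv0
    refine ⟨ij.1, ij.1.2, ij.2, ij.2.2, ?_⟩
    have h1 : ((ij.1 : ℕ) < L ∧ (ij.2 : ℕ) < K) := ⟨ij.1.2, ij.2.2⟩
    simp only [dif_pos h1]
    exact hij
  · intro n hn
    have h1 := congrFun hv1 ⟨n, hn⟩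
    rw [Matrix.mulVec, dotProduct, Fintype.sum_prod_type] at h1
    simp only [Pi.zero_apply] at h1
    refine Eq.trans ?_ h1
    rw [Finset.sum_range]
    refine sum_congr rfl ?_
    intro i _
    rw [Finset.sum_range]
    refine sum_congr rfl ?_
    intro j _
    have h2 : ((i : ℕ) < L ∧ (j : ℕ) < K) := ⟨i.2, j.2⟩
    simp only [dif_pos h2]
    rw [hA, Matrix.of_apply]
    ring
  · intro i j
    by_cases h : i < L ∧ j < K
    · simp only [dif_pos h]
      have := norm_le_pi_norm v (⟨i, h.1⟩, ⟨j, h.2⟩)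
      rw [Int.norm_eq_abs] at this
      exact this.trans hbound
    · simp only [dif_neg h]
      simp only [Int.cast_zero, abs_zero]
      positivity

/-- The vanishing conditions over `ℚ`, in product form. -/
lemma Van.rat {q c L K M : ℕ} (hq : q.Prime) {t : ℕ → ℕ → ℤ} (ht : Van q c L K M t) :
    ∀ n < M, ∑ x ∈ range L ×ˢ range K, (t x.1 x.2 : ℚ) * bq ((x.1 : ℚ) * c / q + x.2) n = 0 := by
  intro n hn
  have hq0 : (q : ℚ) ≠ 0 := by exact_mod_cast hq.ne_zero
  have h1 := ht n hn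
  rw [← Finset.sum_product'] at h1
  have h2 : ((∑ x ∈ range L ×ˢ range K, t x.1 x.2 * beta q (x.1 * c + x.2 * q) n : ℤ) : ℚ) = 0 := by
    rw [h1]
    simp
  push_cast at h2
  have h3 : (q : ℚ) ^ (2 * n) * ∑ x ∈ range L ×ˢ range K,
      (t x.1 x.2 : ℚ) * bq ((x.1 : ℚ) * c / q + x.2) n = 0 := by
    rw [← h2, mul_sum]
    refine sum_congr rfl ?_
    intro x _
    rw [beta_cast hq]
    push_cast
    rw [add_div, mul_div_cancel_right₀ _ hq0]
    ring
  exact (mul_eq_zero.mp h3).resolve_left (pow_ne_zero _ hq0)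

/-- Products of two integral binomial coefficients. -/
lemma Van.prod {q c L K M : ℕ} (hq : q.Prime) {t : ℕ → ℕ → ℤ} (ht : Van q c L K M t) {k n : ℕ}
    (hkn : k + n < M) : ∑ i ∈ range L, ∑ j ∈ range K,
      t i j * beta q (i * c + j * q) k * beta q (i * c + j * q) n = 0 := by
  have hq0 : (q : ℚ) ≠ 0 := by exact_mod_cast hq.ne_zero
  have h1 := moments2 (ht.rat hq) k 0 n (by omega)
  have h2 : ((∑ i ∈ range L, ∑ j ∈ range K,
      t i j * beta q (i * c + j * q) k * beta q (i * c + j * q) n : ℤ) : ℚ) = 0 := by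
    rw [← Finset.sum_product']
    push_cast
    rw [← mul_zero ((q : ℚ) ^ (2 * k) * (q : ℚ) ^ (2 * n)), ← h1, mul_sum]
    refine sum_congr rfl ?_
    intro x _
    rw [beta_cast hq, beta_cast hq]
    push_cast
    rw [add_div, mul_div_cancel_right₀ _ hq0]
    ring
  exact_mod_cast h2

section Dadic

variable {R : Type*} [CommRing R]

lemma trunc_mul {e : ℕ} {τ : R} (hτ : τ ^ e = 0) (u v : ℕ → R) :
    (∑ n ∈ range e, u n * τ ^ n) * (∑ n ∈ range e, v n * τ ^ n) =
      ∑ n ∈ range e, (∑ ij ∈ antidiagonal n, u ij.1 * v ij.2) * τ ^ n := by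
  obtain ⟨U, hU⟩ : ∃ U : Polynomial R, U = ∑ n ∈ range e, Polynomial.C (u n) * Polynomial.X ^ n :=
    ⟨_, rfl⟩
  obtain ⟨V, hV⟩ : ∃ V : Polynomial R, V = ∑ n ∈ range e, Polynomial.C (v n) * Polynomial.X ^ n :=
    ⟨_, rfl⟩
  have hUe : U.eval τ = ∑ n ∈ range e, u n * τ ^ n := by
    rw [hU, Polynomial.eval_finsetSum]
    simp
  have hVe : V.eval τ = ∑ n ∈ range e, v n * τ ^ n := by
    rw [hV, Polynomial.eval_finsetSum]
    simp
  have hUc : ∀ n < e, U.coeff n = u n := by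
    intro n hn
    rw [hU, Polynomial.finsetSum_coeff]
    simp [Polynomial.coeff_C_mul, Polynomial.coeff_X_pow, hn]
  have hVc : ∀ n < e, V.coeff n = v n := by
    intro n hn
    rw [hV, Polynomial.finsetSum_coeff]
    simp [Polynomial.coeff_C_mul, Polynomial.coeff_X_pow, hn]
  rw [← hUe, ← hVe, ← Polynomial.eval_mul]
  rw [Polynomial.eval_eq_sum_range' (n := e + ((U * V).natDegree + 1)) (by omega),
    Finset.sum_range_add]
  have h1 : ∑ x ∈ range ((U * V).natDegree + 1), (U * V).coeff (e + x) * τ ^ (e + x) = 0 := by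
    refine sum_eq_zero ?_
    intro x _
    rw [pow_add, hτ, zero_mul, mul_zero]
  rw [h1, add_zero]
  refine sum_congr rfl ?_
  intro n hn
  rw [Polynomial.coeff_mul]
  congr 1
  refine sum_congr rfl ?_
  intro ij hij
  have h2 := mem_antidiagonal.mp hij
  have h3 := mem_range.mp hn
  rw [hUc _ (by omega), hVc _ (by omega)]

/-- The truncated binomial series. -/
noncomputable def pw (q e : ℕ) (τ : R) (g : ℤ) : R := ∑ n ∈ range e, (beta q g n : R) * τ ^ n

lemma pw_add {q e : ℕ} (hq : q.Prime) {τ : R} (hτ : τ ^ e = 0) (g h : ℤ) :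
    pw q e τ (g + h) = pw q e τ g * pw q e τ h := by
  rw [pw, pw, pw, trunc_mul hτ]
  refine sum_congr rfl ?_
  intro n _
  rw [beta_add hq]
  push_cast
  rfl

lemma pw_zero {q e : ℕ} (hq : q.Prime) {τ : R} (hτ : τ ^ e = 0) : pw q e τ 0 = 1 := by
  rcases Nat.eq_zero_or_pos e with h | h
  · rw [h, pow_zero] at hτ
    exact (subsingleton_of_zero_eq_one hτ.symm).elim _ _
  · obtain ⟨e', rfl⟩ := Nat.exists_eq_add_of_le' h
    rw [pw, sum_range_succ', beta_zero_right hq]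
    rw [sum_eq_zero]
    · simp
    · intro n _
      rw [beta_zero_left hq (by omega)]
      simp

lemma pw_self {q e : ℕ} (hq : q.Prime) {τ : R} (hτ : τ ^ e = 0) :
    pw q e τ q = 1 + (q : R) ^ 2 * τ := by
  rcases e with _ | _ | e
  · rw [pow_zero] at hτ
    exact (subsingleton_of_zero_eq_one hτ.symm).elim _ _
  · simp only [zero_add, pow_one] at hτ
    rw [hτ, pw]
    simp [beta_zero_right hq]
  · rw [pw, sum_range_succ', sum_range_succ', beta_zero_right hq]
    simp only [zero_add, beta_self_one hq]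
    rw [sum_eq_zero]
    · push_cast
      ring
    · intro n _
      rw [beta_self_of_two_le hq (by omega)]
      simp

lemma pw_pow {q e : ℕ} (hq : q.Prime) {τ : R} (hτ : τ ^ e = 0) (g : ℤ) (i : ℕ) :
    pw q e τ (i * g) = (pw q e τ g) ^ i := by
  induction i with
  | zero => simp [pw_zero hq hτ]
  | succ i ih =>
    rw [show (((i + 1 : ℕ) : ℤ) * g) = i * g + g by push_cast; ring, pw_add hq hτ, ih, pow_succ]

end Dadic

lemma totient_pow_dvd {q D e : ℕ} (hq : q.Prime) (he : 0 < e) (h : q ∣ (D ^ e).totient) :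
    q ∣ D ∨ q ∣ D.totient := by
  have h1 := Nat.totient_mul_prod_primeFactors (D ^ e)
  have h2 := Nat.totient_mul_prod_primeFactors D
  rw [Nat.primeFactors_pow _ he.ne'] at h1
  have h3 : q ∣ D ^ e * ∏ p ∈ D.primeFactors, (p - 1) := by
    rw [← h1]
    exact h.mul_right _
  rcases (Nat.Prime.dvd_mul hq).mp h3 with h4 | h4
  · exact Or.inl (hq.dvd_of_dvd_pow h4)
  · have h5 : q ∣ D.totient * ∏ p ∈ D.primeFactors, p := by
      rw [h2]
      exact h4.mul_left _
    rcases (Nat.Prime.dvd_mul hq).mp h5 with h6 | h6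
    · exact Or.inr h6
    · exact Or.inl (h6.trans (Nat.prod_primeFactors_dvd D))

/-- The integral linear form. -/
noncomputable def Nk (q c L K : ℕ) (t : ℕ → ℕ → ℤ) (b B0 X A : ℤ) (k : ℕ) : ℤ :=
  ∑ i ∈ range L, ∑ j ∈ range K,
    t i j * beta q (i * c + j * q) k * (b ^ i * B0 ^ (L - 1 - i) * (X ^ j * A ^ (K - 1 - j)))

/-- Divisibility of the linear form by a high power of `D`. -/
theorem dvd_Nk {q : ℕ} (hq : q.Prime) {c L K M : ℕ} {t : ℕ → ℕ → ℤ} (ht : Van q c L K M t)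
    {D : ℕ} {b B0 X A : ℤ} (hD : IsCoprime (D : ℤ) (q * A * B0)) (hXA : (D : ℤ) ∣ X - A)
    (hpow : (D : ℤ) ^ M ∣ b ^ q * A ^ c - X ^ c * B0 ^ q) (hφ : ¬ q ∣ D.totient) (k : ℕ) :
    (D : ℤ) ^ (M - k) ∣ Nk q c L K t b B0 X A k := by
  obtain ⟨e, he⟩ : ∃ e, e = M - k := ⟨_, rfl⟩
  rw [← he]
  rcases Nat.eq_zero_or_pos e with he0 | he0
  · rw [he0, pow_zero]
    exact one_dvd _
  have hcast : ∀ z : ℤ, ((D : ℤ) ^ e ∣ z) ↔ ((z : ZMod (D ^ e)) = 0) := by
    intro z
    rw [ZMod.intCast_zmod_eq_zero_iff_dvd]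
    push_cast
    rfl
  have hunit : ∀ z : ℤ, IsCoprime (D : ℤ) z → IsUnit ((z : ZMod (D ^ e))) := by
    intro z hz
    obtain ⟨u, v, huv⟩ := (hz.pow_left (m := e))
    have h1 : (v : ZMod (D ^ e)) * z = 1 := by
      have h2 : ((u * (D : ℤ) ^ e + v * z : ℤ) : ZMod (D ^ e)) = 1 := by rw [huv]; simp
      push_cast at h2
      have h3 : ((D : ZMod (D ^ e)) ^ e) = 0 := by
        have := ZMod.natCast_self (D ^ e)
        push_cast at this
        exact this
      rw [h3, mul_zero, zero_add] at h2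
      exact h2
    exact IsUnit.of_mul_eq_one_right _ h1
  have hDq : IsCoprime (D : ℤ) q := hD.of_mul_right_left.of_mul_right_left
  have hDA : IsCoprime (D : ℤ) A := hD.of_mul_right_left.of_mul_right_right
  have hDB : IsCoprime (D : ℤ) B0 := hD.of_mul_right_right
  have uq : IsUnit ((q : ZMod (D ^ e))) := by
    have := hunit q hDq
    push_cast at this
    exact this
  have uA := hunit A hDA
  have uB := hunit B0 hDB
  have hDX : IsCoprime (D : ℤ) X := by
    obtain ⟨m, hm⟩ := hXA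
    have : X = A + D * m := by linarith
    rw [this]
    exact IsCoprime.add_mul_left_right hDA m
  have uX := hunit X hDX
  obtain ⟨iq, hiq⟩ := uq.exists_left_inv
  obtain ⟨iA, hiA⟩ := uA.exists_left_inv
  obtain ⟨iB, hiB⟩ := uB.exists_left_inv
  obtain ⟨τ, hτ⟩ : ∃ τ : ZMod (D ^ e), τ = (X - A) * iA * iq ^ 2 := ⟨_, rfl⟩
  have hτe : τ ^ e = 0 := by
    rw [hτ, mul_pow, mul_pow]
    have h1 : ((X : ZMod (D ^ e)) - A) ^ e = 0 := by
      have h2 := (hcast ((X - A) ^ e)).mp (pow_dvd_pow_of_dvd hXA e)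
      push_cast at h2
      exact h2
    rw [h1, zero_mul, zero_mul]
  obtain ⟨σ, hσ⟩ : ∃ σ : ZMod (D ^ e), σ = X * iA := ⟨_, rfl⟩
  obtain ⟨α, hα⟩ : ∃ α : ZMod (D ^ e), α = b * iB := ⟨_, rfl⟩
  have hσ1 : pw q e τ q = σ := by
    rw [pw_self hq hτe, hτ, hσ]
    linear_combination ((X : ZMod (D ^ e)) * iA - A * iA) * (q * iq + 1) * hiq - hiA
  have hXσ : (X : ZMod (D ^ e)) = σ * A := by
    rw [hσ]
    linear_combination (-(X : ZMod (D ^ e))) * hiA
  have hbα : (b : ZMod (D ^ e)) = α * B0 := by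
    rw [hα]
    linear_combination (-(b : ZMod (D ^ e))) * hiB
  have uσ : IsUnit σ := by
    rw [hXσ] at uX
    exact isUnit_of_mul_isUnit_left uX
  have hαq : α ^ q = σ ^ c := by
    have h1 : (D : ℤ) ^ e ∣ b ^ q * A ^ c - X ^ c * B0 ^ q :=
      (pow_dvd_pow _ (by omega)).trans hpow
    rw [hcast] at h1
    push_cast at h1
    rw [hXσ, hbα] at h1
    have h2 : (α ^ q - σ ^ c) * ((B0 : ZMod (D ^ e)) ^ q * A ^ c) = 0 := by
      rw [← h1]
      ring
    have h3 : IsUnit ((B0 : ZMod (D ^ e)) ^ q * A ^ c) := (uB.pow q).mul (uA.pow c)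
    have h4 := (h3.mul_left_eq_zero).mp h2
    exact sub_eq_zero.mp h4
  have uα : IsUnit α := by
    have h1 : IsUnit (α ^ q) := by
      rw [hαq]
      exact uσ.pow c
    exact (isUnit_pow_iff hq.ne_zero).mp h1
  have hpc : (pw q e τ c) ^ q = σ ^ c := by
    rw [← pw_pow hq hτe, mul_comm, pw_pow hq hτe, hσ1]
  have up : IsUnit (pw q e τ c) := by
    have h1 : IsUnit ((pw q e τ c) ^ q) := by
      rw [hpc]
      exact uσ.pow c
    exact (isUnit_pow_iff hq.ne_zero).mp h1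
  have hαp : α = pw q e τ c := by
    obtain ⟨u, hu⟩ := uα
    obtain ⟨v, hv⟩ := up
    have h1 : u ^ q = v ^ q := by
      apply Units.ext
      push_cast
      rw [hu, hv, hαq, hpc]
    have hcopr : Nat.Coprime (Nat.card (ZMod (D ^ e))ˣ) q := by
      have hD0 : D ≠ 0 := by
        intro h
        apply hφ
        rw [h]
        simp
      have : NeZero (D ^ e) := ⟨pow_ne_zero _ hD0⟩
      rw [Nat.card_eq_fintype_card, ZMod.card_units_eq_totient]
      rw [Nat.coprime_comm, Nat.Prime.coprime_iff_not_dvd hq]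
      intro h
      rcases totient_pow_dvd hq he0 h with h3 | h2
      · have h4 : IsCoprime (q : ℤ) (q : ℤ) := by
          refine IsCoprime.of_isCoprime_of_dvd_left hDq ?_
          exact_mod_cast h3
        have h5 := isCoprime_self.mp h4
        have h6 := Int.isUnit_iff_natAbs_eq.mp h5
        simp at h6
        exact hq.ne_one h6
      · exact hφ h2
    have h2 := (powCoprime hcopr).injective (a₁ := u) (a₂ := v) (by simpa using h1)
    rw [← hu, ← hv, h2]
  rw [hcast]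
  have hmain : ((Nk q c L K t b B0 X A k : ℤ) : ZMod (D ^ e)) =
      (B0 : ZMod (D ^ e)) ^ (L - 1) * A ^ (K - 1) *
        ∑ n ∈ range e, τ ^ n * ((∑ i ∈ range L, ∑ j ∈ range K,
          t i j * beta q (i * c + j * q) k * beta q (i * c + j * q) n : ℤ) : ZMod (D ^ e)) := by
    rw [Nk]
    push_cast
    simp only [mul_sum]
    conv_rhs => rw [Finset.sum_comm]
    refine sum_congr rfl ?_
    intro i hi
    conv_rhs => rw [Finset.sum_comm]
    refine sum_congr rfl ?_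
    intro j hj
    have hi' := mem_range.mp hi
    have hj' := mem_range.mp hj
    have h1 : (b : ZMod (D ^ e)) ^ i * B0 ^ (L - 1 - i) * (X ^ j * A ^ (K - 1 - j)) =
        B0 ^ (L - 1) * A ^ (K - 1) * pw q e τ (i * c + j * q) := by
      rw [pw_add hq hτe, pw_pow hq hτe, pw_pow hq hτe, hσ1, ← hαp, hXσ, hbα]
      have h2 : (B0 : ZMod (D ^ e)) ^ (L - 1) = B0 ^ i * B0 ^ (L - 1 - i) := by
        rw [← pow_add]
        congr 1
        omega
      have h3 : (A : ZMod (D ^ e)) ^ (K - 1) = A ^ j * A ^ (K - 1 - j) := by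
        rw [← pow_add]
        congr 1
        omega
      rw [h2, h3]
      ring
    rw [h1, pw, mul_sum, mul_sum]
    refine sum_congr rfl ?_
    intro n _
    ring
  rw [hmain]
  rw [sum_eq_zero, mul_zero]
  intro n hn
  have := mem_range.mp hn
  rw [ht.prod hq (by omega)]
  simp

end Pool.Agent.K9h9
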