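import Mathlib
import Pool.Agent.K9h9.Coeffs

/-!
# One of the integral linear forms is not zero
-/

set_option autoImplicit false

namespace Pool.Agent.K9h9

open Finset

lemma Nk_rat {q : ℕ} (hq : q.Prime) {c L K : ℕ} (t : ℕ → ℕ → ℤ) {b B0 X A : ℤ} (hB0 : B0 ≠ 0)
    (hA : A ≠ 0) (k : ℕ) :
    (Nk q c L K t b B0 X A k : ℚ) = (B0 : ℚ) ^ (L - 1) * (A : ℚ) ^ (K - 1) * (q : ℚ) ^ (2 * k) *
      ∑ x ∈ range L ×ˢ range K, (t x.1 x.2 * (((b : ℚ) / B0) ^ x.1 * ((X : ℚ) / A) ^ x.2)) *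
        bq ((x.1 : ℚ) * c / q + x.2) k := by
  have hq0 : (q : ℚ) ≠ 0 := by exact_mod_cast hq.ne_zero
  have hB : (B0 : ℚ) ≠ 0 := by exact_mod_cast hB0
  have hA' : (A : ℚ) ≠ 0 := by exact_mod_cast hA
  rw [Nk, ← Finset.sum_product']
  push_cast
  rw [mul_sum]
  refine sum_congr rfl ?_
  intro x hx
  have h1 := (mem_product.mp hx).1
  have h2 := (mem_product.mp hx).2
  rw [mem_range] at h1 h2
  rw [beta_cast hq]
  push_cast
  rw [add_div, mul_div_cancel_right₀ _ hq0, div_pow, div_pow]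
  have h3 : (B0 : ℚ) ^ (L - 1) = B0 ^ x.1 * B0 ^ (L - 1 - x.1) := by
    rw [← pow_add]
    congr 1
    omega
  have h4 : (A : ℚ) ^ (K - 1) = A ^ x.2 * A ^ (K - 1 - x.2) := by
    rw [← pow_add]
    congr 1
    omega
  rw [h3, h4]
  field_simp

theorem exists_Nk_ne_zero {q : ℕ} (hq : q.Prime) {c L K M : ℕ} (hc : ¬ q ∣ c)
    (hLq : L ≤ q) (hK : 1 ≤ K) (hLM : L ≤ M) (hM : M < L * K)
    {t : ℕ → ℕ → ℤ} (ht0 : ∃ i < L, ∃ j < K, t i j ≠ 0) (ht : Van q c L K M t)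
    {b B0 X A : ℤ} (hb : b ≠ 0) (hB0 : B0 ≠ 0) (hX : X ≠ 0) (hA : A ≠ 0) (hXA : X ≠ A) :
    ∃ k ≤ L * K + L - M - 2, Nk q c L K t b B0 X A k ≠ 0 := by
  classical
  by_contra hcon
  push Not at hcon
  have hq0 : (q : ℚ) ≠ 0 := by exact_mod_cast hq.ne_zero
  have hb' : (b : ℚ) ≠ 0 := by exact_mod_cast hb
  have hB' : (B0 : ℚ) ≠ 0 := by exact_mod_cast hB0
  have hX' : (X : ℚ) ≠ 0 := by exact_mod_cast hX
  have hA' : (A : ℚ) ≠ 0 := by exact_mod_cast hA
  obtain ⟨α, hα⟩ : ∃ α : ℚ, α = b / B0 := ⟨_, rfl⟩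
  obtain ⟨σ, hσ⟩ : ∃ σ : ℚ, σ = X / A := ⟨_, rfl⟩
  have hα0 : α ≠ 0 := by
    rw [hα]
    exact div_ne_zero hb' hB'
  have hσ0 : σ ≠ 0 := by
    rw [hσ]
    exact div_ne_zero hX' hA'
  have hσ1 : σ ≠ 1 := by
    rw [hσ]
    intro h
    rw [div_eq_one_iff_eq hA'] at h
    exact hXA (by exact_mod_cast h)
  obtain ⟨μ, hμ⟩ : ∃ μ, μ = L * K + L - M - 1 := ⟨_, rfl⟩
  obtain ⟨i0, hi0, j0, hj0, htij⟩ := ht0
  have hvan2 : ∀ n < μ, ∑ x ∈ range L ×ˢ range K,
      (t x.1 x.2 * (α ^ x.1 * σ ^ x.2)) * bq ((x.1 : ℚ) * c / q + x.2) n = 0 := by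
    intro n hn
    have h1 := hcon n (by omega)
    have h2 := Nk_rat hq (c := c) (L := L) (K := K) t (b := b) (X := X) hB0 hA n
    rw [h1, ← hα, ← hσ] at h2
    have h3 : (B0 : ℚ) ^ (L - 1) * (A : ℚ) ^ (K - 1) * (q : ℚ) ^ (2 * n) ≠ 0 := by positivity
    rw [Int.cast_zero, eq_comm, mul_eq_zero] at h2
    exact h2.resolve_left h3
  obtain ⟨I, hI⟩ : ∃ I : Finset ℕ, I = (range L).filter (fun i => ∃ j < K, t i j ≠ 0) := ⟨_, rfl⟩
  have hIcard : I.card ≤ L := by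
    rw [hI]
    exact (card_filter_le _ _).trans (card_range L).le
  have hIpos : 1 ≤ I.card := by
    rw [Nat.succ_le_iff, card_pos]
    refine ⟨i0, ?_⟩
    rw [hI, mem_filter, mem_range]
    exact ⟨hi0, j0, hj0, htij⟩
  have hmem : ∀ i ∈ I, i < L ∧ ∃ j < K, t i j ≠ 0 := by
    intro i hi
    rw [hI, mem_filter, mem_range] at hi
    exact hi
  obtain ⟨r, hr⟩ : ∃ r, r = I.card := ⟨_, rfl⟩
  obtain ⟨e⟩ : Nonempty (Fin r ≃ I) := ⟨by rw [hr]; exact I.equivFin.symm⟩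
  have hsum : ∀ f : ℕ → ℕ → ℚ, (∀ i j, j < K → t i j = 0 → f i j = 0) →
      ∑ s : Fin r, ∑ j ∈ range K, f (e s) j = ∑ x ∈ range L ×ˢ range K, f x.1 x.2 := by
    intro f hf
    rw [Finset.sum_product]
    have h1 : ∑ s : Fin r, ∑ j ∈ range K, f (e s) j = ∑ i : I, ∑ j ∈ range K, f i j :=
      Equiv.sum_comp e (fun i : I => ∑ j ∈ range K, f i j)
    rw [h1, Finset.sum_coe_sort I (fun i => ∑ j ∈ range K, f i j), hI, sum_filter]
    refine sum_congr rfl ?_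
    intro i _
    split_ifs with h
    · rfl
    · push Not at h
      refine (sum_eq_zero ?_).symm
      intro j hj
      have hj' := mem_range.mp hj
      exact hf i j hj' (h j hj')
  have hmain := zero_estimate (r := r) (K := K) (fun s j => (t (e s) j : ℚ))
    (fun s => ((e s : ℕ) : ℚ) * c / q) (fun s => α ^ (e s : ℕ)) (M := M) (μ := μ) (σ := σ)
    (by omega) hσ0 hσ1 (fun s => pow_ne_zero _ hα0) ?_ ?_ ?_ ?_
  · have h1 : r ≤ L := by omega
    have h2 : L * K + L + 1 ≤ r * K + r := by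
      have h3 : r * (K - 1) + r = r * K := by
        obtain ⟨K', rfl⟩ := Nat.exists_eq_add_of_le' hK
        simp only [Nat.add_sub_cancel]
        ring
      have h4 : 1 ≤ r := by omega
      omega
    have h5 : r * K ≤ L * K := Nat.mul_le_mul_right _ h1
    omega
  · intro s
    obtain ⟨j, hj, hj2⟩ := (hmem _ (e s).2).2
    exact ⟨j, hj, by exact_mod_cast hj2⟩
  · intro s s' hss a b' hab
    have h1 : (((e s : ℕ) : ℤ) - (e s' : ℕ)) * c = ((b' : ℤ) - a) * q := by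
      have h2 : (((e s : ℕ) : ℚ) - (e s' : ℕ)) * c = ((b' : ℚ) - a) * q := by
        field_simp at hab
        linarith
      exact_mod_cast h2
    have h3 : (q : ℤ) ∣ (((e s : ℕ) : ℤ) - (e s' : ℕ)) * c := ⟨_, by rw [h1, mul_comm]⟩
    have h4 : (q : ℤ) ∣ (((e s : ℕ) : ℤ) - (e s' : ℕ)) := by
      rcases (Nat.prime_iff_prime_int.mp hq).dvd_or_dvd h3 with h | h
      · exact h
      · exact absurd (by exact_mod_cast h) hc
    have h5 : (e s : ℕ) < L := (hmem _ (e s).2).1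
    have h6 : (e s' : ℕ) < L := (hmem _ (e s').2).1
    have h7 : (((e s : ℕ) : ℤ) - (e s' : ℕ)) = 0 := by
      apply Int.eq_zero_of_abs_lt_dvd h4
      rw [abs_lt]
      constructor <;> omega
    apply hss
    apply e.injective
    apply Subtype.ext
    omega
  · intro k n hkn
    have h1 := moments (ht.rat hq) k n hkn
    rw [← h1]
    rw [← hsum (fun i j => (t i j : ℚ) * ((i : ℚ) * c / q + j) ^ k * bq ((i : ℚ) * c / q + j) n)]
    · refine sum_congr rfl ?_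
      intro s _
      refine sum_congr rfl ?_
      intro j _
      rw [add_comm (j : ℚ)]
    · intro i j _ h
      rw [h]
      simp
  · intro k n hkn
    have h1 := moments hvan2 k n hkn
    rw [← h1]
    rw [← hsum (fun i j => (t i j : ℚ) * (α ^ i * σ ^ j) * ((i : ℚ) * c / q + j) ^ k *
      bq ((i : ℚ) * c / q + j) n)]
    · refine sum_congr rfl ?_
      intro s _
      refine sum_congr rfl ?_
      intro j _
      rw [add_comm (j : ℚ)]
    · intro i j _ h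
      rw [h]
      simp

end Pool.Agent.K9h9
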