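import Mathlib
import Pool.Agent.K9h9.NonVan

/-!
# Upper bounds for the integral linear form, and the main inequality
-/

set_option autoImplicit false

namespace Pool.Agent.K9h9

open Finset

lemma exp_sub_sum_le {v : ℝ} (hv : 0 ≤ v) (e : ℕ) :
    Real.exp v - ∑ n ∈ range e, v ^ n / n.factorial ≤ v ^ e / e.factorial * Real.exp v := by
  have h1 : HasSum (fun n : ℕ => v ^ n / n.factorial) (Real.exp v) := by
    rw [Real.exp_eq_exp_ℝ]
    exact NormedSpace.expSeries_div_hasSum_exp v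
  have h2 := h1.summable.sum_add_tsum_nat_add e
  rw [h1.tsum_eq] at h2
  have h3 : ∑' n : ℕ, v ^ (n + e) / (n + e).factorial ≤
      ∑' n : ℕ, v ^ e / e.factorial * (v ^ n / n.factorial) := by
    refine Summable.tsum_le_tsum ?_ ((summable_nat_add_iff e).mpr h1.summable)
      (h1.summable.mul_left _)
    intro n
    rw [pow_add, div_mul_div_comm, mul_comm (v ^ n)]
    have h4 : ((e.factorial : ℝ) * n.factorial) ≤ (n + e).factorial := by
      have := Nat.le_of_dvd (Nat.factorial_pos _) (Nat.factorial_mul_factorial_dvd_factorial_add n e)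
      rw [mul_comm]
      exact_mod_cast this
    gcongr
  rw [tsum_mul_left, h1.tsum_eq] at h3
  linarith

lemma abs_exp_sub_sum_le (u : ℝ) (e : ℕ) :
    |Real.exp u - ∑ n ∈ range e, u ^ n / n.factorial| ≤
      |u| ^ e / e.factorial * Real.exp |u| := by
  have h1 := Complex.norm_exp_sub_sum_le_exp_norm_sub_sum (u : ℂ) e
  have h2 : Complex.exp (u : ℂ) - ∑ n ∈ range e, (u : ℂ) ^ n / n.factorial =
      ((Real.exp u - ∑ n ∈ range e, u ^ n / n.factorial : ℝ) : ℂ) := by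
    push_cast
    rfl
  rw [h2, Complex.norm_real, Complex.norm_real, Real.norm_eq_abs, Real.norm_eq_abs] at h1
  exact h1.trans (exp_sub_sum_le (abs_nonneg u) e)

lemma pow_div_factorial_le_exp {v : ℝ} (hv : 0 ≤ v) (e : ℕ) :
    v ^ e / e.factorial ≤ Real.exp v := Real.pow_div_factorial_le_exp v hv e

/-- The trivial upper bound. -/
lemma abs_Nk_le_trivial {q : ℕ} (hq : q.Prime) {c L K G : ℕ}
    (hG : (L - 1) * c + (K - 1) * q ≤ G * q) {t : ℕ → ℕ → ℤ} {B : ℝ}
    (hB : ∀ i j, |(t i j : ℝ)| ≤ B) {b B0 X A : ℤ} {Hb Hx : ℝ} (hb : |(b : ℝ)| ≤ Hb)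
    (hB0 : |(B0 : ℝ)| ≤ Hb) (hX : |(X : ℝ)| ≤ Hx) (hA : |(A : ℝ)| ≤ Hx) (k : ℕ) :
    |(Nk q c L K t b B0 X A k : ℝ)| ≤
      (L * K : ℕ) * B * ((q : ℝ) ^ (2 * k) * 2 ^ G) * (Hb ^ (L - 1) * Hx ^ (K - 1)) := by
  have hHb : 0 ≤ Hb := (abs_nonneg _).trans hb
  have hHx : 0 ≤ Hx := (abs_nonneg _).trans hX
  have hB' : 0 ≤ B := (abs_nonneg _).trans (hB 0 0)
  rw [Nk, ← Finset.sum_product']
  push_cast
  refine (abs_sum_le_sum_abs _ _).trans ?_
  have hterm : ∀ x ∈ range L ×ˢ range K, |(t x.1 x.2 : ℝ) * beta q (x.1 * c + x.2 * q) k *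
      ((b : ℝ) ^ x.1 * B0 ^ (L - 1 - x.1) * (X ^ x.2 * A ^ (K - 1 - x.2)))| ≤
      B * ((q : ℝ) ^ (2 * k) * 2 ^ G) * (Hb ^ (L - 1) * Hx ^ (K - 1)) := by
    intro x hx
    have h1 := (mem_product.mp hx).1
    have h2 := (mem_product.mp hx).2
    rw [mem_range] at h1 h2
    rw [abs_mul, abs_mul, abs_mul, abs_mul, abs_mul, abs_pow, abs_pow, abs_pow, abs_pow]
    have h3 : Hb ^ (L - 1) = Hb ^ x.1 * Hb ^ (L - 1 - x.1) := by
      rw [← pow_add]
      congr 1
      omega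
    have h4 : Hx ^ (K - 1) = Hx ^ x.2 * Hx ^ (K - 1 - x.2) := by
      rw [← pow_add]
      congr 1
      omega
    rw [h3, h4]
    have h5 : |((beta q (x.1 * c + x.2 * q) k : ℤ) : ℝ)| ≤ (q : ℝ) ^ (2 * k) * 2 ^ G := by
      have h6 : ((x.1 : ℤ) * c + (x.2 : ℕ) * q) ≤ G * q := by
        have h7 : x.1 * c + x.2 * q ≤ G * q :=
          (add_le_add (Nat.mul_le_mul_right _ (by omega)) (Nat.mul_le_mul_right _ (by omega))).trans hG
        exact_mod_cast h7
      have h8 := abs_beta_le hq (by positivity) h6 k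
      exact_mod_cast h8
    have h9 := hB x.1 x.2
    gcongr
  refine (sum_le_sum hterm).trans ?_
  rw [sum_const, card_product, card_range, card_range, nsmul_eq_mul]
  refine le_of_eq ?_
  push_cast
  ring

lemma abs_log_le {σ δ : ℝ} (h1 : |σ - 1| ≤ δ) (h2 : δ ≤ 1 / 8) :
    |Real.log σ| ≤ 8 / 7 * δ := by
  have h3 := abs_le.mp h1
  have hσ : 0 < σ := by linarith
  have h4 := Real.log_le_sub_one_of_pos hσ
  have h5 := Real.one_sub_inv_le_log_of_pos hσ
  rw [abs_le]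
  constructor
  · refine le_trans ?_ h5
    rw [neg_le_sub_iff_le_add, inv_eq_one_div, div_le_iff₀ hσ]
    nlinarith
  · linarith

lemma abs_log_one_add_le {ε : ℝ} (h : |ε| ≤ 1 / 2) : |Real.log (1 + ε)| ≤ 2 * |ε| := by
  have h3 := abs_le.mp h
  have hσ : 0 < 1 + ε := by linarith
  have h4 := Real.log_le_sub_one_of_pos hσ
  have h5 := Real.one_sub_inv_le_log_of_pos hσ
  rw [abs_le]
  rcases le_total 0 ε with h6 | h6
  · rw [abs_of_nonneg h6]
    constructor
    · refine le_trans ?_ h5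
      have : (1 + ε)⁻¹ ≤ 1 := inv_le_one_of_one_le₀ (by linarith)
      linarith
    · linarith
  · rw [abs_of_nonpos h6]
    constructor
    · refine le_trans ?_ h5
      rw [neg_le_sub_iff_le_add, inv_eq_one_div, div_le_iff₀ hσ]
      nlinarith
    · linarith

/-- The upper bound when `X / A` is close to `1`. -/
lemma abs_Nk_le_close {q : ℕ} (hq : q.Prime) (hq2 : q ≠ 2) {c L K M G : ℕ} (hM : 1 ≤ M)
    (hLq : L ≤ q)
    (hG : (L - 1) * c + (K - 1) * q ≤ G * q) {t : ℕ → ℕ → ℤ} (ht : Van q c L K M t) {B : ℝ}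
    (hB : ∀ i j, |(t i j : ℝ)| ≤ B) {b B0 X A : ℤ} (hB0 : B0 ≠ 0) (hA : A ≠ 0) {δ : ℝ}
    (hδ : δ = |(X : ℝ) / A - 1|) (hδ1 : δ ≤ 1 / 8)
    (harch : |((b : ℝ) / B0) ^ q / ((X : ℝ) / A) ^ c - 1| ≤ (4 * δ) ^ M) (k : ℕ) :
    |(Nk q c L K t b B0 X A k : ℝ)| ≤
      (L * K : ℕ) * B * ((q : ℝ) ^ (2 * k) * 2 ^ G) * (|(B0 : ℝ)| ^ (L - 1) * |(A : ℝ)| ^ (K - 1)) *
        (5 * Real.exp (2 * G)) * (4 * δ) ^ (M - k) := by
  have hδ0 : 0 ≤ δ := by rw [hδ]; exact abs_nonneg _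
  have hB' : 0 ≤ B := (abs_nonneg _).trans (hB 0 0)
  have hq0 : (0 : ℝ) < q := by exact_mod_cast hq.pos
  have hB0' : (B0 : ℝ) ≠ 0 := by exact_mod_cast hB0
  have hA' : (A : ℝ) ≠ 0 := by exact_mod_cast hA
  obtain ⟨σ, hσ⟩ : ∃ σ : ℝ, σ = X / A := ⟨_, rfl⟩
  obtain ⟨α, hα⟩ : ∃ α : ℝ, α = b / B0 := ⟨_, rfl⟩
  rw [← hσ] at hδ harch
  rw [← hα] at harch
  have hσ1 := abs_le.mp hδ.ge
  have hσ0 : 0 < σ := by linarith
  obtain ⟨ε, hε⟩ : ∃ ε : ℝ, ε = α ^ q / σ ^ c - 1 := ⟨_, rfl⟩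
  rw [← hε] at harch
  have h4δ : 4 * δ ≤ 1 / 2 := by linarith
  have hε1 : |ε| ≤ 1 / 2 := by
    refine harch.trans ?_
    refine (pow_le_of_le_one (by positivity) (by linarith) (by omega)).trans h4δ
  have hε2 := abs_le.mp hε1
  have hαq : α ^ q = σ ^ c * (1 + ε) := by
    rw [hε]
    have : σ ^ c ≠ 0 := by positivity
    field_simp
    ring
  have hα0 : 0 < α := by
    have h1 : 0 < α ^ q := by
      rw [hαq]
      have : 0 < 1 + ε := by linarith
      positivity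
    have hodd : Odd q := hq.odd_of_ne_two hq2
    exact (hodd.pow_pos_iff).mp h1
  obtain ⟨s, hs⟩ : ∃ s : ℝ, s = Real.log σ := ⟨_, rfl⟩
  have hs1 : |s| ≤ 8 / 7 * δ := by
    rw [hs]
    exact abs_log_le hδ.ge hδ1
  obtain ⟨θ, hθ⟩ : ∃ θ : ℝ, θ = Real.log (1 + ε) / q := ⟨_, rfl⟩
  have hσs : σ = Real.exp s := by rw [hs, Real.exp_log hσ0]
  have hlogα : Real.log α = c / q * s + θ := by
    have h1 : (q : ℝ) * Real.log α = c * s + Real.log (1 + ε) := by
      rw [← Real.log_pow, hαq, Real.log_mul (by positivity) (by linarith), Real.log_pow, hs]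
    rw [hθ]
    field_simp
    linarith
  have hαs : α = Real.exp (c / q * s + θ) := by rw [← hlogα, Real.exp_log hα0]
  have hθ1 : ∀ i < L, |(i : ℝ) * θ| ≤ 2 * |ε| := by
    intro i hi
    rw [hθ, ← mul_div_assoc, mul_div_right_comm, abs_mul]
    have h1 := abs_log_one_add_le hε1
    have h2 : |(i : ℝ) / q| ≤ 1 := by
      rw [abs_of_nonneg (by positivity), div_le_one hq0]
      exact_mod_cast (hi.le.trans hLq)
    nlinarith [abs_nonneg (Real.log (1 + ε)), abs_nonneg ((i : ℝ) / q)]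
  -- the form divided by the leading monomials
  have hform : (Nk q c L K t b B0 X A k : ℝ) = (B0 : ℝ) ^ (L - 1) * (A : ℝ) ^ (K - 1) *
      ∑ x ∈ range L ×ˢ range K, (t x.1 x.2 * beta q (x.1 * c + x.2 * q) k) *
        (α ^ x.1 * σ ^ x.2) := by
    rw [Nk, ← Finset.sum_product']
    push_cast
    rw [mul_sum]
    refine sum_congr rfl ?_
    intro x hx
    have h1 := (mem_product.mp hx).1
    have h2 := (mem_product.mp hx).2
    rw [mem_range] at h1 h2
    rw [hα, hσ, div_pow, div_pow]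
    have h3 : (B0 : ℝ) ^ (L - 1) = B0 ^ x.1 * B0 ^ (L - 1 - x.1) := by
      rw [← pow_add]
      congr 1
      omega
    have h4 : (A : ℝ) ^ (K - 1) = A ^ x.2 * A ^ (K - 1 - x.2) := by
      rw [← pow_add]
      congr 1
      omega
    rw [h3, h4]
    field_simp
  have hmono : ∀ x : ℕ × ℕ, α ^ x.1 * σ ^ x.2 =
      Real.exp ((x.1 * c / q + x.2) * s) * Real.exp (x.1 * θ) := by
    intro x
    rw [hαs, ← Real.exp_nat_mul, hσs, ← Real.exp_nat_mul, ← Real.exp_add, ← Real.exp_add]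
    congr 1
    ring
  -- the vanishing of the Taylor polynomial
  have hvan : ∑ x ∈ range L ×ˢ range K, (t x.1 x.2 * beta q (x.1 * c + x.2 * q) k : ℝ) *
      (∑ n ∈ range (M - k), ((x.1 * c / q + x.2) * s) ^ n / n.factorial) = 0 := by
    simp only [mul_sum]
    rw [Finset.sum_comm]
    refine sum_eq_zero ?_
    intro n hn
    have hn' := mem_range.mp hn
    have h1 := moments2 (ht.rat hq) k n 0 (by omega)
    have h2 : ((∑ x ∈ range L ×ˢ range K, (t x.1 x.2 : ℚ) * ((x.1 : ℚ) * c / q + x.2) ^ n *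
        bq ((x.1 : ℚ) * c / q + x.2) k * bq ((x.1 : ℚ) * c / q + x.2) 0 : ℚ) : ℝ) = 0 := by
      rw [h1]
      simp
    push_cast at h2
    have h3 : (s ^ n / n.factorial * (q : ℝ) ^ (2 * k)) *
        ∑ x ∈ range L ×ˢ range K, (t x.1 x.2 : ℝ) * ((x.1 : ℝ) * c / q + x.2) ^ n *
        (bq ((x.1 : ℚ) * c / q + x.2) k : ℚ) * (bq ((x.1 : ℚ) * c / q + x.2) 0 : ℚ) = 0 := by
      rw [h2, mul_zero]
    rw [← h3, mul_sum]
    refine sum_congr rfl ?_
    intro x _
    have h4 : ((beta q (x.1 * c + x.2 * q) k : ℤ) : ℝ) =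
        (q : ℝ) ^ (2 * k) * ((bq ((x.1 : ℚ) * c / q + x.2) k : ℚ) : ℝ) := by
      have h5 := beta_cast hq (x.1 * c + x.2 * q) k
      push_cast at h5
      have hqQ : (q : ℚ) ≠ 0 := by exact_mod_cast hq.ne_zero
      rw [add_div, mul_div_cancel_right₀ _ hqQ] at h5
      exact_mod_cast h5
    rw [h4, bq_zero_right, mul_pow]
    push_cast
    ring
  -- the individual terms
  obtain ⟨P, hP⟩ : ∃ P : ℝ, P = B * ((q : ℝ) ^ (2 * k) * 2 ^ G) := ⟨_, rfl⟩
  have hP0 : 0 ≤ P := by rw [hP]; positivity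
  have hcoef : ∀ x ∈ range L ×ˢ range K,
      |(t x.1 x.2 * beta q (x.1 * c + x.2 * q) k : ℝ)| ≤ P := by
    intro x hx
    have h1 := (mem_product.mp hx).1
    have h2 := (mem_product.mp hx).2
    rw [mem_range] at h1 h2
    rw [abs_mul, hP]
    have h5 : |((beta q (x.1 * c + x.2 * q) k : ℤ) : ℝ)| ≤ (q : ℝ) ^ (2 * k) * 2 ^ G := by
      have h6 : ((x.1 : ℤ) * c + (x.2 : ℕ) * q) ≤ G * q := by
        have h7 : x.1 * c + x.2 * q ≤ G * q :=
          (add_le_add (Nat.mul_le_mul_right _ (by omega)) (Nat.mul_le_mul_right _ (by omega))).trans hG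
        exact_mod_cast h7
      have h8 := abs_beta_le hq (by positivity) h6 k
      exact_mod_cast h8
    have h9 := hB x.1 x.2
    gcongr
  have hlam : ∀ x ∈ range L ×ˢ range K, ((x.1 : ℝ) * c / q + x.2) ≤ G := by
    intro x hx
    have h1 := (mem_product.mp hx).1
    have h2 := (mem_product.mp hx).2
    rw [mem_range] at h1 h2
    have h7 : x.1 * c + x.2 * q ≤ G * q :=
      (add_le_add (Nat.mul_le_mul_right _ (by omega)) (Nat.mul_le_mul_right _ (by omega))).trans hG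
    have h8 : ((x.1 : ℝ) * c + x.2 * q) ≤ G * q := by exact_mod_cast h7
    have h9 : ((x.1 : ℝ) * c / q + x.2) = (x.1 * c + x.2 * q) / q := by
      field_simp
    rw [h9, div_le_iff₀ hq0]
    exact h8
  have hsum : ∑ x ∈ range L ×ˢ range K, (t x.1 x.2 * beta q (x.1 * c + x.2 * q) k : ℝ) *
        (α ^ x.1 * σ ^ x.2) = ∑ x ∈ range L ×ˢ range K,
        (t x.1 x.2 * beta q (x.1 * c + x.2 * q) k : ℝ) *
        ((Real.exp ((x.1 * c / q + x.2) * s) - ∑ n ∈ range (M - k),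
          ((x.1 * c / q + x.2) * s) ^ n / n.factorial) +
          Real.exp ((x.1 * c / q + x.2) * s) * (Real.exp (x.1 * θ) - 1)) := by
    rw [← sub_zero (∑ x ∈ range L ×ˢ range K, (t x.1 x.2 * beta q (x.1 * c + x.2 * q) k : ℝ) *
        (α ^ x.1 * σ ^ x.2)), ← hvan, ← sum_sub_distrib]
    refine sum_congr rfl ?_
    intro x _
    rw [hmono x]
    ring
  have hterm : ∀ x ∈ range L ×ˢ range K,
      |(t x.1 x.2 * beta q (x.1 * c + x.2 * q) k : ℝ) *
        ((Real.exp ((x.1 * c / q + x.2) * s) - ∑ n ∈ range (M - k),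
          ((x.1 * c / q + x.2) * s) ^ n / n.factorial) +
          Real.exp ((x.1 * c / q + x.2) * s) * (Real.exp (x.1 * θ) - 1))| ≤
        P * (5 * Real.exp (2 * G) * (4 * δ) ^ (M - k)) := by
    intro x hx
    obtain ⟨l, hl⟩ : ∃ l : ℝ, l = (x.1 : ℝ) * c / q + x.2 := ⟨_, rfl⟩
    have hl0 : 0 ≤ l := by rw [hl]; positivity
    have hlG : l ≤ G := by rw [hl]; exact hlam x hx
    have hc1 := hcoef x hx
    rw [← hl]
    rw [abs_mul]
    refine mul_le_mul hc1 ?_ (abs_nonneg _) hP0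
    have hs2 : |s| ≤ 1 := by linarith
    have hls : |l * s| ≤ l := by
      rw [abs_mul, abs_of_nonneg hl0]
      nlinarith
    have h1 : |Real.exp (l * s) - ∑ n ∈ range (M - k), (l * s) ^ n / n.factorial| ≤
        Real.exp (2 * G) * (4 * δ) ^ (M - k) := by
      refine (abs_exp_sub_sum_le _ _).trans ?_
      have h2 : |l * s| ^ (M - k) / (M - k).factorial ≤
          (4 * δ) ^ (M - k) * Real.exp l := by
        rw [abs_mul, abs_of_nonneg hl0, mul_pow]
        have h3 := pow_div_factorial_le_exp hl0 (M - k)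
        have h4 : |s| ^ (M - k) ≤ (4 * δ) ^ (M - k) :=
          pow_le_pow_left₀ (abs_nonneg _) (by linarith) _
        calc l ^ (M - k) * |s| ^ (M - k) / (M - k).factorial
            = |s| ^ (M - k) * (l ^ (M - k) / (M - k).factorial) := by ring
          _ ≤ (4 * δ) ^ (M - k) * Real.exp l := by gcongr
      have h5 : Real.exp |l * s| ≤ Real.exp G := Real.exp_le_exp.mpr (hls.trans hlG)
      have h6 : Real.exp l ≤ Real.exp G := Real.exp_le_exp.mpr hlG
      have h20 := h2.trans (mul_le_mul_of_nonneg_left h6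
        (by positivity : (0 : ℝ) ≤ (4 * δ) ^ (M - k)))
      calc |l * s| ^ (M - k) / (M - k).factorial * Real.exp |l * s|
          ≤ ((4 * δ) ^ (M - k) * Real.exp G) * Real.exp G :=
            mul_le_mul h20 h5 (Real.exp_pos _).le (by positivity)
        _ = Real.exp (2 * G) * (4 * δ) ^ (M - k) := by
            rw [two_mul, Real.exp_add]
            ring
    have h7 : |Real.exp (l * s) * (Real.exp (x.1 * θ) - 1)| ≤
        4 * Real.exp (2 * G) * (4 * δ) ^ (M - k) := by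
      rw [abs_mul, Real.abs_exp]
      have h8 : Real.exp (l * s) ≤ Real.exp (2 * G) := by
        apply Real.exp_le_exp.mpr
        have := (le_abs_self _).trans (hls.trans hlG)
        have h9 : (0 : ℝ) ≤ G := Nat.cast_nonneg _
        linarith
      have h10 : |(x.1 : ℝ) * θ| ≤ 2 * |ε| := by
        apply hθ1
        have h1 := (mem_product.mp hx).1
        exact mem_range.mp h1
      have h11 : |Real.exp (x.1 * θ) - 1| ≤ 4 * (4 * δ) ^ (M - k) := by
        have h12 : |Real.exp (x.1 * θ) - 1| ≤ 2 * |(x.1 : ℝ) * θ| :=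
          Real.abs_exp_sub_one_le (h10.trans (by linarith))
        have h13 : (4 * δ) ^ M ≤ (4 * δ) ^ (M - k) :=
          pow_le_pow_of_le_one (by positivity) (by linarith) (by omega)
        linarith
      calc Real.exp (l * s) * |Real.exp (x.1 * θ) - 1|
          ≤ Real.exp (2 * G) * (4 * (4 * δ) ^ (M - k)) := by gcongr
        _ = 4 * Real.exp (2 * G) * (4 * δ) ^ (M - k) := by ring
    refine (abs_add_le _ _).trans ((add_le_add h1 h7).trans (le_of_eq ?_))
    ring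
  have h1 := (abs_sum_le_sum_abs _ _).trans (sum_le_sum hterm)
  rw [sum_const, card_product, card_range, card_range, nsmul_eq_mul, ← hsum] at h1
  rw [hform]
  clear hform hsum hterm hvan hcoef hlam hmono
  generalize (∑ x ∈ range L ×ˢ range K, (t x.1 x.2 * beta q (x.1 * c + x.2 * q) k : ℝ) *
        (α ^ x.1 * σ ^ x.2)) = S at h1 ⊢
  have h2 : |(B0 : ℝ) ^ (L - 1) * (A : ℝ) ^ (K - 1) * S| =
      |(B0 : ℝ)| ^ (L - 1) * |(A : ℝ)| ^ (K - 1) * |S| := by
    rw [abs_mul, abs_mul, abs_pow, abs_pow]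
  rw [h2]
  refine (mul_le_mul_of_nonneg_left h1 (by positivity)).trans (le_of_eq ?_)
  rw [hP]
  ring

end Pool.Agent.K9h9
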