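import Mathlib
import Pool.Agent.K9h9.Arch

/-!
# The main inequality
-/

set_option autoImplicit false

namespace Pool.Agent.K9h9

open Finset

/-- The constant of the main inequality. -/
noncomputable def CC (q L K M G : ℕ) : ℝ :=
  (L * K : ℕ) * ((L * K : ℕ) * ((q : ℝ) ^ (2 * M) * 2 ^ G)) ^ ((M : ℝ) / ((L * K : ℕ) - M)) *
    ((q : ℝ) ^ (2 * (L * K + L - M - 2)) * 2 ^ G) * (5 * Real.exp (2 * G))

theorem main_ineq {q : ℕ} (hq : q.Prime) (hq2 : q ≠ 2) {c L K M G : ℕ} (hc : ¬ q ∣ c)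
    (hL : 1 ≤ L) (hLq : L ≤ q) (hK : 1 ≤ K) (hLM : L ≤ M) (hM : M < L * K)
    (hG : (L - 1) * c + (K - 1) * q ≤ G * q)
    {b B0 X A : ℤ} (hb : b ≠ 0) (hB0 : B0 ≠ 0) (hX : X ≠ 0) (hA : A ≠ 0) (hXA : X ≠ A)
    {D : ℕ} (hD : IsCoprime (D : ℤ) (q * A * B0)) (hDXA : (D : ℤ) ∣ X - A)
    (hpow : (D : ℤ) ^ M ∣ b ^ q * A ^ c - X ^ c * B0 ^ q) (hφ : ¬ q ∣ D.totient)
    (harch : |(X : ℝ) / A - 1| ≤ 1 / 8 →
      |((b : ℝ) / B0) ^ q / ((X : ℝ) / A) ^ c - 1| ≤ (4 * |(X : ℝ) / A - 1|) ^ M)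
    {Hb Hx : ℝ} (hHb : |(b : ℝ)| ≤ Hb) (hHB0 : |(B0 : ℝ)| ≤ Hb) (hHX : |(X : ℝ)| ≤ Hx)
    (hHA : |(A : ℝ)| ≤ Hx) :
    ∃ e : ℕ, e ≤ M ∧ M ≤ e + (L * K + L - M - 2) ∧
      (D : ℝ) ^ e ≤ CC q L K M G * (Hb ^ (L - 1) * Hx ^ (K - 1)) ∧
      (D : ℝ) ^ e ≤ CC q L K M G * (Hb ^ (L - 1) * Hx ^ (K - 1)) *
        (8 * |(X : ℝ) / A - 1|) ^ e := by
  obtain ⟨t, ht0, ht, hB⟩ := exists_coeffs hq (c := c) (L := L) (K := K) (M := M) (G := G)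
    (by omega) hM hG
  obtain ⟨k, hk, hNk⟩ := exists_Nk_ne_zero hq hc hLq hK hLM hM ht0 ht hb hB0 hX hA hXA
  have hdvd := dvd_Nk hq ht hD hDXA hpow hφ k
  have hle : (D : ℝ) ^ (M - k) ≤ |(Nk q c L K t b B0 X A k : ℝ)| := by
    have h1 : (D : ℤ) ^ (M - k) ≤ |Nk q c L K t b B0 X A k| :=
      Int.le_of_dvd (abs_pos.mpr hNk) ((dvd_abs _ _).mpr hdvd)
    exact_mod_cast h1
  obtain ⟨B, hBdef⟩ : ∃ B : ℝ, B = ((L * K : ℕ) * ((q : ℝ) ^ (2 * M) * 2 ^ G)) ^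
    ((M : ℝ) / ((L * K : ℕ) - M)) := ⟨_, rfl⟩
  rw [← hBdef] at hB
  have hB' : 0 ≤ B := (abs_nonneg _).trans (hB 0 0)
  obtain ⟨δ, hδ⟩ : ∃ δ : ℝ, δ = |(X : ℝ) / A - 1| := ⟨_, rfl⟩
  have hδ0 : 0 ≤ δ := by rw [hδ]; exact abs_nonneg _
  have hq1 : (1 : ℝ) ≤ q := by exact_mod_cast hq.one_lt.le
  have hHb0 : 0 ≤ Hb := (abs_nonneg _).trans hHb
  have hHx0 : 0 ≤ Hx := (abs_nonneg _).trans hHX
  obtain ⟨E, hE⟩ : ∃ E : ℝ, E = 5 * Real.exp (2 * G) := ⟨_, rfl⟩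
  have hE1 : 1 ≤ E := by
    rw [hE]
    have : 1 ≤ Real.exp (2 * G) := Real.one_le_exp (by positivity)
    linarith
  have hCC : CC q L K M G = (L * K : ℕ) * B *
    ((q : ℝ) ^ (2 * (L * K + L - M - 2)) * 2 ^ G) * E := by
    rw [CC, hBdef, hE]
  obtain ⟨H, hH⟩ : ∃ H : ℝ, H = Hb ^ (L - 1) * Hx ^ (K - 1) := ⟨_, rfl⟩
  have hH0 : 0 ≤ H := by rw [hH]; positivity
  have hqk : (q : ℝ) ^ (2 * k) ≤ (q : ℝ) ^ (2 * (L * K + L - M - 2)) :=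
    pow_le_pow_right₀ hq1 (by omega)
  refine ⟨M - k, by omega, by omega, ?_⟩
  rw [← hδ, ← hH, hCC]
  rcases le_total δ (1 / 8) with h | h
  · have h1 := abs_Nk_le_close hq hq2 (by omega) hLq hG ht hB hB0 hA (b := b) (X := X) (δ := δ)
      hδ h (by rw [hδ]; exact harch (by rw [← hδ]; exact h)) k
    rw [← hE] at h1
    have h2 : |(B0 : ℝ)| ^ (L - 1) * |(A : ℝ)| ^ (K - 1) ≤ H := by
      rw [hH]
      gcongr
    have h3 : |(Nk q c L K t b B0 X A k : ℝ)| ≤ (L * K : ℕ) * B *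
        ((q : ℝ) ^ (2 * (L * K + L - M - 2)) * 2 ^ G) * E * H * (4 * δ) ^ (M - k) := by
      refine h1.trans ?_
      calc (L * K : ℕ) * B * ((q : ℝ) ^ (2 * k) * 2 ^ G) *
            (|(B0 : ℝ)| ^ (L - 1) * |(A : ℝ)| ^ (K - 1)) * E * (4 * δ) ^ (M - k)
          ≤ (L * K : ℕ) * B * ((q : ℝ) ^ (2 * (L * K + L - M - 2)) * 2 ^ G) *
            H * E * (4 * δ) ^ (M - k) := by gcongr
        _ = _ := by ring
    constructor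
    · refine (hle.trans h3).trans ?_
      have h4 : (4 * δ) ^ (M - k) ≤ 1 := pow_le_one₀ (by positivity) (by linarith)
      exact mul_le_of_le_one_right (by positivity) h4
    · refine (hle.trans h3).trans ?_
      have h4 : (4 * δ) ^ (M - k) ≤ (8 * δ) ^ (M - k) :=
        pow_le_pow_left₀ (by positivity) (by linarith) _
      gcongr
  · have h1 := abs_Nk_le_trivial hq hG hB hHb hHB0 hHX hHA k
    rw [← hH] at h1
    have h2 : |(Nk q c L K t b B0 X A k : ℝ)| ≤ (L * K : ℕ) * B *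
        ((q : ℝ) ^ (2 * (L * K + L - M - 2)) * 2 ^ G) * E * H := by
      refine h1.trans ?_
      calc (L * K : ℕ) * B * ((q : ℝ) ^ (2 * k) * 2 ^ G) * H
          ≤ (L * K : ℕ) * B * ((q : ℝ) ^ (2 * (L * K + L - M - 2)) * 2 ^ G) * H := by gcongr
        _ = (L * K : ℕ) * B * ((q : ℝ) ^ (2 * (L * K + L - M - 2)) * 2 ^ G) * 1 * H := by ring
        _ ≤ _ := by gcongr
    have h3 : 1 ≤ (8 * δ) ^ (M - k) := one_le_pow₀ (by linarith)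
    refine ⟨hle.trans h2, (hle.trans h2).trans ?_⟩
    exact le_mul_of_one_le_right (by positivity) h3

end Pool.Agent.K9h9
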