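import Mathlib
import Pool.Agent.K9h9.MainIneq
import Pool.Agent.K9h9.Basic

/-!
# The main inequality for a solution of `x ^ p + y ^ p = z ^ q`
-/

set_option autoImplicit false

namespace Pool.Agent.K9h9

open Finset

lemma Sol.cop_a {x y z a : ℤ} {p q : ℕ} (h : Sol x y z p q) (ha : x + y = a ^ q) :
    IsCoprime a x ∧ IsCoprime a y := by
  have h1 : IsCoprime (x + y) x := by
    have := IsCoprime.add_mul_left_left h.cop.symm 1
    rwa [mul_one, add_comm] at this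
  have h2 : IsCoprime (x + y) y := by
    have := IsCoprime.add_mul_left_left h.cop 1
    rwa [mul_one] at this
  rw [ha] at h1 h2
  exact ⟨(IsCoprime.pow_left_iff h.qp.pos).mp h1, (IsCoprime.pow_left_iff h.qp.pos).mp h2⟩

lemma Sol.m_pos {x y z : ℤ} {p q : ℕ} (h : Sol x y z p q) {m : ℝ}
    (hm : m = max |(x : ℝ)| |(y : ℝ)|) : 1 ≤ m := by
  rw [hm]
  refine le_max_of_le_left ?_
  have := Int.one_le_abs h.x0
  exact_mod_cast this

/-- upper bound for `b ^ q` -/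
lemma phi_le {x y b : ℤ} {p q : ℕ} (hp : 1 ≤ p)
    (hb : b ^ q = ∑ i ∈ range p, x ^ i * (-y) ^ (p - 1 - i)) {m : ℝ}
    (hm : m = max |(x : ℝ)| |(y : ℝ)|) : |(b : ℝ) ^ q| ≤ p * m ^ (p - 1) := by
  have h1 : (b : ℝ) ^ q = ∑ i ∈ range p, (x : ℝ) ^ i * (-(y : ℝ)) ^ (p - 1 - i) := by
    exact_mod_cast hb
  rw [h1]
  refine (abs_sum_le_sum_abs _ _).trans ?_
  have h2 : ∀ i ∈ range p, |(x : ℝ) ^ i * (-(y : ℝ)) ^ (p - 1 - i)| ≤ m ^ (p - 1) := by
    intro i hi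
    have hi' := mem_range.mp hi
    rw [abs_mul, abs_pow, abs_pow, abs_neg]
    have h3 : m ^ (p - 1) = m ^ i * m ^ (p - 1 - i) := by
      rw [← pow_add]
      congr 1
      omega
    rw [h3]
    have h4 : |(x : ℝ)| ≤ m := by rw [hm]; exact le_max_left _ _
    have h5 : |(y : ℝ)| ≤ m := by rw [hm]; exact le_max_right _ _
    have h6 : 0 ≤ m := (abs_nonneg _).trans h4
    gcongr
  refine (sum_le_sum h2).trans ?_
  rw [sum_const, card_range, nsmul_eq_mul]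

theorem app1 {x y z : ℤ} {p q : ℕ} (h : Sol x y z p q) {D : ℕ} (hDy : (D : ℤ) ∣ y)
    (hqD : ¬ q ∣ D * D.totient) {m : ℝ} (hm : m = max |(x : ℝ)| |(y : ℝ)|)
    {L K M : ℕ} (hL : 1 ≤ L) (hLq : L ≤ q) (hK : 1 ≤ K) (hLM : L ≤ M) (hMp : M ≤ p)
    (hM : M < L * K) :
    ∃ e : ℕ, e ≤ M ∧ M ≤ e + (L * K + L - M - 2) ∧
      (e : ℝ) * (Real.log m - Real.log 16 - Real.log (|(y : ℝ)| / D)) ≤
        Real.log (CC q L K M (L * p + K)) +
        (L - 1 : ℕ) / q * (p * Real.log 4 + (p - 1) * Real.log m) +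
        (K - 1 : ℕ) * (Real.log 2 + Real.log m) := by
  obtain ⟨a, b, ha0, hb0, ha, hz, hb⟩ := h.fact
  have hm1 := h.m_pos hm
  have hp3 := h.p3
  have hq3 := h.q3
  have hmx : |(x : ℝ)| ≤ m := by rw [hm]; exact le_max_left _ _
  have hmy : |(y : ℝ)| ≤ m := by rw [hm]; exact le_max_right _ _
  have hD0 : D ≠ 0 := by
    intro h1
    rw [h1, Nat.cast_zero, zero_dvd_iff] at hDy
    exact h.y0 hDy
  have hqD1 : ¬ q ∣ D := fun h1 => hqD (h1.mul_right _)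
  have hqD2 : ¬ q ∣ D.totient := fun h1 => hqD (h1.mul_left _)
  have hcopa := h.cop_a ha
  have hDa : IsCoprime (D : ℤ) a := (hcopa.2.of_isCoprime_of_dvd_right hDy).symm
  have hDq : IsCoprime (D : ℤ) (q : ℤ) := by
    rw [Nat.isCoprime_iff_coprime, Nat.coprime_comm]
    exact (Nat.Prime.coprime_iff_not_dvd h.qp).mpr hqD1
  have haq : (a : ℝ) ^ q = x + y := by exact_mod_cast ha.symm
  have ha0' : (a : ℝ) ≠ 0 := by exact_mod_cast ha0
  have hx0' : (x : ℝ) ≠ 0 := by exact_mod_cast h.x0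
  have hy0' : (y : ℝ) ≠ 0 := by exact_mod_cast h.y0
  have hqR : (0 : ℝ) < q := by exact_mod_cast h.qp.pos
  -- the bound `Hb`
  obtain ⟨Hb, hHb⟩ : ∃ Hb : ℝ, Hb = ((4 : ℝ) ^ p * m ^ (p - 1)) ^ ((1 : ℝ) / q) := ⟨_, rfl⟩
  have hHb0 : 0 < Hb := by rw [hHb]; positivity
  have hle_Hb : ∀ u : ℝ, |u| ^ q ≤ (4 : ℝ) ^ p * m ^ (p - 1) → |u| ≤ Hb := by
    intro u hu
    rw [hHb]
    have h1 : |u| = (|u| ^ q) ^ ((1 : ℝ) / q) := by
      rw [← Real.rpow_natCast, ← Real.rpow_mul (abs_nonneg _)]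
      rw [mul_one_div_cancel hqR.ne', Real.rpow_one]
    rw [h1]
    exact Real.rpow_le_rpow (by positivity) hu (by positivity)
  have hbHb : |(b : ℝ)| ≤ Hb := by
    apply hle_Hb
    rw [← abs_pow]
    refine (phi_le (by omega) hb hm).trans ?_
    have h1 : (p : ℝ) ≤ 4 ^ p := by
      have h2 : p < 4 ^ p := Nat.lt_pow_self (by norm_num)
      exact_mod_cast h2.le
    gcongr
  have haH : |((a ^ (p - 1) : ℤ) : ℝ)| ≤ Hb := by
    apply hle_Hb
    push_cast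
    rw [← abs_pow, ← pow_mul, mul_comm, pow_mul, haq, abs_pow]
    have h1 : |(x : ℝ) + y| ≤ 2 * m := (abs_add_le _ _).trans (by linarith)
    calc |(x : ℝ) + y| ^ (p - 1) ≤ (2 * m) ^ (p - 1) := pow_le_pow_left₀ (abs_nonneg _) h1 _
      _ = 2 ^ (p - 1) * m ^ (p - 1) := mul_pow _ _ _
      _ ≤ 4 ^ p * m ^ (p - 1) := by
        have h2 : (2 : ℝ) ^ (p - 1) ≤ 4 ^ p := by
          calc (2 : ℝ) ^ (p - 1) ≤ 4 ^ (p - 1) := pow_le_pow_left₀ (by norm_num) (by norm_num) _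
            _ ≤ 4 ^ p := pow_le_pow_right₀ (by norm_num) (by omega)
        gcongr
  have hxH : |(x : ℝ)| ≤ 2 * m := by linarith
  have haqH : |((a ^ q : ℤ) : ℝ)| ≤ 2 * m := by
    push_cast
    rw [haq]
    exact (abs_add_le _ _).trans (by linarith)
  have hG : (L - 1) * p + (K - 1) * q ≤ (L * p + K) * q := by
    have h1 : (L - 1) * p ≤ L * p * q :=
      (Nat.mul_le_mul_right _ (by omega)).trans (Nat.le_mul_of_pos_right _ h.qp.pos)
    have h2 : (K - 1) * q ≤ K * q := Nat.mul_le_mul_right _ (by omega)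
    calc (L - 1) * p + (K - 1) * q ≤ L * p * q + K * q := add_le_add h1 h2
      _ = (L * p + K) * q := by ring
  have hqp : ¬ q ∣ p := by
    intro h1
    exact h.ne ((Nat.prime_dvd_prime_iff_eq h.qp h.pp).mp h1).symm
  have hDtot : IsCoprime (D : ℤ) (q * (a ^ q) * a ^ (p - 1)) :=
    (hDq.mul_right hDa.pow_right).mul_right hDa.pow_right
  have hxa : x - a ^ q = -y := by rw [← ha]; ring
  have hpow : (D : ℤ) ^ M ∣ b ^ q * (a ^ q) ^ p - x ^ p * (a ^ (p - 1)) ^ q := by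
    have h1 : b ^ q * (a ^ q) ^ p - x ^ p * (a ^ (p - 1)) ^ q = (a ^ q) ^ (p - 1) * y ^ p := by
      obtain ⟨p', hp'⟩ : ∃ p', p = p' + 1 := ⟨p - 1, by omega⟩
      have h2 := h.eq_ab hz
      rw [hp'] at h2 ⊢
      simp only [Nat.add_sub_cancel]
      have h3 : (a ^ p') ^ q = (a ^ q) ^ p' := by rw [← pow_mul, ← pow_mul, mul_comm]
      rw [h3, pow_succ (a ^ q)]
      linear_combination (a ^ q) ^ p' * h2
    rw [h1]
    exact ((pow_dvd_pow_of_dvd hDy M).trans (pow_dvd_pow _ hMp)).mul_left _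
  have hδ : |(x : ℝ) / ((a ^ q : ℤ) : ℝ) - 1| = |(y : ℝ)| / |(a : ℝ) ^ q| := by
    push_cast
    have h1 : (x : ℝ) / (a : ℝ) ^ q - 1 = -y / (a : ℝ) ^ q := by
      rw [div_sub_one (pow_ne_zero _ ha0'), haq]
      congr 1
      ring
    rw [h1, abs_div, abs_neg]
  have haq0 : 0 < |(a : ℝ) ^ q| := abs_pos.mpr (pow_ne_zero _ ha0')
  have harch : |(x : ℝ) / ((a ^ q : ℤ) : ℝ) - 1| ≤ 1 / 8 →
      |((b : ℝ) / ((a ^ (p - 1) : ℤ) : ℝ)) ^ q / ((x : ℝ) / ((a ^ q : ℤ) : ℝ)) ^ p - 1| ≤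
        (4 * |(x : ℝ) / ((a ^ q : ℤ) : ℝ) - 1|) ^ M := by
    intro h1
    have h2 : ((b : ℝ) / ((a ^ (p - 1) : ℤ) : ℝ)) ^ q / ((x : ℝ) / ((a ^ q : ℤ) : ℝ)) ^ p - 1 =
        (y / x) ^ p := by
      have h3 : (a : ℝ) ^ q * (b : ℝ) ^ q = x ^ p + y ^ p := by exact_mod_cast h.eq_ab hz
      obtain ⟨p', hp'⟩ : ∃ p', p = p' + 1 := ⟨p - 1, by omega⟩
      rw [hp'] at h3 ⊢
      simp only [Nat.add_sub_cancel]
      push_cast
      rw [div_pow, div_pow, div_pow]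
      have h4 : ((a : ℝ) ^ p') ^ q = ((a : ℝ) ^ q) ^ p' := by rw [← pow_mul, ← pow_mul, mul_comm]
      rw [h4, pow_succ ((a : ℝ) ^ q)]
      have h5 : (b : ℝ) ^ q / ((a : ℝ) ^ q) ^ p' / ((x : ℝ) ^ (p' + 1) / (((a : ℝ) ^ q) ^ p' * (a : ℝ) ^ q)) =
          ((a : ℝ) ^ q * (b : ℝ) ^ q) / (x : ℝ) ^ (p' + 1) := by
        field_simp
      rw [h5, h3]
      field_simp
      ring
    rw [h2]
    rw [hδ] at h1 ⊢
    have hyx : |(y : ℝ) / x| ≤ 4 * (|(y : ℝ)| / |(a : ℝ) ^ q|) := by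
      rw [abs_div]
      have h6 : |(y : ℝ)| ≤ |(a : ℝ) ^ q| / 8 := by
        rw [div_le_iff₀ haq0] at h1
        linarith
      have h7 : |(a : ℝ) ^ q| ≤ |(x : ℝ)| + |(y : ℝ)| := by
        rw [haq]
        exact abs_add_le _ _
      have h8 : |(a : ℝ) ^ q| / 4 ≤ |(x : ℝ)| := by linarith
      have h9 : 0 < |(x : ℝ)| := abs_pos.mpr hx0'
      rw [div_le_iff₀ h9]
      have h10 : |(y : ℝ)| = 4 * (|(y : ℝ)| / |(a : ℝ) ^ q|) * (|(a : ℝ) ^ q| / 4) := by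
        field_simp
      calc |(y : ℝ)| = 4 * (|(y : ℝ)| / |(a : ℝ) ^ q|) * (|(a : ℝ) ^ q| / 4) := h10
        _ ≤ 4 * (|(y : ℝ)| / |(a : ℝ) ^ q|) * |(x : ℝ)| := by gcongr
    rw [abs_pow]
    calc |(y : ℝ) / x| ^ p ≤ (4 * (|(y : ℝ)| / |(a : ℝ) ^ q|)) ^ p :=
          pow_le_pow_left₀ (abs_nonneg _) hyx _
      _ ≤ (4 * (|(y : ℝ)| / |(a : ℝ) ^ q|)) ^ M :=
          pow_le_pow_of_le_one (by positivity) (by linarith) hMp
  obtain ⟨e, he1, he2, he3, he4⟩ := main_ineq h.qp h.q2 hqp hL hLq hK hLM hM hG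
    (b := b) (B0 := a ^ (p - 1)) (X := x) (A := a ^ q) (ne_of_gt hb0) (pow_ne_zero _ ha0) h.x0
    (pow_ne_zero _ ha0) (by intro h1; apply h.y0; rw [← ha] at h1; linarith)
    hDtot (by rw [hxa]; exact dvd_neg.mpr hDy) hpow hqD2 harch hbHb haH hxH haqH
  refine ⟨e, he1, he2, ?_⟩
  rw [hδ] at he4
  obtain ⟨T, hT⟩ : ∃ T : ℝ, T = CC q L K M (L * p + K) * (Hb ^ (L - 1) * (2 * m) ^ (K - 1)) :=
    ⟨_, rfl⟩
  rw [← hT] at he3 he4
  have hCCpos : 0 < CC q L K M (L * p + K) := by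
    have h1 : 0 < L * K := by positivity
    have h2 : (0 : ℝ) < (L * K : ℕ) := by exact_mod_cast h1
    have h3 : (0 : ℝ) < 5 * Real.exp (2 * (L * p + K : ℕ)) := by positivity
    rw [CC]
    positivity
  have hTpos : 0 < T := by rw [hT]; positivity
  have hlogT : Real.log T = Real.log (CC q L K M (L * p + K)) +
        (L - 1 : ℕ) / q * (p * Real.log 4 + (p - 1) * Real.log m) +
        (K - 1 : ℕ) * (Real.log 2 + Real.log m) := by
    rw [hT, Real.log_mul hCCpos.ne' (by positivity), Real.log_mul (by positivity) (by positivity),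
      Real.log_pow, Real.log_pow, hHb, Real.log_rpow (by positivity),
      Real.log_mul (by positivity) (by positivity), Real.log_pow, Real.log_pow,
      Real.log_mul (by norm_num) (by linarith)]
    have h1 : ((p - 1 : ℕ) : ℝ) = (p : ℝ) - 1 := by
      rw [Nat.cast_sub (by omega)]
      simp
    rw [h1]
    ring
  rw [← hlogT]
  have hDR : (0 : ℝ) < D := by exact_mod_cast Nat.pos_of_ne_zero hD0
  obtain ⟨E, hE⟩ : ∃ E : ℝ, E = |(y : ℝ)| / D := ⟨_, rfl⟩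
  have hypos : 0 < |(y : ℝ)| := abs_pos.mpr hy0'
  have hEpos : 0 < E := by rw [hE]; positivity
  have hyE : |(y : ℝ)| = D * E := by rw [hE]; field_simp
  rw [← hE]
  have hmpos : 0 < m := by linarith
  have hkey : (m / (16 * E)) ^ e ≤ T := by
    have h1 : m ≤ |(y : ℝ)| + |(a : ℝ) ^ q| := by
      rw [hm]
      refine max_le ?_ (by linarith)
      have h2 : (x : ℝ) = (a : ℝ) ^ q - y := by rw [haq]; ring
      rw [h2]
      refine (abs_sub _ _).trans ?_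
      linarith
    rcases le_total |(a : ℝ) ^ q| |(y : ℝ)| with h2 | h2
    · have h3 : m / (16 * E) ≤ D := by
        rw [div_le_iff₀ (by positivity)]
        rw [hyE] at h1 h2
        nlinarith
      exact (pow_le_pow_left₀ (by positivity) h3 _).trans he3
    · have h3 : m / (16 * E) ≤ |(a : ℝ) ^ q| / (8 * E) := by
        rw [div_le_div_iff₀ (by positivity) (by positivity)]
        nlinarith
      refine (pow_le_pow_left₀ (by positivity) h3 _).trans ?_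
      have h4 : (|(a : ℝ) ^ q| / (8 * E)) ^ e * (8 * (|(y : ℝ)| / |(a : ℝ) ^ q|)) ^ e = (D : ℝ) ^ e := by
        rw [← mul_pow, hyE]
        congr 1
        field_simp
      have h5 : 0 < (8 * (|(y : ℝ)| / |(a : ℝ) ^ q|)) ^ e := by positivity
      rw [← h4] at he4
      exact le_of_mul_le_mul_right he4 h5
  have h6 := Real.log_le_log (by positivity) hkey
  rw [Real.log_pow, Real.log_div hmpos.ne' (by positivity),
    Real.log_mul (by norm_num) hEpos.ne'] at h6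
  linarith

end Pool.Agent.K9h9
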