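import Mathlib
import Pool.Agent.K9h9.App1

/-!
# The choice of the parameters
-/

set_option autoImplicit false

namespace Pool.Agent.K9h9

lemma log_CC_le' {q L K M G p : ℕ} {ρ : ℝ} (hq3 : 3 ≤ q) (hL : 1 ≤ L) (hK : 1 ≤ K) (hKp : K ≤ p)
    (hMp : M ≤ p) (hp : 2 ≤ p) (hM : M < L * K) (hG : G ≤ (L + 1) * p)
    (hρ : (M : ℝ) ≤ ρ * ((L * K : ℕ) - M)) (hρ0 : 0 ≤ ρ) :
    Real.log (CC q L K M G) ≤ (ρ + 1) * (10 * L + 10) * (p * Real.log q) := by
  have hlogq : 1 ≤ Real.log q := by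
    rw [Real.le_log_iff_exp_le (by positivity)]
    have h1 := Real.exp_one_lt_d9
    have h2 : (3 : ℝ) ≤ q := by exact_mod_cast hq3
    linarith
  obtain ⟨N, hN⟩ : ∃ N, N = L * K := ⟨_, rfl⟩
  rw [CC, ← hN]
  rw [← hN] at hM hρ
  have hN1 : 1 ≤ N := by rw [hN]; exact Nat.mul_pos hL hK
  have hNR : (1 : ℝ) ≤ N := by exact_mod_cast hN1
  have hNM : (0 : ℝ) < N - M := by
    have : (M : ℝ) < N := by exact_mod_cast hM
    linarith
  have hq0 : (0 : ℝ) < q := by
    have h2 : (3 : ℝ) ≤ q := by exact_mod_cast hq3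
    linarith
  rw [Real.log_mul (by positivity) (by positivity), Real.log_mul (by positivity) (by positivity),
    Real.log_mul (by positivity) (by positivity), Real.log_rpow (by positivity),
    Real.log_mul (by positivity) (by positivity), Real.log_mul (by positivity) (by positivity),
    Real.log_mul (by positivity) (by positivity), Real.log_mul (by positivity) (by positivity),
    Real.log_pow, Real.log_pow, Real.log_pow, Real.log_exp]
  have hpR : (2 : ℝ) ≤ p := by exact_mod_cast hp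
  have hLR : (1 : ℝ) ≤ L := by exact_mod_cast hL
  have hKR : (K : ℝ) ≤ p := by exact_mod_cast hKp
  have hMR : (M : ℝ) ≤ p := by exact_mod_cast hMp
  have hNp : (N : ℝ) ≤ L * p := by
    rw [hN]
    push_cast
    gcongr
  have hlogN : Real.log N ≤ L * p := by
    have := Real.log_le_sub_one_of_pos (show (0 : ℝ) < N by linarith)
    linarith
  have hlogN0 : 0 ≤ Real.log N := Real.log_nonneg hNR
  have hGR : (G : ℝ) ≤ (L + 1) * p := by exact_mod_cast hG
  have hG0 : (0 : ℝ) ≤ G := Nat.cast_nonneg _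
  have hlog2 : Real.log 2 ≤ 1 := by
    have := Real.log_two_lt_d9
    linarith
  have hlog20 : 0 ≤ Real.log 2 := Real.log_nonneg (by norm_num)
  have hlog5 : Real.log 5 ≤ 3 := by
    have h1 : Real.log 5 ≤ Real.log (2 ^ 3) := Real.log_le_log (by norm_num) (by norm_num)
    rw [Real.log_pow] at h1
    push_cast at h1
    linarith
  have hratio : (M : ℝ) / (N - M) ≤ ρ := by
    rw [div_le_iff₀ hNM]
    exact hρ
  have hratio0 : 0 ≤ (M : ℝ) / (N - M) := by positivity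
  obtain ⟨k, hk⟩ : ∃ k, k = N + L - M - 2 := ⟨_, rfl⟩
  rw [← hk]
  have hkR : (k : ℝ) ≤ 2 * L * p := by
    have h1 : k ≤ N + L := by omega
    have h2 : (k : ℝ) ≤ N + L := by exact_mod_cast h1
    nlinarith
  obtain ⟨u, hu⟩ : ∃ u, u = (p : ℝ) * Real.log q := ⟨_, rfl⟩
  rw [← hu]
  have hup : (p : ℝ) ≤ u := by rw [hu]; nlinarith
  have hLu : (L : ℝ) * p ≤ L * u := by gcongr
  have hGlog : (G : ℝ) * Real.log 2 ≤ (L + 1) * u := by
    calc (G : ℝ) * Real.log 2 ≤ G * 1 := by gcongr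
      _ ≤ (L + 1) * p := by linarith
      _ ≤ (L + 1) * u := by gcongr
  have hGu : (G : ℝ) ≤ (L + 1) * u := hGR.trans (by gcongr)
  have hMlog : ((2 * M : ℕ) : ℝ) * Real.log q ≤ 2 * u := by
    push_cast
    rw [hu]
    nlinarith
  have hklog : ((2 * k : ℕ) : ℝ) * Real.log q ≤ 4 * L * u := by
    push_cast
    rw [hu]
    nlinarith
  have hinner : Real.log N + (((2 * M : ℕ) : ℝ) * Real.log q + G * Real.log 2) ≤
      (2 * L + 3) * u := by linarith
  have hinner0 : 0 ≤ Real.log N + (((2 * M : ℕ) : ℝ) * Real.log q + G * Real.log 2) := by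
    positivity
  have h1 : (M : ℝ) / (N - M) * (Real.log N + (((2 * M : ℕ) : ℝ) * Real.log q + G * Real.log 2)) ≤
      ρ * ((2 * L + 3) * u) := by gcongr
  have hu0 : 0 ≤ u := by linarith
  have h2 : 0 ≤ ρ * ((8 * L + 7) * u) := by positivity
  have h3 : (ρ + 1) * (10 * L + 10) * u =
      ρ * ((2 * L + 3) * u) + ρ * ((8 * L + 7) * u) + (10 * L + 10) * u := by ring
  have h4 : 0 ≤ (L : ℝ) * u := by positivity
  rw [h3]
  linarith

lemma log_CC_le {q L K M p : ℕ} {ρ : ℝ} (hq3 : 3 ≤ q) (hL : 1 ≤ L) (hK : 1 ≤ K) (hKp : K ≤ p)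
    (hMp : M ≤ p) (hp : 2 ≤ p) (hM : M < L * K) (hρ : (M : ℝ) ≤ ρ * ((L * K : ℕ) - M)) (hρ0 : 0 ≤ ρ) :
    Real.log (CC q L K M (L * p + K)) ≤ (ρ + 1) * (10 * L + 10) * (p * Real.log q) := by
  refine log_CC_le' hq3 hL hK hKp hMp hp hM ?_ hρ hρ0
  rw [add_mul, one_mul]
  omega

end Pool.Agent.K9h9
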