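import Mathlib
import Pool.Agent.K9h9.App1

/-!
# The elementary estimate for `p < q`
-/

set_option autoImplicit false

namespace Pool.Agent.K9h9

open Finset

lemma dvd_sub_of_pow {q D : ℕ} (hq : q.Prime) (hD0 : D ≠ 0) (hφ : ¬ q ∣ D.totient) {u v : ℤ}
    (hv : IsCoprime (D : ℤ) v) (h : (D : ℤ) ∣ u ^ q - v ^ q) : (D : ℤ) ∣ u - v := by
  have hcast : ∀ z : ℤ, ((D : ℤ) ∣ z) ↔ ((z : ZMod D) = 0) := fun z =>
    (ZMod.intCast_zmod_eq_zero_iff_dvd z D).symm
  have hne : NeZero D := ⟨hD0⟩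
  have hunit : ∀ z : ℤ, IsCoprime (D : ℤ) z → IsUnit ((z : ZMod D)) := by
    intro z hz
    obtain ⟨r, s, hrs⟩ := hz
    have h1 : (s : ZMod D) * z = 1 := by
      have h2 : ((r * (D : ℤ) + s * z : ℤ) : ZMod D) = 1 := by rw [hrs]; simp
      push_cast at h2
      rw [ZMod.natCast_self, mul_zero, zero_add] at h2
      exact h2
    exact IsUnit.of_mul_eq_one_right _ h1
  have h1 : (u : ZMod D) ^ q = (v : ZMod D) ^ q := by
    rw [hcast] at h
    push_cast at h
    exact sub_eq_zero.mp h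
  have uv := hunit v hv
  have uu : IsUnit (u : ZMod D) := by
    have h2 : IsUnit ((u : ZMod D) ^ q) := by
      rw [h1]
      exact uv.pow q
    exact (isUnit_pow_iff hq.ne_zero).mp h2
  rw [hcast]
  push_cast
  rw [sub_eq_zero]
  obtain ⟨u', hu'⟩ := uu
  obtain ⟨v', hv'⟩ := uv
  have h3 : u' ^ q = v' ^ q := by
    apply Units.ext
    push_cast
    rw [hu', hv', h1]
  have hcopr : Nat.Coprime (Nat.card (ZMod D)ˣ) q := by
    rw [Nat.card_eq_fintype_card, ZMod.card_units_eq_totient]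
    rw [Nat.coprime_comm, Nat.Prime.coprime_iff_not_dvd hq]
    exact hφ
  have h4 := (powCoprime hcopr).injective (a₁ := u') (a₂ := v') (by simpa using h3)
  rw [← hu', ← hv', h4]

lemma pow_add_pow_lt {u v : ℝ} (hu : 0 < u) (hv : 0 < v) {n : ℕ} (hn : 2 ≤ n) :
    u ^ n + v ^ n < (u + v) ^ n := by
  obtain ⟨k, rfl⟩ := Nat.exists_eq_add_of_le' hn
  have h1 : u ^ (k + 1) < (u + v) ^ (k + 1) := pow_lt_pow_left₀ (by linarith) hu.le (by omega)
  have h2 : v ^ (k + 1) < (u + v) ^ (k + 1) := pow_lt_pow_left₀ (by linarith) hv.le (by omega)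
  rw [show k + 2 = (k + 1) + 1 by ring, pow_succ u, pow_succ v, pow_succ (u + v)]
  nlinarith

lemma sum_pow_ne {X Y : ℝ} (hX : X ≠ 0) (hY : Y ≠ 0) (hXY : X + Y ≠ 0) {p : ℕ} (hp : Odd p)
    (hp2 : 2 ≤ p) : X ^ p + Y ^ p ≠ (X + Y) ^ p := by
  rcases lt_or_gt_of_ne hX with h1 | h1 <;> rcases lt_or_gt_of_ne hY with h2 | h2 <;>
    rcases lt_or_gt_of_ne hXY with h3 | h3
  · have h4 := pow_add_pow_lt (neg_pos.mpr h1) (neg_pos.mpr h2) hp2
    rw [show -X + -Y = -(X + Y) by ring, hp.neg_pow, hp.neg_pow, hp.neg_pow] at h4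
    intro h5
    linarith
  · linarith
  · -- X < 0 < Y, X + Y < 0 : -X = Y + (-(X+Y))
    have h4 := pow_add_pow_lt h2 (neg_pos.mpr h3) hp2
    rw [show Y + -(X + Y) = -X by ring, hp.neg_pow, hp.neg_pow] at h4
    intro h5
    linarith
  · -- X < 0 < Y, 0 < X + Y : Y = (X + Y) + (-X)
    have h4 := pow_add_pow_lt h3 (neg_pos.mpr h1) hp2
    rw [show X + Y + -X = Y by ring, hp.neg_pow] at h4
    intro h5
    linarith
  · have h4 := pow_add_pow_lt h1 (neg_pos.mpr h3) hp2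
    rw [show X + -(X + Y) = -Y by ring, hp.neg_pow, hp.neg_pow] at h4
    intro h5
    linarith
  · have h4 := pow_add_pow_lt h3 (neg_pos.mpr h2) hp2
    rw [show X + Y + -Y = X by ring, hp.neg_pow] at h4
    intro h5
    linarith
  · linarith
  · have h4 := pow_add_pow_lt h1 h2 hp2
    intro h5
    linarith

/-- If `r ^ q = (1 - t) ^ p + t ^ p`, `|t| ≤ 1`, `p ≤ q`, then `|r - 1| ≤ |t|`. -/
lemma abs_root_sub_one_le {r t : ℝ} {p q : ℕ} (hr : 0 ≤ r) (ht : |t| ≤ 1) (hp : Odd p)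
    (hpq : p ≤ q) (hq0 : q ≠ 0) (h : r ^ q = (1 - t) ^ p + t ^ p) : |r - 1| ≤ |t| := by
  have hp0 : p ≠ 0 := by
    rintro rfl
    exact absurd hp (by decide)
  have ht' := abs_le.mp ht
  rcases le_total 0 t with h0 | h0
  · have h1 : r ^ q ≤ 1 := by
      rw [h]
      have := pow_add_pow_le (show 0 ≤ 1 - t by linarith) h0 hp0
      rwa [sub_add_cancel, one_pow] at this
    have h2 : r ≤ 1 := by
      by_contra hcon
      push Not at hcon
      exact absurd h1 (not_le.mpr (one_lt_pow₀ hcon hq0))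
    have h3 : (1 - t) ^ q ≤ r ^ q := by
      rw [h]
      have h4 : (1 - t) ^ q ≤ (1 - t) ^ p :=
        pow_le_pow_of_le_one (by linarith) (by linarith) hpq
      have h5 : 0 ≤ t ^ p := pow_nonneg h0 _
      linarith
    have h4 : 1 - t ≤ r := le_of_pow_le_pow_left₀ hq0 hr h3
    rw [abs_of_nonneg h0, abs_le]
    constructor <;> linarith
  · obtain ⟨v, hv⟩ : ∃ v, v = -t := ⟨_, rfl⟩
    have hv0 : 0 ≤ v := by linarith
    have ht2 : t = -v := by linarith
    rw [ht2, hp.neg_pow, sub_neg_eq_add] at h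
    have h1 : 1 ≤ r ^ q := by
      rw [h]
      have := pow_add_pow_le (zero_le_one' ℝ) hv0 hp0
      rw [one_pow] at this
      linarith
    have h2 : 1 ≤ r := by
      by_contra hcon
      push Not at hcon
      exact absurd h1 (not_le.mpr (pow_lt_one₀ hr hcon hq0))
    have h3 : r ^ q ≤ (1 + v) ^ q := by
      rw [h]
      have h4 : (1 + v) ^ p ≤ (1 + v) ^ q :=
        pow_le_pow_right₀ (by linarith) hpq
      have h5 : 0 ≤ v ^ p := pow_nonneg hv0 _
      linarith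
    have h4 : r ≤ 1 + v := le_of_pow_le_pow_left₀ hq0 (by linarith) h3
    rw [ht2, abs_neg, abs_of_nonneg hv0, abs_le]
    constructor <;> linarith

theorem elem_totient {x y z : ℤ} {p q : ℕ} (h : Sol x y z p q) (hpq : p < q) {D : ℕ}
    (hDy : (D : ℤ) ∣ y) (hqD2 : ¬ q ∣ D.totient) {m : ℝ} (hm : m = max |(x : ℝ)| |(y : ℝ)|) :
    m ^ (1 - ((p : ℝ) - 1) / q) ≤ 3 * (|(y : ℝ)| / D) := by
  obtain ⟨a, b, ha0, hb0, ha, hz, hb⟩ := h.fact
  have hm1 := h.m_pos hm
  have hp3 := h.p3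
  have hq3 := h.q3
  have hmx : |(x : ℝ)| ≤ m := by rw [hm]; exact le_max_left _ _
  have hmy : |(y : ℝ)| ≤ m := by rw [hm]; exact le_max_right _ _
  have hD0 : D ≠ 0 := by
    intro h1
    rw [h1, Nat.cast_zero, zero_dvd_iff] at hDy
    exact h.y0 hDy
  have hDR : (0 : ℝ) < D := by exact_mod_cast Nat.pos_of_ne_zero hD0
  have hcopa := h.cop_a ha
  have hDa : IsCoprime (D : ℤ) a := (hcopa.2.of_isCoprime_of_dvd_right hDy).symm
  have haq : (a : ℝ) ^ q = x + y := by exact_mod_cast ha.symm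
  have ha0' : (a : ℝ) ≠ 0 := by exact_mod_cast ha0
  have hb0' : (0 : ℝ) < b := by exact_mod_cast hb0
  have hx0' : (x : ℝ) ≠ 0 := by exact_mod_cast h.x0
  have hy0' : (y : ℝ) ≠ 0 := by exact_mod_cast h.y0
  have hqR : (0 : ℝ) < q := by exact_mod_cast h.qp.pos
  have hab := h.eq_ab hz
  have habR : (a : ℝ) ^ q * (b : ℝ) ^ q = x ^ p + y ^ p := by exact_mod_cast hab
  have haq0 : 0 < |(a : ℝ) ^ q| := abs_pos.mpr (pow_ne_zero _ ha0')
  have heven : Even (p - 1) := by
    obtain ⟨k, hk⟩ := h.oddp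
    exact ⟨k, by omega⟩
  have hBpos : (0 : ℝ) < (a : ℝ) ^ (p - 1) := heven.pow_pos ha0'
  have hpsucc : p = (p - 1) + 1 := by omega
  -- congruence
  have hcongr : (D : ℤ) ∣ b - a ^ (p - 1) := by
    refine dvd_sub_of_pow h.qp hD0 hqD2 (hDa.pow_right) ?_
    have h1 : (D : ℤ) ∣ a ^ q * (b ^ q - (a ^ (p - 1)) ^ q) := by
      have h2 : a ^ q * (b ^ q - (a ^ (p - 1)) ^ q) = x ^ p + y ^ p - (x + y) ^ p := by
        rw [mul_sub, hab, ha]
        have h3 : a ^ q * (a ^ (p - 1)) ^ q = (a ^ q) ^ p := by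
          rw [← pow_mul, ← pow_mul, ← pow_add]
          congr 1
          conv_rhs => rw [hpsucc]
          ring
        rw [h3]
      rw [h2]
      have h4 : (x + y) - x ∣ (x + y) ^ p - x ^ p := sub_dvd_pow_sub_pow _ _ p
      rw [add_sub_cancel_left] at h4
      have h5 : (y : ℤ) ∣ y ^ p := dvd_pow_self _ (by omega)
      have h6 := dvd_sub h5 h4
      have h7 : y ^ p - ((x + y) ^ p - x ^ p) = x ^ p + y ^ p - (x + y) ^ p := by ring
      rw [h7] at h6
      exact hDy.trans h6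
    exact (hDa.pow_right).dvd_of_dvd_mul_left h1
  have hne : (b : ℝ) ≠ (a : ℝ) ^ (p - 1) := by
    intro h1
    have h2 := sum_pow_ne hx0' hy0' (by rw [← haq]; exact pow_ne_zero _ ha0') h.oddp (by omega)
    apply h2
    rw [← habR, h1, ← haq, ← pow_mul, ← pow_mul, ← pow_add]
    congr 1
    conv_rhs => rw [hpsucc]
    ring
  have hDle : (D : ℝ) ≤ |(b : ℝ) - (a : ℝ) ^ (p - 1)| := by
    have h1 : b - a ^ (p - 1) ≠ 0 := by
      intro h2
      apply hne
      have h3 : b = a ^ (p - 1) := by linarith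
      rw [h3]
      push_cast
      rfl
    have h2 : (D : ℤ) ≤ |b - a ^ (p - 1)| :=
      Int.le_of_dvd (abs_pos.mpr h1) ((dvd_abs _ _).mpr hcongr)
    exact_mod_cast h2
  have hpR : (3 : ℝ) ≤ p := by exact_mod_cast hp3
  have hpqR : (p : ℝ) + 1 ≤ q := by exact_mod_cast hpq
  have hexp0 : 0 ≤ 1 - ((p : ℝ) - 1) / q := by
    rw [sub_nonneg, div_le_one hqR]
    linarith
  have hexp1 : 1 - ((p : ℝ) - 1) / q ≤ 1 := by
    have : 0 ≤ ((p : ℝ) - 1) / q := div_nonneg (by linarith) hqR.le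
    linarith
  have hmsum : m ≤ |(y : ℝ)| + |(a : ℝ) ^ q| := by
    rw [hm]
    refine max_le ?_ (by linarith)
    have h2 : (x : ℝ) = (a : ℝ) ^ q - y := by rw [haq]; ring
    rw [h2]
    refine (abs_sub _ _).trans ?_
    linarith
  rcases le_or_gt |(y : ℝ)| |(a : ℝ) ^ q| with hcase | hcase
  · -- the first case
    obtain ⟨t, ht⟩ : ∃ t : ℝ, t = y / (a : ℝ) ^ q := ⟨_, rfl⟩
    obtain ⟨r, hr⟩ : ∃ r : ℝ, r = b / (a : ℝ) ^ (p - 1) := ⟨_, rfl⟩
    have ht1 : |t| ≤ 1 := by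
      rw [ht, abs_div, div_le_one haq0]
      exact hcase
    have hrq : r ^ q = (1 - t) ^ p + t ^ p := by
      have h1 : 1 - t = x / (a : ℝ) ^ q := by
        rw [ht, eq_div_iff (pow_ne_zero _ ha0'), sub_mul, div_mul_cancel₀ _ (pow_ne_zero _ ha0'),
          haq]
        ring
      rw [h1, ht, hr, div_pow, div_pow, div_pow, ← add_div, ← habR]
      have h3 : ((a : ℝ) ^ q) ^ p = (a : ℝ) ^ q * ((a : ℝ) ^ (p - 1)) ^ q := by
        rw [← pow_mul, ← pow_mul, ← pow_add]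
        congr 1
        conv_lhs => rw [hpsucc]
        ring
      rw [h3]
      field_simp
    have h4 := abs_root_sub_one_le (by rw [hr]; positivity) ht1 h.oddp hpq.le h.qp.ne_zero hrq
    have h5 : |(b : ℝ) - (a : ℝ) ^ (p - 1)| ≤ (a : ℝ) ^ (p - 1) * (|(y : ℝ)| / |(a : ℝ) ^ q|) := by
      have h6 : (b : ℝ) - (a : ℝ) ^ (p - 1) = (a : ℝ) ^ (p - 1) * (r - 1) := by
        rw [hr]
        field_simp
      rw [h6, abs_mul, abs_of_pos hBpos, ← abs_div, ← ht]
      exact mul_le_mul_of_nonneg_left h4 hBpos.le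
    obtain ⟨s, hs⟩ : ∃ s : ℝ, s = |(a : ℝ)| := ⟨_, rfl⟩
    have hs0 : 0 < s := by rw [hs]; exact abs_pos.mpr ha0'
    have h7 : |(a : ℝ) ^ q| = s ^ q := by rw [abs_pow, hs]
    have h8 : (a : ℝ) ^ (p - 1) = s ^ (p - 1) := by rw [hs, heven.pow_abs]
    rw [h7] at hmsum hcase h5
    rw [h8] at h5
    have h9 : s ^ q = s ^ (q - (p - 1)) * s ^ (p - 1) := by
      rw [← pow_add]
      congr 1
      omega
    have h10 : s ^ (q - (p - 1)) ≤ |(y : ℝ)| / D := by
      rw [le_div_iff₀ hDR]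
      have h11 : (D : ℝ) ≤ s ^ (p - 1) * (|(y : ℝ)| / s ^ q) := hDle.trans (by rw [h8]; exact h5)
      have h12 : s ^ (p - 1) * (|(y : ℝ)| / s ^ q) = |(y : ℝ)| / s ^ (q - (p - 1)) := by
        rw [h9]
        field_simp
      rw [h12, le_div_iff₀ (by positivity)] at h11
      linarith
    have h13 : m ≤ 2 * s ^ q := by linarith
    have h14 : m ^ (1 - ((p : ℝ) - 1) / q) ≤ 2 * s ^ (q - (p - 1)) := by
      calc m ^ (1 - ((p : ℝ) - 1) / q) ≤ (2 * s ^ q) ^ (1 - ((p : ℝ) - 1) / q) :=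
            Real.rpow_le_rpow (by linarith) h13 hexp0
        _ = 2 ^ (1 - ((p : ℝ) - 1) / q) * (s ^ q) ^ (1 - ((p : ℝ) - 1) / q) :=
            Real.mul_rpow (by norm_num) (by positivity)
        _ ≤ 2 ^ (1 : ℝ) * (s ^ q) ^ (1 - ((p : ℝ) - 1) / q) := by
            have := Real.rpow_le_rpow_of_exponent_le (one_le_two (α := ℝ)) hexp1
            gcongr
        _ = 2 * s ^ (q - (p - 1)) := by
            rw [Real.rpow_one, ← Real.rpow_natCast, ← Real.rpow_mul hs0.le, ← Real.rpow_natCast]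
            congr 2
            rw [Nat.cast_sub (by omega), Nat.cast_sub (by omega)]
            field_simp
            push_cast
            ring
    have h15 : 0 < s ^ (q - (p - 1)) := by positivity
    linarith
  · -- the second case
    have hDle2 : (D : ℝ) ≤ (3 / 2) * m ^ (((p : ℝ) - 1) / q) := by
      have hroot : ∀ u : ℝ, 0 ≤ u → u ^ q ≤ p * m ^ (p - 1) → u ≤ 3 / 2 * m ^ (((p : ℝ) - 1) / q) := by
        intro u hu hle
        refine le_of_pow_le_pow_left₀ h.qp.ne_zero (by positivity) (hle.trans ?_)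
        rw [mul_pow]
        have h1 : (p : ℝ) ≤ (3 / 2) ^ q := by
          have h2 : ∀ n : ℕ, 3 ≤ n → (n : ℝ) ≤ (3 / 2) ^ n := by
            intro n hn
            induction n, hn using Nat.le_induction with
            | base => norm_num
            | succ n hn ih =>
              rw [pow_succ]
              push_cast
              have : (3 : ℝ) ≤ n := by exact_mod_cast hn
              linarith
          linarith [h2 q hq3]
        have h2 : (m ^ (((p : ℝ) - 1) / q)) ^ q = m ^ (p - 1) := by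
          rw [← Real.rpow_natCast, ← Real.rpow_mul (by linarith), div_mul_cancel₀ _ hqR.ne',
            ← Real.rpow_natCast]
          congr 1
          rw [Nat.cast_sub (by omega)]
          simp
        rw [h2]
        gcongr
      have h1 : (b : ℝ) ≤ 3 / 2 * m ^ (((p : ℝ) - 1) / q) := by
        apply hroot _ hb0'.le
        exact (le_abs_self _).trans (phi_le (by omega) hb hm)
      have h2 : (a : ℝ) ^ (p - 1) ≤ 3 / 2 * m ^ (((p : ℝ) - 1) / q) := by
        apply hroot _ hBpos.le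
        have h3 : ((a : ℝ) ^ (p - 1)) ^ q = |(a : ℝ) ^ q| ^ (p - 1) := by
          rw [← abs_of_pos (show 0 < ((a : ℝ) ^ (p - 1)) ^ q by positivity), ← abs_pow]
          congr 1
          rw [← pow_mul, ← pow_mul, mul_comm]
        rw [h3]
        calc |(a : ℝ) ^ q| ^ (p - 1) ≤ m ^ (p - 1) :=
              pow_le_pow_left₀ (abs_nonneg _) (by linarith) _
          _ ≤ p * m ^ (p - 1) := le_mul_of_one_le_left (by positivity) (by linarith)
      refine hDle.trans ?_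
      rw [abs_le]
      constructor <;> linarith
    rw [← mul_div_assoc, le_div_iff₀ hDR]
    calc m ^ (1 - ((p : ℝ) - 1) / q) * D
        ≤ m ^ (1 - ((p : ℝ) - 1) / q) * ((3 / 2) * m ^ (((p : ℝ) - 1) / q)) := by gcongr
      _ = 3 / 2 * (m ^ (1 - ((p : ℝ) - 1) / q) * m ^ (((p : ℝ) - 1) / q)) := by ring
      _ = 3 / 2 * m := by
          rw [← Real.rpow_add (by linarith), sub_add_cancel, Real.rpow_one]
      _ ≤ 3 * |(y : ℝ)| := by linarith

theorem elem {x y z : ℤ} {p q : ℕ} (h : Sol x y z p q) (hpq : p < q) {D : ℕ}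
    (hDy : (D : ℤ) ∣ y) (hqD : ¬ q ∣ D * D.totient) {m : ℝ} (hm : m = max |(x : ℝ)| |(y : ℝ)|) :
    m ^ (1 - ((p : ℝ) - 1) / q) ≤ 3 * (|(y : ℝ)| / D) :=
  elem_totient h hpq hDy (fun h1 => hqD (h1.mul_left _)) hm

end Pool.Agent.K9h9
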