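import Mathlib
import Pool.Agent.K9h9.Elem
import Pool.Agent.H374R2.V.TL

/-!
# An upper bound for `q` by linear forms in two `2`-adic logarithms
-/

set_option autoImplicit false

namespace Pool.Agent.K9h9

open Finset

lemma Sol.natAbs_z_ne_one {x y z : ℤ} {p q : ℕ} (h : Sol x y z p q) : z.natAbs ≠ 1 := by
  intro h1
  obtain ⟨a, b, ha0, hb0, ha, hz, hb⟩ := h.fact
  rw [hz, Int.natAbs_mul] at h1
  have h2 := Nat.eq_one_of_mul_eq_one_right h1
  have h3 := Nat.eq_one_of_mul_eq_one_left h1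
  have hb1 : b = 1 := by omega
  have hp3 := h.p3
  have hsum := h.sum_ne
  have hx0' : (x : ℝ) ≠ 0 := by exact_mod_cast h.x0
  have hy0' : (y : ℝ) ≠ 0 := by exact_mod_cast h.y0
  have hs0 : (x : ℝ) + y ≠ 0 := by exact_mod_cast hsum
  apply sum_pow_ne hx0' hy0' hs0 h.oddp (by omega)
  have h4 : x ^ p + y ^ p = (x + y) ^ p := by
    rw [h.eq, hz, hb1, mul_one, ha]
    rcases Int.natAbs_eq_iff.mp h2 with h5 | h5
    · rw [h5]
      simp
    · rw [h5]
      push_cast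
      rw [h.oddq.neg_one_pow, h.oddp.neg_one_pow]
  exact_mod_cast h4

/-- the case of an even `z` -/
lemma q_bound_z {x y z : ℤ} {p q : ℕ} (h : Sol x y z p q) (hz2 : (2 : ℤ) ∣ z) {ν : ℕ}
    (hx : x.natAbs < 2 ^ ν) (hy : y.natAbs < 2 ^ ν) : q ≤ ν := by
  obtain ⟨a, b, ha0, hb0, ha, hz, hb⟩ := h.fact
  have h2p : Prime (2 : ℤ) := Int.prime_two
  have hp3 := h.p3
  have hyodd : ¬ (2 : ℤ) ∣ y := by
    intro h1
    have h2 : (2 : ℤ) ∣ x ^ p := by
      have h3 : x ^ p = z ^ q - y ^ p := by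
        have := h.eq
        linarith
      rw [h3]
      exact dvd_sub (dvd_pow hz2 h.qp.ne_zero) (dvd_pow h1 h.pp.ne_zero)
    have h3 := h2p.dvd_of_dvd_pow h2
    exact h2p.not_isUnit (h.cop.isUnit_of_dvd' h3 h1)
  have hsum : (2 : ℤ) ∣ x - (-y) := by
    have hxodd : ¬ (2 : ℤ) ∣ x := by
      intro h1
      have h2 : (2 : ℤ) ∣ y ^ p := by
        have h3 : y ^ p = z ^ q - x ^ p := by
          have := h.eq
          linarith
        rw [h3]
        exact dvd_sub (dvd_pow hz2 h.qp.ne_zero) (dvd_pow h1 h.pp.ne_zero)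
      exact hyodd (h2p.dvd_of_dvd_pow h2)
    omega
  have hb2 : ¬ (2 : ℤ) ∣ b := by
    intro h1
    have h2 : (2 : ℤ) ∣ b ^ q := dvd_pow h1 h.qp.ne_zero
    rw [hb, dvd_geom_sum₂_iff_of_dvd_sub hsum] at h2
    rcases h2p.dvd_or_dvd h2 with h3 | h3
    · have h4 : 2 ∣ p := by exact_mod_cast h3
      have h5 := (Nat.prime_dvd_prime_iff_eq Nat.prime_two h.pp).mp h4
      exact h.p2 h5.symm
    · have h4 := h2p.dvd_of_dvd_pow h3
      rw [dvd_neg] at h4
      exact hyodd h4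
  have ha2 : (2 : ℤ) ∣ a := by
    rw [hz] at hz2
    exact (h2p.dvd_or_dvd hz2).resolve_right hb2
  have h3 : 2 ^ q ∣ (x + y).natAbs := by
    rw [← Int.natCast_dvd_natCast, Int.dvd_natAbs, ha]
    push_cast
    exact pow_dvd_pow_of_dvd ha2 q
  have h4 : 2 ^ q ≤ (x + y).natAbs := by
    apply Nat.le_of_dvd _ h3
    have := h.sum_ne
    omega
  have h5 : 2 ^ q < 2 ^ (ν + 1) := by
    have h6 := Int.natAbs_add_le x y
    rw [pow_succ]
    omega
  have h6 := (Nat.pow_lt_pow_iff_right (by norm_num : 1 < 2)).mp h5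
  omega

/-- the case of an even `y` -/
lemma q_bound_y {x y z : ℤ} {p q : ℕ} (h : Sol x y z p q) (hy2 : (2 : ℤ) ∣ y)
    {ν : ℕ} (hν : 1 ≤ ν) (hx : x.natAbs < 2 ^ ν) (hy : y.natAbs < 2 ^ ν) :
    q < 1200000 * (Nat.log 2 q + 1) ^ 2 * (ν + 1) ^ 3 := by
  have h2p : Prime (2 : ℤ) := Int.prime_two
  have hp3 := h.p3
  have hq3 := h.q3
  obtain ⟨lam, hlam⟩ : ∃ lam, lam = Nat.log 2 q + 1 := ⟨_, rfl⟩
  rw [← hlam]
  have hlam1 : 1 ≤ lam := by omega
  rcases lt_or_ge q (600 * 2 * ν * lam) with hsmall | hbig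
  · refine hsmall.trans_le ?_
    have h1 : lam ≤ lam ^ 2 := Nat.le_self_pow (by norm_num) _
    have h2 : ν ≤ (ν + 1) ^ 3 := (Nat.le_succ ν).trans (Nat.le_self_pow (by norm_num) _)
    calc 600 * 2 * ν * lam ≤ 600 * 2 * (ν + 1) ^ 3 * lam ^ 2 := by gcongr
      _ ≤ 1200000 * lam ^ 2 * (ν + 1) ^ 3 := by nlinarith [Nat.zero_le ((ν + 1) ^ 3 * lam ^ 2)]
  have hxodd : ¬ (2 : ℤ) ∣ x := fun h1 => h2p.not_isUnit (h.cop.isUnit_of_dvd' h1 hy2)
  have hzodd : ¬ (2 : ℤ) ∣ z := by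
    intro h1
    have h2 : (2 : ℤ) ∣ x ^ p := by
      have h3 : x ^ p = z ^ q - y ^ p := by
        have := h.eq
        linarith
      rw [h3]
      exact dvd_sub (dvd_pow h1 h.qp.ne_zero) (dvd_pow hy2 h.pp.ne_zero)
    exact hxodd (h2p.dvd_of_dvd_pow h2)
  obtain ⟨k, hk⟩ : ∃ k, k = p / q := ⟨_, rfl⟩
  obtain ⟨i, hi⟩ : ∃ i, i = p % q := ⟨_, rfl⟩
  have hpki : p = q * k + i := by rw [hk, hi]; exact (Nat.div_add_mod p q).symm
  have hiq : i < q := by rw [hi]; exact Nat.mod_lt _ h.qp.pos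
  have hi0 : 0 < i := by
    rcases Nat.eq_zero_or_pos i with h1 | h1
    · exfalso
      rw [h1, add_zero] at hpki
      have h2 : q ∣ p := ⟨k, hpki⟩
      exact h.ne ((Nat.prime_dvd_prime_iff_eq h.qp h.pp).mp h2).symm
    · exact h1
  have hcop : Nat.Coprime i q := by
    rw [Nat.coprime_comm, Nat.Prime.coprime_iff_not_dvd h.qp]
    intro h1
    have := Nat.le_of_dvd hi0 h1
    omega
  have hxpos : 0 < x.natAbs := Int.natAbs_pos.mpr h.x0
  have hzpos : 0 < z.natAbs := Int.natAbs_pos.mpr h.z0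
  have hz1 := h.natAbs_z_ne_one
  have hcopz : IsCoprime z x := by
    have h1 : IsCoprime (y ^ p) x := (h.cop.symm).pow_left
    have h2 : IsCoprime (z ^ q) x := by
      rw [← h.eq]
      have h3 : x ^ p = x * x ^ (p - 1) := by
        rw [← pow_succ']
        congr 1
        omega
      rw [h3, add_comm]
      exact IsCoprime.add_mul_left_left h1 _
    exact (IsCoprime.pow_left_iff h.qp.pos).mp h2
  have hne : z.natAbs ≠ x.natAbs ^ k := by
    intro h1
    rcases Nat.eq_zero_or_pos k with hk0 | hk0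
    · rw [hk0, pow_zero] at h1
      exact hz1 h1
    · have h2 : Nat.Coprime z.natAbs x.natAbs := Int.isCoprime_iff_gcd_eq_one.mp hcopz
      have h3 : x.natAbs ∣ z.natAbs := by
        rw [h1]
        exact dvd_pow_self _ hk0.ne'
      have h4 : x.natAbs = 1 := Nat.eq_one_of_dvd_coprimes h2 h3 dvd_rfl
      rw [h4, one_pow] at h1
      exact hz1 h1
  obtain ⟨hh, hhd⟩ : ∃ hh, hh = (k + 1) * ν + 1 := ⟨_, rfl⟩
  have h1 : z.natAbs ^ q ≤ x.natAbs ^ p + y.natAbs ^ p := by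
    rw [← Int.natAbs_pow, ← h.eq, ← Int.natAbs_pow, ← Int.natAbs_pow]
    exact Int.natAbs_add_le _ _
  have h2 : x.natAbs ^ p < (2 ^ ν) ^ p := Nat.pow_lt_pow_left hx h.pp.ne_zero
  have h3 : y.natAbs ^ p < (2 ^ ν) ^ p := Nat.pow_lt_pow_left hy h.pp.ne_zero
  have hqνp : q ≤ ν * p := by
    have h4 : 2 ^ q ≤ z.natAbs ^ q := Nat.pow_le_pow_left (by omega) q
    have h5 : 2 ^ q < 2 ^ (ν * p + 1) := by
      rw [pow_succ, pow_mul]
      omega
    have h6 := (Nat.pow_lt_pow_iff_right (by norm_num : 1 < 2)).mp h5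
    omega
  have hzlt : z.natAbs < 2 ^ hh := by
    have h4 : 2 * (2 ^ ν) ^ p ≤ (2 ^ hh) ^ q := by
      rw [← pow_mul, ← pow_mul, ← pow_succ']
      apply Nat.pow_le_pow_right (by norm_num)
      rw [hhd]
      have h5 : p ≤ (k + 1) * q := by
        rw [hpki]
        nlinarith
      nlinarith
    have h5 : z.natAbs ^ q < (2 ^ hh) ^ q := by omega
    exact lt_of_pow_lt_pow_left₀ q (by positivity) h5
  have hxlt : x.natAbs ^ k < 2 ^ hh := by
    calc x.natAbs ^ k ≤ (2 ^ ν) ^ k := Nat.pow_le_pow_left hx.le k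
      _ = 2 ^ (ν * k) := by rw [← pow_mul]
      _ < 2 ^ hh := by
        apply Nat.pow_lt_pow_right (by norm_num)
        rw [hhd]
        nlinarith
  have hrel : ((2 : ℕ) : ℤ) ^ p ∣ (z.natAbs : ℤ) ^ (2 * q) -
      ((x.natAbs ^ k : ℕ) : ℤ) ^ (2 * q) * (x.natAbs : ℤ) ^ (2 * i) := by
    have h1 : (z.natAbs : ℤ) ^ (2 * q) = z ^ (2 * q) := by
      rw [Int.natCast_natAbs]
      exact (even_two_mul q).pow_abs z
    have h2 : ((x.natAbs ^ k : ℕ) : ℤ) ^ (2 * q) * (x.natAbs : ℤ) ^ (2 * i) = x ^ (2 * p) := by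
      push_cast
      rw [← pow_mul, ← pow_add]
      have h3 : k * (2 * q) + 2 * i = 2 * p := by rw [hpki]; ring
      rw [h3]
      exact (even_two_mul p).pow_abs x
    rw [h1, h2]
    have h3 : z ^ (2 * q) - x ^ (2 * p) = y ^ p * (z ^ q + x ^ p) := by
      have h4 := h.eq
      rw [mul_comm 2 q, mul_comm 2 p, pow_mul, pow_mul, ← h4]
      ring
    rw [h3]
    exact (pow_dvd_pow_of_dvd hy2 p).mul_right _
  have hmain := Pool.Agent.H374R2.V.TL.two_logs (p := 2) (h := hh) (ν := ν) (q := q) (i := i)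
    (y := p) (a := z.natAbs) (b := x.natAbs ^ k) (A := x.natAbs) Nat.prime_two (by omega) hν hzpos
    (by positivity) hxpos hne hzlt hxlt hx
    (by rw [← Int.natCast_dvd_natCast, Int.dvd_natAbs]; exact hzodd)
    (by
      intro h1
      have h2 := Nat.prime_two.dvd_of_dvd_pow h1
      rw [← Int.natCast_dvd_natCast, Int.dvd_natAbs] at h2
      exact hxodd h2)
    (by rw [← Int.natCast_dvd_natCast, Int.dvd_natAbs]; exact hxodd) hi0 hiq hcop hrel
    (by rw [← hlam]; exact hbig)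
  rw [← hlam] at hmain
  have hh2 : hh ≤ (k + 1) * (ν + 1) := by
    rw [hhd]
    nlinarith
  have hk1 : (k + 1) * q ≤ 2 * (ν + 1) * p := by
    rcases Nat.eq_zero_or_pos k with hk0 | hk0
    · rw [hk0, zero_add, one_mul]
      calc q ≤ ν * p := hqνp
        _ ≤ 2 * (ν + 1) * p := Nat.mul_le_mul_right _ (by omega)
    · have h4 : (k + 1) * q ≤ 2 * (k * q) := by
        have h5 : 1 * q ≤ k * q := Nat.mul_le_mul_right _ hk0
        rw [add_mul]
        omega
      have h5 : k * q ≤ p := by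
        rw [hpki, mul_comm]
        omega
      calc (k + 1) * q ≤ 2 * (k * q) := h4
        _ ≤ 2 * p := Nat.mul_le_mul_left _ h5
        _ ≤ 2 * (ν + 1) * p := Nat.mul_le_mul_right _ (by omega)
  have h4 : (k + 1) * q < (k + 1) * (1200000 * lam ^ 2 * (ν + 1) ^ 3) := by
    calc (k + 1) * q ≤ 2 * (ν + 1) * p := hk1
      _ < 2 * (ν + 1) * (150000 * 2 ^ 2 * lam ^ 2 * hh * ν) :=
        Nat.mul_lt_mul_of_pos_left hmain (by positivity)
      _ ≤ 2 * (ν + 1) * (150000 * 2 ^ 2 * lam ^ 2 * ((k + 1) * (ν + 1)) * (ν + 1)) := by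
        gcongr
        omega
      _ = (k + 1) * (1200000 * lam ^ 2 * (ν + 1) ^ 3) := by ring
  exact lt_of_mul_lt_mul_left h4 (Nat.zero_le _)

theorem q_bound {x y z : ℤ} {p q : ℕ} (h : Sol x y z p q)
    {ν : ℕ} (hν : 1 ≤ ν) (hx : x.natAbs < 2 ^ ν) (hy : y.natAbs < 2 ^ ν) :
    q < 1200000 * (Nat.log 2 q + 1) ^ 2 * (ν + 1) ^ 3 := by
  have h2p : Prime (2 : ℤ) := Int.prime_two
  rcases em ((2 : ℤ) ∣ y) with hy2 | hy2
  · exact q_bound_y h hy2 hν hx hy
  rcases em ((2 : ℤ) ∣ x) with hx2 | hx2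
  · exact q_bound_y h.symm hx2 hν hy hx
  · have hz2 : (2 : ℤ) ∣ z := by
      have h1 : (2 : ℤ) ∣ z ^ q := by
        rw [← h.eq]
        have hx3 : Odd x := by
          rw [← Int.not_even_iff_odd, even_iff_two_dvd]
          exact hx2
        have hy3 : Odd y := by
          rw [← Int.not_even_iff_odd, even_iff_two_dvd]
          exact hy2
        exact (hx3.pow.add_odd hy3.pow).two_dvd
      exact h2p.dvd_of_dvd_pow h1
    have h3 := q_bound_z h hz2 hx hy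
    have h4 : 1 ≤ (Nat.log 2 q + 1) ^ 2 := Nat.one_le_pow _ _ (by omega)
    have h5 : ν + 1 ≤ (ν + 1) ^ 3 := Nat.le_self_pow (by norm_num) _
    nlinarith

end Pool.Agent.K9h9
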