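import Mathlib
import Pool.Agent.K9h9.App2
import Pool.Agent.K9h9.QBound

/-!
# Finitely many exponents `p` for given `x`, `y`, `q`
-/

set_option autoImplicit false
set_option maxHeartbeats 1000000

namespace Pool.Agent.K9h9

lemma Sol.two_le_m {x y z : ℤ} {p q : ℕ} (h : Sol x y z p q) {m : ℝ}
    (hm : m = max |(x : ℝ)| |(y : ℝ)|) : 2 ≤ m := by
  by_contra hcon
  push Not at hcon
  have hx : |(x : ℝ)| < 2 := lt_of_le_of_lt (by rw [hm]; exact le_max_left _ _) hcon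
  have hy : |(y : ℝ)| < 2 := lt_of_le_of_lt (by rw [hm]; exact le_max_right _ _) hcon
  have hx1 : |x| < 2 := by exact_mod_cast hx
  have hy1 : |y| < 2 := by exact_mod_cast hy
  rw [Int.abs_eq_natAbs] at hx1 hy1
  have hx2 : x.natAbs ≤ 1 := by omega
  have hy2 : y.natAbs ≤ 1 := by omega
  have h1 : z.natAbs ^ q ≤ x.natAbs ^ p + y.natAbs ^ p := by
    rw [← Int.natAbs_pow, ← h.eq, ← Int.natAbs_pow, ← Int.natAbs_pow]
    exact Int.natAbs_add_le _ _
  have h2 : x.natAbs ^ p ≤ 1 := pow_le_one₀ (Nat.zero_le _) hx2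
  have h3 : y.natAbs ^ p ≤ 1 := pow_le_one₀ (Nat.zero_le _) hy2
  have h4 := h.natAbs_z_ne_one
  have h5 : 0 < z.natAbs := Int.natAbs_pos.mpr h.z0
  have h6 : 2 ^ q ≤ z.natAbs ^ q := Nat.pow_le_pow_left (by omega) q
  have h7 : 2 ^ 3 ≤ 2 ^ q := Nat.pow_le_pow_right (by norm_num) h.q3
  omega

lemma finp_aux {η q K M δ R : ℝ} (hη0 : 0 < η) (hη1 : η ≤ 1) (hq : 3 ≤ q)
    (hM : M = 2 * K - δ) (hδ0 : 0 ≤ δ) (hδ : δ ≤ η * R / 16) (hMR : R - 1 ≤ M)
    (hR : 64 ≤ η * R) :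
    η * R / 2 ≤ (M - δ) * (1 / 2 + 1 / q + η) - (R + 1) / q - (K - 1) := by
  have hq0 : 0 < q := by linarith
  have h1 : (M - δ) * (1 / 2 + 1 / q + η) - (R + 1) / q - (K - 1) =
      1 - δ + (M - δ - R - 1) / q + η * (M - δ) := by
    rw [hM]
    field_simp
    ring
  rw [h1]
  have h5 : -((δ + 2) / 3) ≤ (M - δ - R - 1) / q := by
    rw [le_div_iff₀ hq0]
    nlinarith
  have h6 : η * (R - 1 - δ) ≤ η * (M - δ) := by
    apply mul_le_mul_of_nonneg_left _ hη0.le
    linarith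
  have h7 : η * δ ≤ δ := by nlinarith
  nlinarith

theorem finite_p {η : ℝ} (hη0 : 0 < η) (hη1 : η ≤ 1) (x y : ℤ) (q D : ℕ) (hDy : (D : ℤ) ∣ y)
    (hqD : ¬ q ∣ D * D.totient) {m : ℝ} (hm : m = max |(x : ℝ)| |(y : ℝ)|)
    (hbad : |(y : ℝ)| ≤ D * m ^ (1 / 2 - 1 / (q : ℝ) - η)) :
    {p : ℕ | ∃ z : ℤ, Sol x y z p q}.Finite := by
  obtain ⟨S, hS⟩ : ∃ S : Set ℕ, S = {p : ℕ | ∃ z : ℤ, Sol x y z p q} := ⟨_, rfl⟩
  rw [← hS]
  have hclass : ∀ c : ℕ, (S ∩ {p | p % q = c}).Finite := by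
    intro c
    by_contra hinf
    have hinf : (S ∩ {p | p % q = c}).Infinite := hinf
    obtain ⟨p0, hp0⟩ := hinf.nonempty
    have hp0S := hp0.1
    rw [hS] at hp0S
    obtain ⟨z0, hz0⟩ := hp0S
    have hq3 := hz0.q3
    have hm2 := hz0.two_le_m hm
    obtain ⟨w, hwd⟩ : ∃ w, w = Real.log q := ⟨_, rfl⟩
    obtain ⟨l, hld⟩ : ∃ l, l = Real.log m := ⟨_, rfl⟩
    have hqR : (3 : ℝ) ≤ q := by exact_mod_cast hq3
    have hw : 1 ≤ w := by
      rw [hwd, Real.le_log_iff_exp_le (by positivity)]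
      have h1 := Real.exp_one_lt_d9
      linarith
    have hl : 1 / 2 ≤ l := by
      have h1 := Real.log_le_log (by norm_num) hm2
      have h2 := Real.log_two_gt_d9
      rw [hld]
      linarith
    obtain ⟨C1, hC1⟩ : ∃ C1 : ℝ, C1 = 30 * (32 / η + 1) + 5 := ⟨_, rfl⟩
    have hC10 : 0 < C1 := by rw [hC1]; positivity
    obtain ⟨p1, hp1, hp1gt⟩ := hinf.exists_gt ⌈4 * C1 * w / η⌉₊
    obtain ⟨T, hT⟩ : ∃ T : ℕ, T = ⌈64 / η⌉₊ := ⟨_, rfl⟩
    obtain ⟨p2, hp2, hp2gt⟩ := hinf.exists_gt ((T + 1) * p1)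
    have hp1S := hp1.1
    have hp2S := hp2.1
    rw [hS] at hp1S hp2S
    obtain ⟨z1, h1⟩ := hp1S
    obtain ⟨z2, h2⟩ := hp2S
    have hc1 : p1 % q = c := hp1.2
    have hc2 : p2 % q = c := hp2.2
    have hp13 := h1.p3
    have hp12 : p1 < p2 := by
      refine lt_of_le_of_lt ?_ hp2gt
      exact Nat.le_mul_of_pos_left _ (by omega)
    obtain ⟨n, hn⟩ : ∃ n, p2 = p1 + q * n := by
      refine ⟨p2 / q - p1 / q, ?_⟩
      have e1 := Nat.div_add_mod p1 q
      have e2 := Nat.div_add_mod p2 q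
      have e3 : p1 / q ≤ p2 / q := Nat.div_le_div_right hp12.le
      rw [Nat.mul_sub]
      have e4 : q * (p1 / q) ≤ q * (p2 / q) := Nat.mul_le_mul_left _ e3
      omega
    obtain ⟨R, hR⟩ : ∃ R, R = p2 / p1 := ⟨_, rfl⟩
    have hRT : T ≤ R := by
      rw [hR, Nat.le_div_iff_mul_le (by omega)]
      nlinarith
    have hRp : p1 * R ≤ p2 := by
      rw [hR]
      exact Nat.mul_div_le p2 p1
    have hRp2 : p2 ≤ (R + 1) * p1 := by
      rw [hR]
      exact (Nat.lt_mul_of_div_lt (Nat.lt_succ_self _) (by omega)).le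
    have hηR : 64 ≤ η * R := by
      have e1 : 64 / η ≤ T := by rw [hT]; exact Nat.le_ceil _
      have e2 : (T : ℝ) ≤ R := by exact_mod_cast hRT
      rw [div_le_iff₀ hη0] at e1
      nlinarith
    have hR64 : (64 : ℝ) ≤ R := by
      have : (0 : ℝ) ≤ R := Nat.cast_nonneg _
      nlinarith
    have hR64N : 64 ≤ R := by exact_mod_cast hR64
    obtain ⟨δ, hδ⟩ : ∃ δ : ℕ, δ = ⌊η * R / 16⌋₊ := ⟨_, rfl⟩
    have hδle : (δ : ℝ) ≤ η * R / 16 := by
      rw [hδ]
      exact Nat.floor_le (by positivity)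
    have hδge : η * R ≤ 32 * δ := by
      have e1 : η * R / 16 < ⌊η * R / 16⌋₊ + 1 := Nat.lt_floor_add_one _
      rw [← hδ] at e1
      linarith
    have hδ1 : 1 ≤ δ := by
      have e1 : (0 : ℝ) < δ := by linarith
      exact_mod_cast e1
    have hδR : δ ≤ R / 16 := by
      rw [Nat.le_div_iff_mul_le (by norm_num)]
      have e1 : (δ : ℝ) * 16 ≤ R := by nlinarith
      exact_mod_cast e1
    obtain ⟨K, hK⟩ : ∃ K : ℕ, K = (R + δ) / 2 := ⟨_, rfl⟩
    obtain ⟨M, hM⟩ : ∃ M : ℕ, M = 2 * K - δ := ⟨_, rfl⟩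
    have hM1 : R - 1 ≤ M := by omega
    have hM2 : M ≤ R := by omega
    have hMK : M + δ = 2 * K := by omega
    have hKR : K ≤ R := by omega
    have hK1 : 1 ≤ K := by omega
    obtain ⟨e, he1, he2, he3⟩ := app2 h1 h2 hn hDy hqD hm (K := K) (M := M) hK1 (by omega)
      (by omega) ((Nat.mul_le_mul_left _ hM2).trans hRp)
    have hCC := log_CC_le' (q := q) (L := 2) (K := K) (M := M) (G := K) (p := R) (ρ := 32 / η) hq3
      (by norm_num) hK1 hKR hM2 (by omega) (by omega) (by omega) (by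
        have e1 : ((2 * K : ℕ) : ℝ) - M = δ := by
          rw [← hMK]
          push_cast
          ring
        rw [e1]
        have e2 : (M : ℝ) ≤ R := by exact_mod_cast hM2
        rw [div_mul_eq_mul_div, le_div_iff₀ hη0]
        have e3 : (M : ℝ) * η ≤ R * η := mul_le_mul_of_nonneg_right e2 hη0.le
        linarith only [e3, hδge]) (by positivity)
    rw [← hwd] at hCC
    rw [← hld] at he3
    obtain ⟨cc, hcc⟩ : ∃ cc, cc = Real.log (CC q 2 K M K) := ⟨_, rfl⟩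
    rw [← hcc] at hCC he3
    have hkap : 2 * K + 2 - M - 2 = δ := by omega
    rw [hkap] at he2
    have he2R : (M : ℝ) - δ ≤ e := by
      have : (M : ℝ) ≤ e + δ := by exact_mod_cast he2
      linarith
    have hMR : (M : ℝ) = 2 * K - δ := by
      have : (M : ℝ) + δ = 2 * K := by exact_mod_cast hMK
      linarith
    have hM1R : (R : ℝ) - 1 ≤ M := by
      have e1 : R ≤ M + 1 := by omega
      have e2 : (R : ℝ) ≤ M + 1 := by exact_mod_cast e1
      linarith
    have haux := finp_aux (η := η) (q := q) (K := K) (M := M) (δ := δ) (R := R) hη0 hη1 hqR hMR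
      (Nat.cast_nonneg _) hδle hM1R hηR
    have hDne : D ≠ 0 := by
      intro h
      rw [h, Nat.cast_zero, zero_dvd_iff] at hDy
      exact h1.y0 hDy
    have hDR : (0 : ℝ) < D := by exact_mod_cast Nat.pos_of_ne_zero hDne
    have hy0' : 0 < |(y : ℝ)| := abs_pos.mpr (by exact_mod_cast h1.y0)
    have hlogE : Real.log (|(y : ℝ)| / D) ≤ (1 / 2 - 1 / (q : ℝ) - η) * l := by
      have e1 : |(y : ℝ)| / D ≤ m ^ (1 / 2 - 1 / (q : ℝ) - η) := by
        rw [div_le_iff₀ hDR]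
        linarith
      have e2 := Real.log_le_log (by positivity) e1
      rwa [Real.log_rpow (by linarith), ← hld] at e2
    have hp1R : (0 : ℝ) < p1 := by
      have : 0 < p1 := by omega
      exact_mod_cast this
    have hv : (1 / 2 + 1 / (q : ℝ) + η) * l ≤ l - Real.log (|(y : ℝ)| / D) := by
      linarith only [hlogE]
    have hMδ : (0 : ℝ) ≤ M - δ := by
      have e1 : δ ≤ M := by omega
      have : (δ : ℝ) ≤ M := by exact_mod_cast e1
      linarith
    have hl0 : 0 < l := by linarith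
    have hleft : ((M : ℝ) - δ) * (p1 * ((1 / 2 + 1 / (q : ℝ) + η) * l)) ≤
        e * (p1 * (l - Real.log (|(y : ℝ)| / D))) :=
      mul_le_mul he2R (mul_le_mul_of_nonneg_left hv hp1R.le) (by positivity) (Nat.cast_nonneg _)
    have hfin := hleft.trans he3
    have hcast2 : ((K - 1 : ℕ) : ℝ) = (K : ℝ) - 1 := by
      rw [Nat.cast_sub hK1]
      norm_num
    rw [hcast2] at hfin
    have hlog8 : Real.log 8 ≤ 3 := by
      have e1 : Real.log 8 = 3 * Real.log 2 := by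
        rw [show (8 : ℝ) = 2 ^ 3 by norm_num, Real.log_pow]
        norm_num
      have := Real.log_two_lt_d9
      linarith
    have hlog2 : Real.log 2 ≤ 1 := by
      have := Real.log_two_lt_d9
      linarith
    have hb1 : (e : ℝ) * Real.log 8 ≤ R * 3 := by
      have e1 : (e : ℝ) ≤ R := by exact_mod_cast he1.trans hM2
      exact mul_le_mul e1 hlog8 (Real.log_nonneg (by norm_num)) (Nat.cast_nonneg _)
    have hb2 : ((K : ℝ) - 1) * Real.log 2 ≤ R := by
      have e1 : (0 : ℝ) ≤ (K : ℝ) - 1 := by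
        have : (1 : ℝ) ≤ K := by exact_mod_cast hK1
        linarith
      have e2 : ((K : ℝ) - 1) * Real.log 2 ≤ (K - 1) * 1 := mul_le_mul_of_nonneg_left hlog2 e1
      have e3 : (K : ℝ) ≤ R := by exact_mod_cast hKR
      linarith only [e2, e3]
    have hb3 : (p2 : ℝ) / q * l ≤ (R + 1) / q * (p1 * l) := by
      have e1 : (p2 : ℝ) ≤ (R + 1) * p1 := by exact_mod_cast hRp2
      have e2 : (p2 : ℝ) / q * l ≤ ((R + 1) * p1) / q * l := by gcongr
      refine e2.trans (le_of_eq ?_)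
      ring
    have hmain : η * R / 2 * (p1 * l) ≤ C1 * R * w := by
      have e1 := mul_le_mul_of_nonneg_right haux (by positivity : (0 : ℝ) ≤ p1 * l)
      have e2 : (((M : ℝ) - δ) * (1 / 2 + 1 / q + η) - (R + 1) / q - (K - 1)) * (p1 * l) =
          (M - δ) * (p1 * ((1 / 2 + 1 / q + η) * l)) - (R + 1) / q * (p1 * l) -
            (K - 1) * (p1 * l) := by
        ring
      rw [e2] at e1
      have e3 : ((K : ℝ) - 1) * (Real.log 2 + p1 * l) =
          (K - 1) * Real.log 2 + (K - 1) * (p1 * l) := by ring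
      rw [e3] at hfin
      have e4 : (R : ℝ) ≤ R * w := le_mul_of_one_le_right (Nat.cast_nonneg _) hw
      have e5 : C1 * R * w = (32 / η + 1) * (10 * 2 + 10) * (R * w) + 5 * (R * w) := by
        rw [hC1]
        ring
      have h0 : ((2 : ℕ) : ℝ) = 2 := by norm_num
      rw [h0] at hCC
      rw [e5]
      linarith only [e1, hfin, hb1, hb2, hb3, hCC, e4, hlog2, hR64]
    have hRpos : (0 : ℝ) < R := by linarith
    have hp1le : (p1 : ℝ) ≤ 4 * C1 * w / η := by
      rw [le_div_iff₀ hη0]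
      have e1 : (R : ℝ) * (η / 2 * (p1 * l)) ≤ R * (C1 * w) := by linarith only [hmain]
      have e2 : η / 2 * (p1 * l) ≤ C1 * w := le_of_mul_le_mul_left e1 hRpos
      have e3 : (p1 : ℝ) * (1 / 2) ≤ p1 * l := mul_le_mul_of_nonneg_left hl hp1R.le
      have e4 : η / 2 * ((p1 : ℝ) * (1 / 2)) ≤ η / 2 * (p1 * l) :=
        mul_le_mul_of_nonneg_left e3 (by positivity)
      linarith only [e2, e4]
    have hp1gt' : 4 * C1 * w / η < p1 := by
      refine lt_of_le_of_lt (Nat.le_ceil _) ?_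
      exact_mod_cast hp1gt
    linarith
  rcases Set.eq_empty_or_nonempty S with hemp | hne
  · rw [hemp]
    exact Set.finite_empty
  obtain ⟨p0, hp0⟩ := hne
  have hq0 : 0 < q := by
    rw [hS] at hp0
    obtain ⟨z0, hz0⟩ := hp0
    exact hz0.qp.pos
  have hsub : S ⊆ ⋃ c ∈ (Finset.range q : Set ℕ), S ∩ {p | p % q = c} := by
    intro p hp
    simp only [Set.mem_iUnion]
    refine ⟨p % q, ?_, hp, rfl⟩
    rw [Finset.coe_range, Set.mem_Iio]
    exact Nat.mod_lt _ hq0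
  exact (Set.Finite.biUnion (Finset.range q).finite_toSet (fun c _ => hclass c)).subset hsub

end Pool.Agent.K9h9
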