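import Mathlib
import Pool.Agent.K9h9.FinP

/-!
# The main inequality when `b / B0` is congruent to one modulo the radical of `D`
-/

set_option autoImplicit false

namespace Pool.Agent.K9h9

open Finset

lemma pw_sub_one_nilpotent {R : Type*} [CommRing R] {q e : ℕ} (hq : q.Prime) {τ : R}
    (hτ : IsNilpotent τ) (he : 1 ≤ e) (g : ℤ) : IsNilpotent (pw q e τ g - 1) := by
  obtain ⟨e', rfl⟩ := Nat.exists_eq_add_of_le' he
  have h1 : pw q (e' + 1) τ g - 1 = ∑ n ∈ range e', (beta q g (n + 1) : R) * τ ^ (n + 1) := by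
    rw [pw, sum_range_succ', beta_zero_right hq]
    simp
  rw [h1]
  refine isNilpotent_sum ?_
  intro n _
  rw [pow_succ, ← mul_assoc]
  exact Commute.isNilpotent_mul_left (Commute.all _ _) hτ

/-- Divisibility of the linear form by a high power of `D`: second form. -/
theorem dvd_Nk_nil {q : ℕ} (hq : q.Prime) {c L K M : ℕ} {t : ℕ → ℕ → ℤ} (ht : Van q c L K M t)
    {D : ℕ} {b B0 X A : ℤ} (hD : IsCoprime (D : ℤ) (q * A * B0)) (hXA : (D : ℤ) ∣ X - A)
    (hpow : (D : ℤ) ^ M ∣ b ^ q * A ^ c - X ^ c * B0 ^ q)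
    (hnil : ∃ N : ℕ, (D : ℤ) ∣ (b - B0) ^ N) (k : ℕ) :
    (D : ℤ) ^ (M - k) ∣ Nk q c L K t b B0 X A k := by
  obtain ⟨e, he⟩ : ∃ e, e = M - k := ⟨_, rfl⟩
  rw [← he]
  rcases Nat.eq_zero_or_pos e with he0 | he0
  · rw [he0, pow_zero]
    exact one_dvd _
  have hcast : ∀ z : ℤ, ((D : ℤ) ^ e ∣ z) ↔ ((z : ZMod (D ^ e)) = 0) := by
    intro z
    rw [ZMod.intCast_zmod_eq_zero_iff_dvd]
    push_cast
    rfl
  have hunit : ∀ z : ℤ, IsCoprime (D : ℤ) z → IsUnit ((z : ZMod (D ^ e))) := by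
    intro z hz
    obtain ⟨u, v, huv⟩ := (hz.pow_left (m := e))
    have h1 : (v : ZMod (D ^ e)) * z = 1 := by
      have h2 : ((u * (D : ℤ) ^ e + v * z : ℤ) : ZMod (D ^ e)) = 1 := by rw [huv]; simp
      push_cast at h2
      have h3 : ((D : ZMod (D ^ e)) ^ e) = 0 := by
        have := ZMod.natCast_self (D ^ e)
        push_cast at this
        exact this
      rw [h3, mul_zero, zero_add] at h2
      exact h2
    exact IsUnit.of_mul_eq_one_right _ h1
  have hDq : IsCoprime (D : ℤ) q := hD.of_mul_right_left.of_mul_right_left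
  have hDA : IsCoprime (D : ℤ) A := hD.of_mul_right_left.of_mul_right_right
  have hDB : IsCoprime (D : ℤ) B0 := hD.of_mul_right_right
  have uq : IsUnit ((q : ZMod (D ^ e))) := by
    have := hunit q hDq
    push_cast at this
    exact this
  have uA := hunit A hDA
  have uB := hunit B0 hDB
  have hDX : IsCoprime (D : ℤ) X := by
    obtain ⟨m, hm⟩ := hXA
    have : X = A + D * m := by linarith
    rw [this]
    exact IsCoprime.add_mul_left_right hDA m
  have uX := hunit X hDX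
  obtain ⟨iq, hiq⟩ := uq.exists_left_inv
  obtain ⟨iA, hiA⟩ := uA.exists_left_inv
  obtain ⟨iB, hiB⟩ := uB.exists_left_inv
  obtain ⟨τ, hτ⟩ : ∃ τ : ZMod (D ^ e), τ = (X - A) * iA * iq ^ 2 := ⟨_, rfl⟩
  have hτe : τ ^ e = 0 := by
    rw [hτ, mul_pow, mul_pow]
    have h1 : ((X : ZMod (D ^ e)) - A) ^ e = 0 := by
      have h2 := (hcast ((X - A) ^ e)).mp (pow_dvd_pow_of_dvd hXA e)
      push_cast at h2
      exact h2
    rw [h1, zero_mul, zero_mul]
  obtain ⟨σ, hσ⟩ : ∃ σ : ZMod (D ^ e), σ = X * iA := ⟨_, rfl⟩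
  obtain ⟨α, hα⟩ : ∃ α : ZMod (D ^ e), α = b * iB := ⟨_, rfl⟩
  have hσ1 : pw q e τ q = σ := by
    rw [pw_self hq hτe, hτ, hσ]
    linear_combination ((X : ZMod (D ^ e)) * iA - A * iA) * (q * iq + 1) * hiq - hiA
  have hXσ : (X : ZMod (D ^ e)) = σ * A := by
    rw [hσ]
    linear_combination (-(X : ZMod (D ^ e))) * hiA
  have hbα : (b : ZMod (D ^ e)) = α * B0 := by
    rw [hα]
    linear_combination (-(b : ZMod (D ^ e))) * hiB
  have hαq : α ^ q = σ ^ c := by
    have h1 : (D : ℤ) ^ e ∣ b ^ q * A ^ c - X ^ c * B0 ^ q :=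
      (pow_dvd_pow _ (by omega)).trans hpow
    rw [hcast] at h1
    push_cast at h1
    rw [hXσ, hbα] at h1
    have h2 : (α ^ q - σ ^ c) * ((B0 : ZMod (D ^ e)) ^ q * A ^ c) = 0 := by
      rw [← h1]
      ring
    have h3 : IsUnit ((B0 : ZMod (D ^ e)) ^ q * A ^ c) := (uB.pow q).mul (uA.pow c)
    have h4 := (h3.mul_left_eq_zero).mp h2
    exact sub_eq_zero.mp h4
  have hpc : (pw q e τ c) ^ q = σ ^ c := by
    rw [← pw_pow hq hτe, mul_comm, pw_pow hq hτe, hσ1]
  have hτnil : IsNilpotent τ := ⟨e, hτe⟩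
  -- `pw c` is congruent to one modulo nilpotent elements
  have hpnil : IsNilpotent (pw q e τ c - 1) := pw_sub_one_nilpotent hq hτnil he0 c
  have hanil : IsNilpotent (α - 1) := by
    obtain ⟨N, hN⟩ := hnil
    have h1 : α - 1 = ((b : ZMod (D ^ e)) - B0) * iB := by
      rw [hα]
      linear_combination hiB
    rw [h1]
    refine Commute.isNilpotent_mul_right (Commute.all _ _) ⟨N * e, ?_⟩
    have h2 := (hcast (((b - B0) ^ N) ^ e)).mp (pow_dvd_pow_of_dvd hN e)
    push_cast at h2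
    rw [← pow_mul] at h2
    exact h2
  have hαp : α = pw q e τ c := by
    obtain ⟨β, hβ⟩ : ∃ β : ZMod (D ^ e), β = pw q e τ c := ⟨_, rfl⟩
    rw [← hβ] at hpnil hpc ⊢
    have h1 : (α - β) * ∑ i ∈ range q, α ^ i * β ^ (q - 1 - i) = 0 := by
      have h2 := (Commute.all α β).mul_geom_sum₂ q
      rw [h2, hαq, hpc, sub_self]
    have h3 : IsUnit (∑ i ∈ range q, α ^ i * β ^ (q - 1 - i)) := by
      have h4 : IsNilpotent (∑ i ∈ range q, α ^ i * β ^ (q - 1 - i) - q) := by
        have h5 : ∑ i ∈ range q, α ^ i * β ^ (q - 1 - i) - (q : ZMod (D ^ e)) =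
            ∑ i ∈ range q, (α ^ i * β ^ (q - 1 - i) - 1) := by
          rw [sum_sub_distrib, sum_const, card_range, nsmul_eq_mul, mul_one]
        rw [h5]
        refine isNilpotent_sum ?_
        intro i _
        have h6 : α ^ i * β ^ (q - 1 - i) - 1 =
            (α ^ i - 1) * β ^ (q - 1 - i) + (β ^ (q - 1 - i) - 1) := by ring
        rw [h6]
        have h7 : ∀ (u : ZMod (D ^ e)) (n : ℕ), IsNilpotent (u - 1) → IsNilpotent (u ^ n - 1) := by
          intro u n hu
          obtain ⟨v, hv⟩ := sub_one_dvd_pow_sub_one u n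
          rw [hv]
          exact Commute.isNilpotent_mul_right (Commute.all _ _) hu
        refine Commute.isNilpotent_add (Commute.all _ _) ?_ (h7 β _ hpnil)
        exact Commute.isNilpotent_mul_right (Commute.all _ _) (h7 α _ hanil)
      have h5 : ∑ i ∈ range q, α ^ i * β ^ (q - 1 - i) =
          (q : ZMod (D ^ e)) + (∑ i ∈ range q, α ^ i * β ^ (q - 1 - i) - q) := by ring
      rw [h5]
      exact IsNilpotent.isUnit_add_left_of_commute h4 uq (Commute.all _ _)
    exact sub_eq_zero.mp ((h3.mul_left_eq_zero).mp h1)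
  rw [hcast]
  have hmain : ((Nk q c L K t b B0 X A k : ℤ) : ZMod (D ^ e)) =
      (B0 : ZMod (D ^ e)) ^ (L - 1) * A ^ (K - 1) *
        ∑ n ∈ range e, τ ^ n * ((∑ i ∈ range L, ∑ j ∈ range K,
          t i j * beta q (i * c + j * q) k * beta q (i * c + j * q) n : ℤ) : ZMod (D ^ e)) := by
    rw [Nk]
    push_cast
    simp only [mul_sum]
    conv_rhs => rw [Finset.sum_comm]
    refine sum_congr rfl ?_
    intro i hi
    conv_rhs => rw [Finset.sum_comm]
    refine sum_congr rfl ?_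
    intro j hj
    have hi' := mem_range.mp hi
    have hj' := mem_range.mp hj
    have h1 : (b : ZMod (D ^ e)) ^ i * B0 ^ (L - 1 - i) * (X ^ j * A ^ (K - 1 - j)) =
        B0 ^ (L - 1) * A ^ (K - 1) * pw q e τ (i * c + j * q) := by
      rw [pw_add hq hτe, pw_pow hq hτe, pw_pow hq hτe, hσ1, ← hαp, hXσ, hbα]
      have h2 : (B0 : ZMod (D ^ e)) ^ (L - 1) = B0 ^ i * B0 ^ (L - 1 - i) := by
        rw [← pow_add]
        congr 1
        omega
      have h3 : (A : ZMod (D ^ e)) ^ (K - 1) = A ^ j * A ^ (K - 1 - j) := by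
        rw [← pow_add]
        congr 1
        omega
      rw [h2, h3]
      ring
    rw [h1, pw, mul_sum, mul_sum]
    refine sum_congr rfl ?_
    intro n _
    ring
  rw [hmain]
  rw [sum_eq_zero, mul_zero]
  intro n hn
  have := mem_range.mp hn
  rw [ht.prod hq (by omega)]
  simp

end Pool.Agent.K9h9
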