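import Mathlib
import Pool.Agent.K9h9.Params

/-!
# First key estimate: `m ≤ q ^ C` for the exceptional solutions
-/

set_option autoImplicit false

namespace Pool.Agent.K9h9

lemma key1_aux {η p q K M δ : ℝ} (hη0 : 0 < η) (hη1 : η ≤ 1) (hp : 3 ≤ p) (hq : 3 ≤ q)
    (hM : M = 2 * K - δ) (hcase : (δ = 1 ∧ M = p) ∨ (1 ≤ δ ∧ δ ≤ η * p / 16 ∧ p - 1 ≤ M)) :
    η * p / 2 ≤ (M - δ) * (1 / 2 + 1 / q + η) - (p - 1) / q - (K - 1) := by
  have hq0 : 0 < q := by linarith
  have h1 : (M - δ) * (1 / 2 + 1 / q + η) - (p - 1) / q - (K - 1) =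
      1 - δ + (M - δ - p + 1) / q + η * (M - δ) := by
    rw [hM]
    field_simp
    ring
  rw [h1]
  rcases hcase with ⟨h2, h3⟩ | ⟨h2, h3, h4⟩
  · rw [h2, h3]
    have : (p - 1 - p + 1) / q = 0 := by
      rw [show p - 1 - p + 1 = 0 by ring, zero_div]
    rw [this]
    nlinarith
  · have h5 : -(δ / 3) ≤ (M - δ - p + 1) / q := by
      rw [le_div_iff₀ hq0]
      nlinarith
    have h6 : η * (p - 1 - δ) ≤ η * (M - δ) := by
      apply mul_le_mul_of_nonneg_left _ hη0.le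
      linarith
    have h7 : η * δ ≤ δ := by nlinarith
    nlinarith

theorem key1 {η : ℝ} (hη0 : 0 < η) (hη1 : η ≤ 1) : ∃ C : ℝ, 0 < C ∧
    ∀ (x y z : ℤ) (p q D : ℕ) (m : ℝ), Sol x y z p q → (D : ℤ) ∣ y → ¬ q ∣ D * D.totient →
      m = max |(x : ℝ)| |(y : ℝ)| → |(y : ℝ)| ≤ D * m ^ (1 / 2 - 1 / (q : ℝ) - η) →
      Real.log m ≤ C * Real.log q := by
  refine ⟨2 / η * (30 * (32 / η + 1) + 6) + 6, by positivity, ?_⟩
  intro x y z p q D m h hDy hqD hm hbad
  have hm1 := h.m_pos hm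
  have hp3 := h.p3
  have hq3 := h.q3
  have hD0 : D ≠ 0 := by
    intro h1
    rw [h1, Nat.cast_zero, zero_dvd_iff] at hDy
    exact h.y0 hDy
  have hDR : (0 : ℝ) < D := by exact_mod_cast Nat.pos_of_ne_zero hD0
  have hy0' : 0 < |(y : ℝ)| := abs_pos.mpr (by exact_mod_cast h.y0)
  have hpR : (3 : ℝ) ≤ p := by exact_mod_cast hp3
  have hqR : (3 : ℝ) ≤ q := by exact_mod_cast hq3
  have hηp : η * p ≤ p := mul_le_of_le_one_left (by linarith) hη1
  have hw : 1 ≤ Real.log q := by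
    rw [Real.le_log_iff_exp_le (by positivity)]
    have h1 := Real.exp_one_lt_d9
    linarith
  obtain ⟨w, hwd⟩ : ∃ w, w = Real.log q := ⟨_, rfl⟩
  obtain ⟨l, hld⟩ : ∃ l, l = Real.log m := ⟨_, rfl⟩
  rw [← hwd, ← hld]
  rw [← hwd] at hw
  have hl0 : 0 ≤ l := by rw [hld]; exact Real.log_nonneg hm1
  obtain ⟨θ, hθ⟩ : ∃ θ : ℝ, θ = 1 / 2 - 1 / (q : ℝ) - η := ⟨_, rfl⟩
  rw [← hθ] at hbad
  have hlogE : Real.log (|(y : ℝ)| / D) ≤ θ * l := by
    have h1 : |(y : ℝ)| / D ≤ m ^ θ := by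
      rw [div_le_iff₀ hDR]
      linarith
    have h2 := Real.log_le_log (by positivity) h1
    rwa [Real.log_rpow (by linarith), ← hld] at h2
  have hlog16 : Real.log 16 ≤ 3 := by
    have h1 : Real.log 16 = 4 * Real.log 2 := by
      rw [show (16 : ℝ) = 2 ^ 4 by norm_num, Real.log_pow]
      norm_num
    have := Real.log_two_lt_d9
    linarith
  have hlog4 : Real.log 4 ≤ 2 := by
    have h1 : Real.log 4 = 2 * Real.log 2 := by
      rw [show (4 : ℝ) = 2 ^ 2 by norm_num, Real.log_pow]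
      norm_num
    have := Real.log_two_lt_d9
    linarith
  have hlog2 : Real.log 2 ≤ 1 := by
    have := Real.log_two_lt_d9
    linarith
  have hθ2 : 1 - θ = 1 / 2 + 1 / (q : ℝ) + η := by rw [hθ]; ring
  have hq1 : 0 < 1 / (q : ℝ) := by positivity
  -- the case of a negative left hand side
  rcases lt_or_ge ((1 - θ) * l - Real.log 16) 0 with hneg | hneg
  · have h1 : l ≤ 6 := by
      rw [hθ2] at hneg
      have h3 : 1 / 2 * l ≤ (1 / 2 + 1 / (q : ℝ) + η) * l :=
        mul_le_mul_of_nonneg_right (by linarith only [hq1, hη0]) hl0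
      linarith only [h3, hneg, hlog16]
    have h2 : 0 ≤ 2 / η * (30 * (32 / η + 1) + 6) * w := by positivity
    rw [add_mul]
    linarith only [h1, h2, hw]
  -- the parameters
  obtain ⟨δ, hδ⟩ : ∃ δ : ℕ, δ = max 1 ⌊η * p / 16⌋₊ := ⟨_, rfl⟩
  have hδ1 : 1 ≤ δ := by rw [hδ]; exact le_max_left _ _
  have hodd := h.oddp
  have hδcase : δ = 1 ∨ (δ : ℝ) ≤ η * p / 16 := by
    rcases le_total ⌊η * p / 16⌋₊ 1 with h1 | h1
    · left
      rw [hδ]
      exact max_eq_left h1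
    · right
      rw [hδ, max_eq_right h1]
      exact Nat.floor_le (by positivity)
  have hδp : η * p ≤ 32 * δ := by
    have h1 : η * p / 16 < ⌊η * p / 16⌋₊ + 1 := Nat.lt_floor_add_one _
    have h2 : (⌊η * p / 16⌋₊ : ℝ) ≤ δ := by
      rw [hδ]
      exact_mod_cast le_max_right _ _
    have h3 : (1 : ℝ) ≤ δ := by exact_mod_cast hδ1
    linarith
  have hδp2 : δ ≤ p := by
    rcases hδcase with h1 | h1
    · omega
    · have h2 : (δ : ℝ) ≤ p := by linarith only [h1, hηp, hpR]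
      exact_mod_cast h2
  obtain ⟨K, hK⟩ : ∃ K : ℕ, K = (p + δ) / 2 := ⟨_, rfl⟩
  obtain ⟨M, hM⟩ : ∃ M : ℕ, M = 2 * K - δ := ⟨_, rfl⟩
  have hM1 : p - 1 ≤ M := by omega
  have hM2 : M ≤ p := by omega
  have hM3 : 2 ≤ M := by omega
  have hMK : M + δ = 2 * K := by omega
  have hKp : K ≤ p := by omega
  have hK1 : 1 ≤ K := by omega
  obtain ⟨e, he1, he2, he3⟩ := app1 h hDy hqD hm (L := 2) (K := K) (M := M) (by norm_num)
    (by omega) hK1 hM3 hM2 (by omega)
  have hCC := log_CC_le (q := q) (L := 2) (K := K) (M := M) (p := p) (ρ := 32 / η) hq3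
    (by norm_num) hK1 hKp hM2 (by omega) (by omega) (by
      have h1 : ((2 * K : ℕ) : ℝ) - M = δ := by
        rw [← hMK]
        push_cast
        ring
      rw [h1]
      have h2 : (M : ℝ) ≤ p := by exact_mod_cast hM2
      rw [div_mul_eq_mul_div, le_div_iff₀ hη0]
      have h3 : (M : ℝ) * η ≤ p * η := mul_le_mul_of_nonneg_right h2 hη0.le
      linarith only [h3, hδp]) (by positivity)
  rw [← hwd] at hCC
  rw [← hld] at he3
  obtain ⟨cc, hcc⟩ : ∃ cc, cc = Real.log (CC q 2 K M (2 * p + K)) := ⟨_, rfl⟩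
  rw [← hcc] at hCC he3
  have hkap : 2 * K + 2 - M - 2 = δ := by omega
  rw [hkap] at he2
  have he2R : (M : ℝ) - δ ≤ e := by
    have : (M : ℝ) ≤ e + δ := by exact_mod_cast he2
    linarith
  have hMR : (M : ℝ) = 2 * K - δ := by
    have : (M : ℝ) + δ = 2 * K := by exact_mod_cast hMK
    linarith
  have hMp : (M : ℝ) ≤ p := by exact_mod_cast hM2
  have hKpR : (K : ℝ) ≤ p := by exact_mod_cast hKp
  have haux := key1_aux (η := η) (p := p) (q := q) (K := K) (M := M) (δ := δ) hη0 hη1 hpR hqR hMR (by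
    rcases hδcase with h1 | h1
    · left
      refine ⟨by exact_mod_cast h1, ?_⟩
      have h2 : M = p := by
        obtain ⟨k, hk⟩ := hodd
        omega
      exact_mod_cast h2
    · right
      refine ⟨by exact_mod_cast hδ1, h1, ?_⟩
      have h2 : p ≤ M + 1 := by omega
      have h3 : (p : ℝ) ≤ M + 1 := by exact_mod_cast h2
      linarith)
  have hMδ : (0 : ℝ) ≤ M - δ := by
    have h1 : δ ≤ M := by
      rcases hδcase with h1 | h1
      · omega
      · have h2 : (δ : ℝ) ≤ p / 16 := by linarith only [h1, hηp]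
        have h3 : (p : ℝ) ≤ M + 1 := by
          have h4 : p ≤ M + 1 := by omega
          exact_mod_cast h4
        have h5 : (δ : ℝ) ≤ M := by linarith only [h2, h3, hpR]
        exact_mod_cast h5
    have : (δ : ℝ) ≤ M := by exact_mod_cast h1
    linarith
  have hv : (1 - θ) * l - Real.log 16 ≤ l - Real.log 16 - Real.log (|(y : ℝ)| / D) := by
    linarith only [hlogE]
  have hleft : ((M : ℝ) - δ) * ((1 - θ) * l - Real.log 16) ≤
      e * (l - Real.log 16 - Real.log (|(y : ℝ)| / D)) :=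
    mul_le_mul he2R hv hneg (Nat.cast_nonneg _)
  have hfin := hleft.trans he3
  have hcast1 : ((2 - 1 : ℕ) : ℝ) = 1 := by norm_num
  have hcast2 : ((K - 1 : ℕ) : ℝ) = (K : ℝ) - 1 := by
    rw [Nat.cast_sub hK1]
    norm_num
  rw [hcast1, hcast2, hθ2] at hfin
  have hmain : η * p / 2 * l ≤ cc + (M - δ) * Real.log 16 + 1 / q * (p * Real.log 4) +
      (K - 1) * Real.log 2 := by
    have h1 := mul_le_mul_of_nonneg_right haux hl0
    have h2 : (((M : ℝ) - δ) * (1 / 2 + 1 / q + η) - (p - 1) / q - (K - 1)) * l =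
        (M - δ) * ((1 / 2 + 1 / q + η) * l) - 1 / q * ((p - 1) * l) - (K - 1) * l := by
      ring
    rw [h2] at h1
    linarith only [h1, hfin]
  have hb1 : ((M : ℝ) - δ) * Real.log 16 ≤ p * 3 := by
    have h1 : (M : ℝ) - δ ≤ p := by
      have : (0 : ℝ) ≤ δ := Nat.cast_nonneg _
      linarith
    have h2 : 0 ≤ Real.log 16 := Real.log_nonneg (by norm_num)
    exact mul_le_mul h1 hlog16 h2 (by linarith)
  have hb2 : 1 / (q : ℝ) * (p * Real.log 4) ≤ 2 * p := by
    have h1 : 1 / (q : ℝ) ≤ 1 := by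
      rw [div_le_one (by linarith)]
      linarith
    have h2 : (p : ℝ) * Real.log 4 ≤ p * 2 := mul_le_mul_of_nonneg_left hlog4 (by linarith)
    have h3 : 0 ≤ (p : ℝ) * Real.log 4 := mul_nonneg (by linarith) (Real.log_nonneg (by norm_num))
    have h4 : 1 / (q : ℝ) * (p * Real.log 4) ≤ 1 * (p * Real.log 4) :=
      mul_le_mul_of_nonneg_right h1 h3
    linarith only [h2, h4]
  have hb3 : ((K : ℝ) - 1) * Real.log 2 ≤ p := by
    have h1 : (0 : ℝ) ≤ (K : ℝ) - 1 := by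
      have : (1 : ℝ) ≤ K := by exact_mod_cast hK1
      linarith
    have h2 : ((K : ℝ) - 1) * Real.log 2 ≤ (K - 1) * 1 := mul_le_mul_of_nonneg_left hlog2 h1
    linarith only [h2, hKpR]
  have hb4 : 6 * (p : ℝ) ≤ 6 * p * w := le_mul_of_one_le_right (by linarith) hw
  have hmain2 : η * p / 2 * l ≤ (30 * (32 / η + 1) + 6) * (p * w) := by
    have h0 : ((2 : ℕ) : ℝ) = 2 := by norm_num
    rw [h0] at hCC
    have h1 : (30 * (32 / η + 1) + 6) * ((p : ℝ) * w) =
        (32 / η + 1) * (10 * 2 + 10) * (p * w) + 6 * p * w := by ring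
    rw [h1]
    linarith only [hCC, hb1, hb2, hb3, hb4, hmain]
  have hp0 : (0 : ℝ) < p := by linarith
  have hmain3 : l ≤ 2 / η * (30 * (32 / η + 1) + 6) * w := by
    have h1 : η * p / 2 * l ≤ η * p / 2 * (2 / η * (30 * (32 / η + 1) + 6) * w) := by
      refine hmain2.trans (le_of_eq ?_)
      field_simp
    exact le_of_mul_le_mul_left h1 (by positivity)
  rw [add_mul]
  linarith only [hmain3, hw]

end Pool.Agent.K9h9
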