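import Mathlib
import Pool.Agent.K9h9.Key1
import Pool.Agent.K9h9.FinP

/-!
# Finiteness of the exceptional solutions
-/

set_option autoImplicit false

namespace Pool.Agent.K9h9

lemma q_bounded (C : ℝ) (hC : 0 < C) : ∃ Q0 : ℕ, ∀ (x y z : ℤ) (p q : ℕ) (m : ℝ), Sol x y z p q →
    m = max |(x : ℝ)| |(y : ℝ)| → Real.log m ≤ C * Real.log q → q ≤ Q0 := by
  obtain ⟨K, hK⟩ : ∃ K : ℝ, K = 1200000 * 9 * (2 * C + 2) ^ 3 := ⟨_, rfl⟩
  have hK0 : 0 < K := by rw [hK]; positivity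
  have hlittle := (Real.isLittleO_pow_log_id_atTop (n := 5)).def (c := 1 / (2 * K)) (by positivity)
  rw [Filter.eventually_atTop] at hlittle
  obtain ⟨X0, hX0⟩ := hlittle
  refine ⟨⌈X0⌉₊, ?_⟩
  intro x y z p q m h hm hlog
  by_contra hcon
  push Not at hcon
  have hqX : X0 ≤ q := (Nat.le_ceil _).trans (by exact_mod_cast hcon.le)
  have hq3 := h.q3
  have hqR : (3 : ℝ) ≤ q := by exact_mod_cast hq3
  obtain ⟨w, hwd⟩ : ∃ w, w = Real.log q := ⟨_, rfl⟩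
  have hw : 1 ≤ w := by
    rw [hwd, Real.le_log_iff_exp_le (by positivity)]
    have h1 := Real.exp_one_lt_d9
    linarith
  have h1 := hX0 q hqX
  rw [← hwd] at hlog
  rw [← hwd, Real.norm_eq_abs, id, Real.norm_eq_abs, abs_of_nonneg (by positivity),
    abs_of_nonneg (by positivity)] at h1
  have hm1 := h.m_pos hm
  have hlog2 := Real.log_two_gt_d9
  have hlog2pos : 0 < Real.log 2 := by linarith
  obtain ⟨N, hN⟩ : ∃ N : ℕ, N = max x.natAbs y.natAbs := ⟨_, rfl⟩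
  have hNm : (N : ℝ) = m := by
    rw [hm, hN]
    push_cast
    rw [Nat.cast_natAbs, Nat.cast_natAbs]
    push_cast
    rfl
  have hNpos : 0 < N := by
    have : (0 : ℝ) < N := by rw [hNm]; linarith
    exact_mod_cast this
  obtain ⟨ν, hν⟩ : ∃ ν, ν = Nat.log 2 N + 1 := ⟨_, rfl⟩
  have hNlt : N < 2 ^ ν := by
    rw [hν]
    exact Nat.lt_pow_succ_log_self (by norm_num) N
  have hnatlog : ∀ n : ℕ, 0 < n → (Nat.log 2 n : ℝ) ≤ 2 * Real.log n := by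
    intro n hn
    have h2 : 2 ^ (Nat.log 2 n) ≤ n := Nat.pow_log_le_self 2 hn.ne'
    have h3 : ((2 : ℝ) ^ (Nat.log 2 n)) ≤ n := by exact_mod_cast h2
    have h4 := Real.log_le_log (by positivity) h3
    rw [Real.log_pow] at h4
    have h5 : (0 : ℝ) ≤ Nat.log 2 n := Nat.cast_nonneg _
    nlinarith
  have hqb := q_bound h (ν := ν) (by omega)
    (lt_of_le_of_lt (by rw [hN]; exact le_max_left _ _) hNlt)
    (lt_of_le_of_lt (by rw [hN]; exact le_max_right _ _) hNlt)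
  have hqbR : (q : ℝ) ≤ 1200000 * ((Nat.log 2 q : ℝ) + 1) ^ 2 * ((ν : ℝ) + 1) ^ 3 := by
    exact_mod_cast hqb.le
  have hν1 : (ν : ℝ) + 1 ≤ (2 * C + 2) * w := by
    have h2 := hnatlog N hNpos
    rw [hNm] at h2
    rw [hν]
    push_cast
    nlinarith
  have hq1 : (Nat.log 2 q : ℝ) + 1 ≤ 3 * w := by
    have h2 := hnatlog q (by omega)
    rw [← hwd] at h2
    linarith
  have h2 : (q : ℝ) ≤ K * w ^ 5 := by
    calc (q : ℝ) ≤ 1200000 * ((Nat.log 2 q : ℝ) + 1) ^ 2 * ((ν : ℝ) + 1) ^ 3 := hqbR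
      _ ≤ 1200000 * (3 * w) ^ 2 * ((2 * C + 2) * w) ^ 3 := by gcongr
      _ = K * w ^ 5 := by rw [hK]; ring
  have h3 : K * w ^ 5 ≤ q / 2 := by
    calc K * w ^ 5 ≤ K * (1 / (2 * K) * q) := by gcongr
      _ = q / 2 := by field_simp
  linarith

/-- The exceptional solutions are finite in number (one of the two symmetric halves). -/
theorem finite_bad {η : ℝ} (hη0 : 0 < η) (hη1 : η ≤ 1) :
    {t : ℤ × ℤ × ℤ × ℕ × ℕ | Sol t.1 t.2.1 t.2.2.1 t.2.2.2.1 t.2.2.2.2 ∧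
      ∃ D : ℕ, (D : ℤ) ∣ t.2.1 ∧ ¬ t.2.2.2.2 ∣ D * D.totient ∧
        |(t.2.1 : ℝ)| ≤ D * (max |(t.1 : ℝ)| |(t.2.1 : ℝ)|) ^
          (1 / 2 - 1 / (t.2.2.2.2 : ℝ) - η)}.Finite := by
  obtain ⟨C, hC0, hC⟩ := key1 hη0 hη1
  obtain ⟨Q0, hQ0⟩ := q_bounded C hC0
  obtain ⟨Y, hY⟩ : ∃ Y : Set (ℤ × ℤ × ℤ × ℕ × ℕ),
      Y = {t : ℤ × ℤ × ℤ × ℕ × ℕ | Sol t.1 t.2.1 t.2.2.1 t.2.2.2.1 t.2.2.2.2 ∧
      ∃ D : ℕ, (D : ℤ) ∣ t.2.1 ∧ ¬ t.2.2.2.2 ∣ D * D.totient ∧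
        |(t.2.1 : ℝ)| ≤ D * (max |(t.1 : ℝ)| |(t.2.1 : ℝ)|) ^
          (1 / 2 - 1 / (t.2.2.2.2 : ℝ) - η)} := ⟨_, rfl⟩
  rw [← hY]
  obtain ⟨N, hN⟩ : ∃ N : ℕ, N = ⌈Real.exp (C * Real.log Q0)⌉₊ := ⟨_, rfl⟩
  -- the projection forgetting `z` is injective
  apply Set.Finite.of_finite_image (f := fun t : ℤ × ℤ × ℤ × ℕ × ℕ =>
    (t.1, t.2.1, t.2.2.2.1, t.2.2.2.2))
  swap
  · rintro ⟨x, y, z, p, q⟩ ht ⟨x', y', z', p', q'⟩ ht' heq
    simp only [Prod.mk.injEq] at heq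
    obtain ⟨rfl, rfl, rfl, rfl⟩ := heq
    rw [hY] at ht ht'
    have h1 := ht.1
    have h2 := ht'.1
    simp only at h1 h2
    have h3 : z ^ q = z' ^ q := by rw [← h1.eq, ← h2.eq]
    have h4 : z = z' := h1.oddq.strictMono_pow.injective h3
    rw [h4]
  -- the finitely many possibilities
  obtain ⟨P, hP⟩ : ∃ P : ℤ → ℤ → ℕ → ℕ → Set ℕ, ∀ x y q D, P x y q D =
      {p : ℕ | (∃ z : ℤ, Sol x y z p q) ∧ (D : ℤ) ∣ y ∧ ¬ q ∣ D * D.totient ∧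
        |(y : ℝ)| ≤ D * (max |(x : ℝ)| |(y : ℝ)|) ^ (1 / 2 - 1 / (q : ℝ) - η)} :=
    ⟨_, fun _ _ _ _ => rfl⟩
  have hPfin : ∀ x y q D, (P x y q D).Finite := by
    intro x y q D
    rw [hP]
    by_cases h : (D : ℤ) ∣ y ∧ ¬ q ∣ D * D.totient ∧
        |(y : ℝ)| ≤ D * (max |(x : ℝ)| |(y : ℝ)|) ^ (1 / 2 - 1 / (q : ℝ) - η)
    · exact (finite_p hη0 hη1 x y q D h.1 h.2.1 rfl h.2.2).subset (fun p hp => hp.1)
    · refine Set.finite_empty.subset ?_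
      intro p hp
      exact h hp.2
  have hfin : (⋃ x ∈ (Finset.Icc (-(N : ℤ)) N : Set ℤ), ⋃ y ∈ (Finset.Icc (-(N : ℤ)) N : Set ℤ),
      ⋃ q ∈ (Finset.range (Q0 + 1) : Set ℕ), ⋃ D ∈ (Finset.range (N + 1) : Set ℕ),
      (fun p : ℕ => (x, y, p, q)) '' (P x y q D)).Finite := by
    refine Set.Finite.biUnion (Finset.finite_toSet _) (fun x _ => ?_)
    refine Set.Finite.biUnion (Finset.finite_toSet _) (fun y _ => ?_)
    refine Set.Finite.biUnion (Finset.finite_toSet _) (fun q _ => ?_)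
    refine Set.Finite.biUnion (Finset.finite_toSet _) (fun D _ => ?_)
    exact (hPfin x y q D).image _
  refine hfin.subset ?_
  rintro _ ⟨⟨x, y, z, p, q⟩, ht, rfl⟩
  rw [hY] at ht
  obtain ⟨h1, D, hD1, hD2, hD3⟩ := ht
  simp only at h1 hD1 hD2 hD3
  have hlog := hC x y z p q D _ h1 hD1 hD2 rfl hD3
  have hq := hQ0 x y z p q _ h1 rfl hlog
  have hq3 := h1.q3
  have hm1 := h1.m_pos rfl
  have hmN : max |(x : ℝ)| |(y : ℝ)| ≤ N := by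
    rw [hN]
    refine le_trans ?_ (Nat.le_ceil _)
    rw [← Real.log_le_iff_le_exp (by linarith)]
    refine hlog.trans ?_
    have h2 : Real.log q ≤ Real.log Q0 := by
      apply Real.log_le_log
      · have : 0 < q := by omega
        exact_mod_cast this
      · exact_mod_cast hq
    gcongr
  have hx : |(x : ℝ)| ≤ N := (le_max_left _ _).trans hmN
  have hy : |(y : ℝ)| ≤ N := (le_max_right _ _).trans hmN
  have hxZ : |x| ≤ N := by exact_mod_cast hx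
  have hyZ : |y| ≤ N := by exact_mod_cast hy
  have hDN : D ≤ N := by
    have h2 : (D : ℤ) ≤ |y| := Int.le_of_dvd (abs_pos.mpr h1.y0) ((dvd_abs _ _).mpr hD1)
    have h3 : (D : ℤ) ≤ N := h2.trans hyZ
    exact_mod_cast h3
  simp only [Set.mem_iUnion]
  refine ⟨x, ?_, y, ?_, q, ?_, D, ?_, p, ?_, rfl⟩
  · rw [Finset.mem_coe, Finset.mem_Icc]
    exact abs_le.mp hxZ
  · rw [Finset.mem_coe, Finset.mem_Icc]
    exact abs_le.mp hyZ
  · rw [Finset.mem_coe, Finset.mem_range]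
    omega
  · rw [Finset.mem_coe, Finset.mem_range]
    omega
  · rw [hP]
    exact ⟨⟨z, h1⟩, hD1, hD2, hD3⟩

end Pool.Agent.K9h9
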