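import Mathlib
import Pool.Agent.K9h9.App2

/-!
# Two solutions with the same `x`, `y`, `q`: auxiliary polynomials of any degree
-/

set_option autoImplicit false

namespace Pool.Agent.K9h9

open Finset

theorem app2L {x y z1 z2 : ℤ} {p1 p2 q n : ℕ} (h1 : Sol x y z1 p1 q) (h2 : Sol x y z2 p2 q)
    (hn : p2 = p1 + q * n) {D : ℕ} (hDy : (D : ℤ) ∣ y) (hqD : ¬ q ∣ D * D.totient) {m : ℝ}
    (hm : m = max |(x : ℝ)| |(y : ℝ)|) {L K M : ℕ} (hL1 : 1 ≤ L) (hLq : L ≤ q) (hK : 1 ≤ K) (hM2 : L ≤ M)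
    (hMK : M < L * K) (hMp : p1 * M ≤ p2) :
    ∃ e : ℕ, e ≤ M ∧ M ≤ e + (L * K + L - M - 2) ∧
      (e : ℝ) * (p1 * (Real.log m - Real.log (|(y : ℝ)| / D))) ≤
        e * Real.log 8 + Real.log (CC q L K M K) +
        (L - 1 : ℕ) * (Real.log 2 + p2 / q * Real.log m) +
        (K - 1 : ℕ) * (Real.log 2 + p1 * Real.log m) := by
  have hm1 := h1.m_pos hm
  have hmpos : 0 < m := by linarith
  have hp3 := h1.p3
  have hq3 := h1.q3
  have hmx : |(x : ℝ)| ≤ m := by rw [hm]; exact le_max_left _ _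
  have hmy : |(y : ℝ)| ≤ m := by rw [hm]; exact le_max_right _ _
  have hD0 : D ≠ 0 := by
    intro h
    rw [h, Nat.cast_zero, zero_dvd_iff] at hDy
    exact h1.y0 hDy
  have hqD1 : ¬ q ∣ D := fun h => hqD (h.mul_right _)
  have hqD2 : ¬ q ∣ D.totient := fun h => hqD (h.mul_left _)
  have hx0' : (x : ℝ) ≠ 0 := by exact_mod_cast h1.x0
  have hy0' : (y : ℝ) ≠ 0 := by exact_mod_cast h1.y0
  have hz10 : (z1 : ℝ) ≠ 0 := by exact_mod_cast h1.z0
  have hz20 : (z2 : ℝ) ≠ 0 := by exact_mod_cast h2.z0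
  have hqR : (0 : ℝ) < q := by exact_mod_cast h1.qp.pos
  have he1R : (z1 : ℝ) ^ q = x ^ p1 + y ^ p1 := by exact_mod_cast h1.eq.symm
  have he2R : (z2 : ℝ) ^ q = x ^ p2 + y ^ p2 := by exact_mod_cast h2.eq.symm
  have hDq : IsCoprime (D : ℤ) (q : ℤ) := by
    rw [Nat.isCoprime_iff_coprime, Nat.coprime_comm]
    exact (Nat.Prime.coprime_iff_not_dvd h1.qp).mpr hqD1
  have hDx : IsCoprime (D : ℤ) x := (h1.cop.of_isCoprime_of_dvd_right hDy).symm
  have hDz : IsCoprime (D : ℤ) z2 := (h2.cop_z.of_isCoprime_of_dvd_right hDy).symm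
  obtain ⟨D', hD'⟩ : ∃ D' : ℕ, D' = D ^ p1 := ⟨_, rfl⟩
  have hD'Z : (D' : ℤ) = (D : ℤ) ^ p1 := by rw [hD']; push_cast; rfl
  -- bounds
  obtain ⟨Hb, hHb⟩ : ∃ Hb : ℝ, Hb = 2 * m ^ ((p2 : ℝ) / q) := ⟨_, rfl⟩
  have hroot : ∀ (u : ℝ) (k : ℕ), |u ^ q| ≤ 2 * m ^ k → |u| ≤ 2 * m ^ ((k : ℝ) / q) := by
    intro u k hu
    refine le_of_pow_le_pow_left₀ h1.qp.ne_zero (by positivity) ?_
    rw [← abs_pow]
    refine hu.trans ?_
    rw [mul_pow]
    have h3 : (m ^ ((k : ℝ) / q)) ^ q = m ^ k := by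
      rw [← Real.rpow_natCast, ← Real.rpow_mul hmpos.le, div_mul_cancel₀ _ hqR.ne',
        Real.rpow_natCast]
    rw [h3]
    have h4 : (2 : ℝ) ≤ 2 ^ q := le_self_pow₀ (by norm_num) h1.qp.ne_zero
    gcongr
  have hz2H : |(z2 : ℝ)| ≤ Hb := by
    rw [hHb]
    exact hroot _ _ (h2.abs_z_le hm)
  have hbH : |((z1 * x ^ n : ℤ) : ℝ)| ≤ Hb := by
    push_cast
    have h3 := hroot _ _ (h1.abs_z_le hm)
    rw [abs_mul, abs_pow, hHb]
    have h4 : (m : ℝ) ^ ((p2 : ℝ) / q) = m ^ ((p1 : ℝ) / q) * m ^ n := by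
      rw [hn]
      push_cast
      rw [add_div, mul_div_cancel_left₀ _ hqR.ne', Real.rpow_add hmpos, Real.rpow_natCast]
    rw [h4, ← mul_assoc]
    have h5 : |(x : ℝ)| ^ n ≤ m ^ n := pow_le_pow_left₀ (abs_nonneg _) hmx _
    exact mul_le_mul h3 h5 (by positivity) (by positivity)
  have hXH : |((z1 ^ q : ℤ) : ℝ)| ≤ 2 * m ^ p1 := by
    push_cast
    exact h1.abs_z_le hm
  have hAH : |((x ^ p1 : ℤ) : ℝ)| ≤ 2 * m ^ p1 := by
    push_cast
    rw [abs_pow]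
    have h3 : |(x : ℝ)| ^ p1 ≤ m ^ p1 := pow_le_pow_left₀ (abs_nonneg _) hmx _
    have h4 : 0 < m ^ p1 := by positivity
    linarith
  have hG : (L - 1) * 1 + (K - 1) * q ≤ K * q := by
    have h3 : (K - 1) * q + q = K * q := by
      rw [← Nat.succ_mul, Nat.succ_eq_add_one, Nat.sub_add_cancel hK]
    omega
  have hDtot : IsCoprime (D' : ℤ) (q * (x ^ p1) * z2) := by
    rw [hD'Z]
    exact IsCoprime.pow_left ((hDq.mul_right hDx.pow_right).mul_right hDz)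
  have hXA : z1 ^ q - x ^ p1 = y ^ p1 := by rw [← h1.eq]; ring
  have hpow : (D' : ℤ) ^ M ∣ (z1 * x ^ n) ^ q * (x ^ p1) ^ 1 - (z1 ^ q) ^ 1 * z2 ^ q := by
    have h3 : (z1 * x ^ n) ^ q * (x ^ p1) ^ 1 - (z1 ^ q) ^ 1 * z2 ^ q = -(z1 ^ q * y ^ p2) := by
      have h4 : x ^ p2 = x ^ p1 * (x ^ n) ^ q := by
        rw [hn, pow_add, ← pow_mul, mul_comm n q]
      rw [← h2.eq, h4]
      ring
    rw [h3, hD'Z, ← pow_mul]
    rw [dvd_neg]
    exact ((pow_dvd_pow_of_dvd hDy _).trans (pow_dvd_pow _ hMp)).mul_left _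
  have hφ : ¬ q ∣ D'.totient := by
    intro h3
    rw [hD'] at h3
    rcases totient_pow_dvd h1.qp (by omega) h3 with h4 | h4
    · exact hqD1 h4
    · exact hqD2 h4
  have hδ : |((z1 ^ q : ℤ) : ℝ) / ((x ^ p1 : ℤ) : ℝ) - 1| = |(y : ℝ) / x| ^ p1 := by
    push_cast
    rw [he1R, add_div, div_self (pow_ne_zero _ hx0'), add_sub_cancel_left, ← div_pow, abs_pow]
  have harch : |((z1 ^ q : ℤ) : ℝ) / ((x ^ p1 : ℤ) : ℝ) - 1| ≤ 1 / 8 →
      |(((z1 * x ^ n : ℤ) : ℝ) / (z2 : ℝ)) ^ q / (((z1 ^ q : ℤ) : ℝ) / ((x ^ p1 : ℤ) : ℝ)) ^ 1 - 1| ≤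
        (4 * |((z1 ^ q : ℤ) : ℝ) / ((x ^ p1 : ℤ) : ℝ) - 1|) ^ M := by
    intro h3
    rw [hδ] at h3 ⊢
    have hyx1 : |(y : ℝ) / x| ≤ 1 := by
      by_contra hcon
      push Not at hcon
      have := one_le_pow₀ (n := p1) hcon.le
      linarith
    obtain ⟨τ, hτ⟩ : ∃ τ : ℝ, τ = (y / x) ^ p2 := ⟨_, rfl⟩
    have hτle : |τ| ≤ (|(y : ℝ) / x| ^ p1) ^ M := by
      rw [hτ, abs_pow, ← pow_mul]
      exact pow_le_pow_of_le_one (abs_nonneg _) hyx1 hMp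
    have hτ8 : |τ| ≤ 1 / 8 := by
      refine hτle.trans ?_
      refine (pow_le_of_le_one (by positivity) (by linarith) (by omega)).trans h3
    have hτ8' := abs_le.mp hτ8
    have h1τ : 0 < 1 + τ := by linarith
    have h4 : (((z1 * x ^ n : ℤ) : ℝ) / (z2 : ℝ)) ^ q /
        (((z1 ^ q : ℤ) : ℝ) / ((x ^ p1 : ℤ) : ℝ)) ^ 1 - 1 = -τ / (1 + τ) := by
      push_cast
      rw [pow_one, div_pow, mul_pow]
      have h5 : (z2 : ℝ) ^ q = (x : ℝ) ^ p1 * ((x : ℝ) ^ n) ^ q * (1 + τ) := by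
        rw [he2R, hτ, div_pow]
        have h6 : (x : ℝ) ^ p2 = x ^ p1 * (x ^ n) ^ q := by
          rw [hn, pow_add, ← pow_mul, mul_comm n q]
        rw [← h6]
        field_simp
      rw [h5]
      have h7 : (z1 : ℝ) ^ q ≠ 0 := pow_ne_zero _ hz10
      have h8 : (x : ℝ) ^ p1 ≠ 0 := pow_ne_zero _ hx0'
      have h9 : ((x : ℝ) ^ n) ^ q ≠ 0 := pow_ne_zero _ (pow_ne_zero _ hx0')
      field_simp
      ring
    rw [h4, abs_div, abs_neg, abs_of_pos h1τ, div_le_iff₀ h1τ, mul_pow]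
    have h5 : (4 : ℝ) ≤ 4 ^ M := le_self_pow₀ (by norm_num) (by omega)
    have h6 : 0 ≤ (|(y : ℝ) / x| ^ p1) ^ M := by positivity
    calc |τ| ≤ (|(y : ℝ) / x| ^ p1) ^ M := hτle
      _ = 2 * (|(y : ℝ) / x| ^ p1) ^ M * (1 / 2) := by ring
      _ ≤ 4 ^ M * (|(y : ℝ) / x| ^ p1) ^ M * (1 + τ) := by
        apply mul_le_mul _ (by linarith) (by norm_num) (by positivity)
        gcongr
        linarith
  have hq1 : ¬ q ∣ 1 := by
    intro h3
    have := Nat.le_of_dvd one_pos h3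
    omega
  obtain ⟨e, he1, he2, he3, he4⟩ := main_ineq h1.qp h1.q2 hq1 (L := L) hL1 hLq hK
    hM2 hMK hG (b := z1 * x ^ n) (B0 := z2) (X := z1 ^ q) (A := x ^ p1)
    (mul_ne_zero h1.z0 (pow_ne_zero _ h1.x0)) h2.z0 (pow_ne_zero _ h1.z0) (pow_ne_zero _ h1.x0)
    (by
      intro h3
      rw [h3, sub_self] at hXA
      exact pow_ne_zero _ h1.y0 hXA.symm)
    hDtot (by rw [hXA, hD'Z]; exact pow_dvd_pow_of_dvd hDy _) hpow hφ harch hbH hz2H hXH hAH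
  refine ⟨e, he1, he2, ?_⟩
  rw [hδ] at he4
  obtain ⟨T, hT⟩ : ∃ T : ℝ, T = CC q L K M K * (Hb ^ (L - 1) * (2 * m ^ p1) ^ (K - 1)) :=
    ⟨_, rfl⟩
  rw [← hT] at he3 he4
  have hCCpos : 0 < CC q L K M K := by
    have h1 : 0 < L * K := Nat.mul_pos hL1 hK
    have h2 : (0 : ℝ) < (L * K : ℕ) := by exact_mod_cast h1
    have h3 : (0 : ℝ) < 5 * Real.exp (2 * (K : ℕ)) := by positivity
    rw [CC]
    positivity
  have hTpos : 0 < T := by rw [hT, hHb]; positivity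
  have hlogT : Real.log T = Real.log (CC q L K M K) +
        (L - 1 : ℕ) * (Real.log 2 + p2 / q * Real.log m) +
        (K - 1 : ℕ) * (Real.log 2 + p1 * Real.log m) := by
    rw [hT, hHb, Real.log_mul hCCpos.ne' (by positivity), Real.log_mul (by positivity) (by positivity)]
    rw [Real.log_pow, Real.log_mul (by norm_num) (by positivity), Real.log_rpow hmpos, Real.log_pow,
      Real.log_mul (by norm_num) (by positivity), Real.log_pow]
    ring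
  have hDR : (0 : ℝ) < D := by exact_mod_cast Nat.pos_of_ne_zero hD0
  have hD'R : (D' : ℝ) = (D : ℝ) ^ p1 := by rw [hD']; push_cast; rfl
  obtain ⟨E, hE⟩ : ∃ E : ℝ, E = |(y : ℝ)| / D := ⟨_, rfl⟩
  have hypos : 0 < |(y : ℝ)| := abs_pos.mpr hy0'
  have hxpos : 0 < |(x : ℝ)| := abs_pos.mpr hx0'
  have hEpos : 0 < E := by rw [hE]; positivity
  have hyE : |(y : ℝ)| = D * E := by rw [hE]; field_simp
  rw [← hE]
  have hkey : (m / E) ^ (p1 * e) ≤ 8 ^ e * T := by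
    rw [hD'R] at he3 he4
    rcases le_total |(x : ℝ)| |(y : ℝ)| with h2 | h2
    · have hmy2 : m = |(y : ℝ)| := by rw [hm]; exact max_eq_right h2
      have h3 : m / E = D := by
        rw [hmy2, hyE]
        field_simp
      rw [h3, pow_mul]
      refine he3.trans ?_
      exact le_mul_of_one_le_left hTpos.le (one_le_pow₀ (by norm_num))
    · have hmx2 : m = |(x : ℝ)| := by rw [hm]; exact max_eq_left h2
      have h3 : m / E = D / |(y : ℝ) / x| := by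
        rw [hmx2, abs_div, hyE]
        field_simp
      have h4 : 0 < |(y : ℝ) / x| := by rw [abs_div]; positivity
      rw [h3, div_pow, div_le_iff₀ (by positivity)]
      calc (D : ℝ) ^ (p1 * e) = ((D : ℝ) ^ p1) ^ e := by rw [pow_mul]
        _ ≤ T * (8 * |(y : ℝ) / x| ^ p1) ^ e := he4
        _ = 8 ^ e * T * |(y : ℝ) / x| ^ (p1 * e) := by rw [mul_pow, pow_mul]; ring
  have h6 := Real.log_le_log (by positivity) hkey
  rw [Real.log_pow, Real.log_div hmpos.ne' hEpos.ne', Real.log_mul (by positivity) hTpos.ne',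
    Real.log_pow, hlogT] at h6
  push_cast at h6
  linarith

end Pool.Agent.K9h9
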