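import Mathlib
import Pool.Agent.K9h9.App2L
import Pool.Agent.K9h9.Final1

/-!
# The estimates with auxiliary polynomials of any degree
-/

set_option autoImplicit false
set_option maxHeartbeats 1000000

namespace Pool.Agent.K9h9

lemma auxL {η q L K M δ R : ℝ} (hη0 : 0 < η) (hη1 : η ≤ 1) (hL : 2 ≤ L) (hLq : L ≤ q)
    (hM : M = L * K - δ) (hδ0 : 0 ≤ δ) (hδ : δ ≤ η * R / 16) (hMR : R - L + 1 ≤ M)
    (hR : 13 * L ≤ η * R) :
    η * R / 2 ≤ (M - δ - L + 2) * (1 / L + (L - 1) / q + η) - (L - 1) / q * (R + 1) - (K - 1) := by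
  have hq0 : 0 < q := by linarith
  have hL0 : 0 < L := by linarith
  obtain ⟨c, hc⟩ : ∃ c, c = (L - 1) / q := ⟨_, rfl⟩
  have hc0 : 0 ≤ c := by rw [hc]; exact div_nonneg (by linarith) hq0.le
  have hc1 : c ≤ 1 := by
    rw [hc, div_le_one hq0]
    linarith
  rw [← hc]
  have hK : K = (M + δ) / L := by
    rw [hM]
    field_simp
    ring
  have h1 : (M - δ - L + 2) * (1 / L) - (K - 1) = (2 - 2 * δ) / L := by
    rw [hK]
    field_simp
    ring
  have h2 : -δ ≤ (2 - 2 * δ) / L := by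
    rw [le_div_iff₀ hL0]
    nlinarith
  have h3 : -(δ + 2 * L - 2) ≤ c * (M - δ - L + 1 - R) := by
    have h4 : c * (δ + 2 * L - 2) ≤ 1 * (δ + 2 * L - 2) :=
      mul_le_mul_of_nonneg_right hc1 (by linarith)
    have h5 : c * (-(δ + 2 * L - 2)) ≤ c * (M - δ - L + 1 - R) :=
      mul_le_mul_of_nonneg_left (by linarith) hc0
    linarith
  have h6 : η * (R - 2 * L + 3 - δ) ≤ η * (M - δ - L + 2) :=
    mul_le_mul_of_nonneg_left (by linarith) hη0.le
  have h7 : η * δ ≤ δ := mul_le_of_le_one_left hδ0 hη1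
  have h8 : η * L ≤ L := mul_le_of_le_one_left hL0.le hη1
  have h9 : (M - δ - L + 2) * (1 / L + c + η) - c * (R + 1) - (K - 1) =
      ((M - δ - L + 2) * (1 / L) - (K - 1)) + c * (M - δ - L + 1 - R) + η * (M - δ - L + 2) := by
    ring
  rw [h9, h1]
  nlinarith

/-- The choice of the parameters for a given `R`. -/
lemma choose_params {η : ℝ} (hη0 : 0 < η) (hη1 : η ≤ 1) {L R : ℕ} (hL : 2 ≤ L)
    (hR : 32 * L ≤ η * R) : ∃ δ K M : ℕ, 1 ≤ δ ∧ (δ : ℝ) ≤ η * R / 16 ∧ η * R ≤ 32 * δ ∧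
      M + δ = L * K ∧ M ≤ R ∧ R ≤ M + (L - 1) ∧ K ≤ R ∧ 1 ≤ K ∧ L ≤ M ∧ δ + L ≤ M + 2 := by
  have hLR : (2 : ℝ) ≤ L := by exact_mod_cast hL
  have hR0 : (0 : ℝ) ≤ R := Nat.cast_nonneg _
  have hηR : η * R ≤ R := mul_le_of_le_one_left hR0 hη1
  have hR32 : 32 * L ≤ R := by
    have : (32 : ℝ) * L ≤ R := hR.trans hηR
    exact_mod_cast this
  obtain ⟨δ, hδ⟩ : ∃ δ : ℕ, δ = ⌊η * R / 16⌋₊ := ⟨_, rfl⟩
  have hδle : (δ : ℝ) ≤ η * R / 16 := by
    rw [hδ]
    exact Nat.floor_le (by positivity)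
  have hδge : η * R ≤ 32 * δ := by
    have e1 : η * R / 16 < ⌊η * R / 16⌋₊ + 1 := Nat.lt_floor_add_one _
    rw [← hδ] at e1
    linarith
  have hδ1 : 1 ≤ δ := by
    have e1 : (0 : ℝ) < δ := by linarith
    exact_mod_cast e1
  have hδR : 16 * δ ≤ R := by
    have e1 : 16 * (δ : ℝ) ≤ R := by linarith
    exact_mod_cast e1
  obtain ⟨K, hK⟩ : ∃ K : ℕ, K = (R + δ) / L := ⟨_, rfl⟩
  have hK1 : L * K ≤ R + δ := by
    rw [hK]
    exact Nat.mul_div_le _ _
  have hK2 : R + δ < L * K + L := by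
    rw [hK]
    have := Nat.lt_mul_div_succ (R + δ) (show 0 < L by omega)
    rw [Nat.mul_add, Nat.mul_one] at this
    exact this
  obtain ⟨M, hM⟩ : ∃ M : ℕ, M = L * K - δ := ⟨_, rfl⟩
  refine ⟨δ, K, M, hδ1, hδle, hδge, by omega, by omega, by omega, ?_, ?_, by omega, by omega⟩
  · have e1 : 2 * K ≤ L * K := Nat.mul_le_mul_right _ hL
    omega
  · rcases Nat.eq_zero_or_pos K with h | h
    · rw [h] at hK2
      omega
    · exact h

theorem key2 {η : ℝ} (hη0 : 0 < η) (hη1 : η ≤ 1) {L : ℕ} (hL : 2 ≤ L) : ∃ (P0 : ℕ) (C : ℝ), 0 < C ∧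
    ∀ (x y z : ℤ) (p q D : ℕ) (m : ℝ), Sol x y z p q → L ≤ q → P0 ≤ p → (D : ℤ) ∣ y →
      ¬ q ∣ D * D.totient → m = max |(x : ℝ)| |(y : ℝ)| →
      |(y : ℝ)| ≤ D * m ^ (1 - 1 / (L : ℝ) - ((L : ℝ) - 1) / (q : ℝ) - η) →
      Real.log m ≤ C * Real.log q := by
  obtain ⟨C1, hC1⟩ : ∃ C1 : ℝ, C1 = (32 / η + 1) * (10 * L + 10) + 3 * L + 6 := ⟨_, rfl⟩
  have hC10 : 0 < C1 := by rw [hC1]; positivity
  refine ⟨⌈32 * L / η⌉₊, 2 * C1 / η + 3 * L, by positivity, ?_⟩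
  intro x y z p q D m h hLq hpP hDy hqD hm hbad
  have hm1 := h.m_pos hm
  have hp3 := h.p3
  have hq3 := h.q3
  have hD0 : D ≠ 0 := by
    intro h1
    rw [h1, Nat.cast_zero, zero_dvd_iff] at hDy
    exact h.y0 hDy
  have hDR : (0 : ℝ) < D := by exact_mod_cast Nat.pos_of_ne_zero hD0
  have hy0' : 0 < |(y : ℝ)| := abs_pos.mpr (by exact_mod_cast h.y0)
  have hpR : (3 : ℝ) ≤ p := by exact_mod_cast hp3
  have hqR : (3 : ℝ) ≤ q := by exact_mod_cast hq3
  have hLR : (2 : ℝ) ≤ L := by exact_mod_cast hL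
  have hLqR : (L : ℝ) ≤ q := by exact_mod_cast hLq
  have hηp : 32 * L ≤ η * p := by
    have h1 : 32 * L / η ≤ (⌈32 * L / η⌉₊ : ℝ) := Nat.le_ceil _
    have h2 : ((⌈32 * L / η⌉₊ : ℕ) : ℝ) ≤ p := by exact_mod_cast hpP
    have h3 : 32 * L / η ≤ p := h1.trans h2
    rw [div_le_iff₀ hη0] at h3
    linarith
  obtain ⟨w, hwd⟩ : ∃ w, w = Real.log q := ⟨_, rfl⟩
  obtain ⟨l, hld⟩ : ∃ l, l = Real.log m := ⟨_, rfl⟩
  have hw : 1 ≤ w := by
    rw [hwd, Real.le_log_iff_exp_le (by positivity)]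
    have h1 := Real.exp_one_lt_d9
    linarith
  rw [← hwd, ← hld]
  have hl0 : 0 ≤ l := by rw [hld]; exact Real.log_nonneg hm1
  obtain ⟨θ', hθ'⟩ : ∃ θ' : ℝ, θ' = 1 / (L : ℝ) + ((L : ℝ) - 1) / (q : ℝ) + η := ⟨_, rfl⟩
  have hθeq : 1 - 1 / (L : ℝ) - ((L : ℝ) - 1) / (q : ℝ) - η = 1 - θ' := by rw [hθ']; ring
  rw [hθeq] at hbad
  have hlogE : Real.log (|(y : ℝ)| / D) ≤ (1 - θ') * l := by
    have h1 : |(y : ℝ)| / D ≤ m ^ (1 - θ') := by
      rw [div_le_iff₀ hDR]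
      linarith
    have h2 := Real.log_le_log (by positivity) h1
    rwa [Real.log_rpow (by linarith), ← hld] at h2
  have hlog16 : Real.log 16 ≤ 3 := by
    have h1 : Real.log 16 = 4 * Real.log 2 := by
      rw [show (16 : ℝ) = 2 ^ 4 by norm_num, Real.log_pow]
      norm_num
    have := Real.log_two_lt_d9
    linarith
  have hlog4 : Real.log 4 ≤ 2 := by
    have h1 : Real.log 4 = 2 * Real.log 2 := by
      rw [show (4 : ℝ) = 2 ^ 2 by norm_num, Real.log_pow]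
      norm_num
    have := Real.log_two_lt_d9
    linarith
  have hlog2 : Real.log 2 ≤ 1 := by
    have := Real.log_two_lt_d9
    linarith
  have hLinv : 1 / (L : ℝ) ≤ θ' := by
    rw [hθ']
    have : 0 ≤ ((L : ℝ) - 1) / (q : ℝ) := div_nonneg (by linarith) (by linarith)
    linarith
  rcases lt_or_ge (θ' * l - Real.log 16) 0 with hneg | hneg
  · have h1 : l ≤ 3 * L := by
      have h3 : 1 / (L : ℝ) * l ≤ θ' * l := mul_le_mul_of_nonneg_right hLinv hl0
      have h4 : 1 / (L : ℝ) * l ≤ 3 := by linarith only [h3, hneg, hlog16]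
      rw [one_div, inv_mul_le_iff₀ (by linarith)] at h4
      linarith only [h4]
    have h2 : 0 ≤ 2 * C1 / η * w := by positivity
    have h3 : 3 * (L : ℝ) ≤ 3 * L * w := le_mul_of_one_le_right (by positivity) hw
    rw [add_mul]
    linarith only [h1, h2, h3]
  obtain ⟨δ, K, M, hδ1, hδle, hδge, hMK, hMp, hMp2, hKp, hK1, hLM, hδM⟩ :=
    choose_params hη0 hη1 hL hηp
  obtain ⟨e, he1, he2, he3⟩ := app1 h hDy hqD hm (L := L) (K := K) (M := M) (by omega)
    hLq hK1 hLM hMp (by omega)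
  have hCC := log_CC_le (q := q) (L := L) (K := K) (M := M) (p := p) (ρ := 32 / η) hq3
    (by omega) hK1 hKp hMp (by omega) (by omega) (by
      have h1 : ((L * K : ℕ) : ℝ) - M = δ := by
        rw [← hMK]
        push_cast
        ring
      rw [h1]
      have h2 : (M : ℝ) ≤ p := by exact_mod_cast hMp
      rw [div_mul_eq_mul_div, le_div_iff₀ hη0]
      have h3 : (M : ℝ) * η ≤ p * η := mul_le_mul_of_nonneg_right h2 hη0.le
      linarith only [h3, hδge]) (by positivity)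
  rw [← hwd] at hCC
  rw [← hld] at he3
  obtain ⟨cc, hcc⟩ : ∃ cc, cc = Real.log (CC q L K M (L * p + K)) := ⟨_, rfl⟩
  rw [← hcc] at hCC he3
  have hkap : L * K + L - M - 2 = δ + L - 2 := by omega
  rw [hkap] at he2
  have he2R : (M : ℝ) - δ - L + 2 ≤ e := by
    have h1 : M + 2 ≤ e + δ + L := by omega
    have : (M : ℝ) + 2 ≤ e + δ + L := by exact_mod_cast h1
    linarith
  have hMR : (M : ℝ) = L * K - δ := by
    have : (M : ℝ) + δ = L * K := by exact_mod_cast hMK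
    linarith
  have hMpR : (M : ℝ) ≤ p := by exact_mod_cast hMp
  have hKpR : (K : ℝ) ≤ p := by exact_mod_cast hKp
  have hMp2R : (p : ℝ) - L + 1 ≤ M := by
    have h1 : p + 1 ≤ M + L := by omega
    have : (p : ℝ) + 1 ≤ M + L := by exact_mod_cast h1
    linarith
  have haux := auxL (η := η) (q := q) (L := L) (K := K) (M := M) (δ := δ) (R := p) hη0 hη1 hLR hLqR
    hMR (Nat.cast_nonneg _) hδle hMp2R (by linarith)
  rw [← hθ'] at haux
  have hMδ : (0 : ℝ) ≤ M - δ - L + 2 := by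
    have : (δ : ℝ) + L ≤ M + 2 := by exact_mod_cast hδM
    linarith
  have hv : θ' * l - Real.log 16 ≤ l - Real.log 16 - Real.log (|(y : ℝ)| / D) := by
    linarith only [hlogE]
  have hleft : ((M : ℝ) - δ - L + 2) * (θ' * l - Real.log 16) ≤
      e * (l - Real.log 16 - Real.log (|(y : ℝ)| / D)) :=
    mul_le_mul he2R hv hneg (Nat.cast_nonneg _)
  have hfin := hleft.trans he3
  have hcast1 : ((L - 1 : ℕ) : ℝ) = (L : ℝ) - 1 := by
    rw [Nat.cast_sub (by omega)]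
    norm_num
  have hcast2 : ((K - 1 : ℕ) : ℝ) = (K : ℝ) - 1 := by
    rw [Nat.cast_sub hK1]
    norm_num
  rw [hcast1, hcast2] at hfin
  have hcnn : 0 ≤ ((L : ℝ) - 1) / q := div_nonneg (by linarith) (by linarith)
  have hb0 : ((L : ℝ) - 1) / q * ((p - 1) * l) ≤ ((L : ℝ) - 1) / q * ((p + 1) * l) := by
    apply mul_le_mul_of_nonneg_left _ hcnn
    apply mul_le_mul_of_nonneg_right _ hl0
    linarith
  have hmain : η * p / 2 * l ≤ cc + (M - δ - L + 2) * Real.log 16 +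
      ((L : ℝ) - 1) / q * (p * Real.log 4) + (K - 1) * Real.log 2 := by
    have h1 := mul_le_mul_of_nonneg_right haux hl0
    have h2 : (((M : ℝ) - δ - L + 2) * θ' - (L - 1) / q * (p + 1) - (K - 1)) * l =
        (M - δ - L + 2) * (θ' * l) - (L - 1) / q * ((p + 1) * l) - (K - 1) * l := by
      ring
    rw [h2] at h1
    linarith only [h1, hfin, hb0]
  have hb1 : ((M : ℝ) - δ - L + 2) * Real.log 16 ≤ p * 3 := by
    have h1 : (M : ℝ) - δ - L + 2 ≤ p := by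
      have : (0 : ℝ) ≤ δ := Nat.cast_nonneg _
      linarith
    have h2 : 0 ≤ Real.log 16 := Real.log_nonneg (by norm_num)
    exact mul_le_mul h1 hlog16 h2 (by linarith)
  have hb2 : ((L : ℝ) - 1) / q * (p * Real.log 4) ≤ 2 * p := by
    have h1 : ((L : ℝ) - 1) / q ≤ 1 := by
      rw [div_le_one (by linarith)]
      linarith
    have h2 : (p : ℝ) * Real.log 4 ≤ p * 2 := mul_le_mul_of_nonneg_left hlog4 (by linarith)
    have h3 : 0 ≤ (p : ℝ) * Real.log 4 := mul_nonneg (by linarith) (Real.log_nonneg (by norm_num))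
    have h4 : ((L : ℝ) - 1) / q * (p * Real.log 4) ≤ 1 * (p * Real.log 4) :=
      mul_le_mul_of_nonneg_right h1 h3
    linarith only [h2, h4]
  have hb3 : ((K : ℝ) - 1) * Real.log 2 ≤ p := by
    have h1 : (0 : ℝ) ≤ (K : ℝ) - 1 := by
      have : (1 : ℝ) ≤ K := by exact_mod_cast hK1
      linarith
    have h2 : ((K : ℝ) - 1) * Real.log 2 ≤ (K - 1) * 1 := mul_le_mul_of_nonneg_left hlog2 h1
    linarith only [h2, hKpR]
  have hpw : (p : ℝ) ≤ p * w := le_mul_of_one_le_right (by linarith) hw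
  have hpw0 : 0 ≤ (p : ℝ) * w := by positivity
  have hmain2 : η * p / 2 * l ≤ C1 * (p * w) := by
    have h1 : C1 * ((p : ℝ) * w) =
        (32 / η + 1) * (10 * L + 10) * (p * w) + 3 * L * (p * w) + 6 * (p * w) := by
      rw [hC1]
      ring
    have h2 : 0 ≤ 3 * (L : ℝ) * (p * w) := by positivity
    rw [h1]
    linarith only [hCC, hb1, hb2, hb3, hmain, hpw, h2]
  have hp0 : (0 : ℝ) < p := by linarith
  have hmain3 : l ≤ 2 * C1 / η * w := by
    have h1 : η * p / 2 * l ≤ η * p / 2 * (2 * C1 / η * w) := by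
      refine hmain2.trans (le_of_eq ?_)
      field_simp
    exact le_of_mul_le_mul_left h1 (by positivity)
  rw [add_mul]
  have h5 : 0 ≤ 3 * (L : ℝ) * w := by positivity
  linarith only [hmain3, h5]

end Pool.Agent.K9h9
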