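import Mathlib
import Pool.Agent.K9h9.App2N
import Pool.Agent.K9h9.Final1

/-!
# Finitely many exponents `p` for given `x`, `y`, `q`, without conditions on `y`
-/

set_option autoImplicit false
set_option maxHeartbeats 1000000

namespace Pool.Agent.K9h9

theorem finite_p_nil (x y : ℤ) (q : ℕ) (hxy : IsCoprime x y) (hy0 : y ≠ 0)
    (hqy : ¬ (q : ℤ) ∣ y) : {p : ℕ | ∃ z : ℤ, Sol x y z p q}.Finite := by
  obtain ⟨S, hS⟩ : ∃ S : Set ℕ, S = {p : ℕ | ∃ z : ℤ, Sol x y z p q} := ⟨_, rfl⟩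
  rw [← hS]
  obtain ⟨η, hη⟩ : ∃ η : ℝ, η = 1 / 12 := ⟨_, rfl⟩
  have hη0 : 0 < η := by rw [hη]; norm_num
  have hη1 : η ≤ 1 := by rw [hη]; norm_num
  obtain ⟨m, hm⟩ : ∃ m : ℝ, m = max |(x : ℝ)| |(y : ℝ)| := ⟨_, rfl⟩
  obtain ⟨D, hD⟩ : ∃ D : ℕ, D = y.natAbs := ⟨_, rfl⟩
  have hDy : (D : ℤ) ∣ y := by rw [hD]; exact Int.natAbs_dvd.mpr dvd_rfl
  have hqD : ¬ q ∣ D := by
    intro h
    apply hqy
    have h1 : (q : ℤ) ∣ (D : ℤ) := Int.natCast_dvd_natCast.mpr h
    exact h1.trans hDy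
  have hDne : D ≠ 0 := by
    rw [hD]
    exact Int.natAbs_ne_zero.mpr hy0
  have hne : NeZero D := ⟨hDne⟩
  have hDabs : (D : ℝ) = |(y : ℝ)| := by
    rw [hD, Nat.cast_natAbs]
    push_cast
    rfl
  have hZ : ∀ p : ℕ, ∃ z : ℤ, p ∈ S → Sol x y z p q := by
    intro p
    by_cases h : p ∈ S
    · have h1 := h
      rw [hS] at h1
      obtain ⟨z, hz⟩ := h1
      exact ⟨z, fun _ => hz⟩
    · exact ⟨0, fun h1 => absurd h1 h⟩
  choose Z hZ using hZ
  obtain ⟨f, hf⟩ : ∃ f : ℕ → ZMod D, ∀ p, f p = (Z p : ZMod D) * ((x : ZMod D)⁻¹) ^ (p / q) :=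
    ⟨_, fun _ => rfl⟩
  have hclass : ∀ (c : ℕ) (w : ZMod D), (S ∩ {p | p % q = c ∧ f p = w}).Finite := by
    intro c w0
    by_contra hinf
    have hinf : (S ∩ {p | p % q = c ∧ f p = w0}).Infinite := hinf
    obtain ⟨p0, hp0⟩ := hinf.nonempty
    have hp0S := hp0.1
    rw [hS] at hp0S
    obtain ⟨z0, hz0⟩ := hp0S
    have hq3 := hz0.q3
    have hm2 := hz0.two_le_m hm
    obtain ⟨w, hwd⟩ : ∃ w, w = Real.log q := ⟨_, rfl⟩
    obtain ⟨l, hld⟩ : ∃ l, l = Real.log m := ⟨_, rfl⟩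
    have hqR : (3 : ℝ) ≤ q := by exact_mod_cast hq3
    have hw : 1 ≤ w := by
      rw [hwd, Real.le_log_iff_exp_le (by positivity)]
      have h1 := Real.exp_one_lt_d9
      linarith
    have hl : 1 / 2 ≤ l := by
      have h1 := Real.log_le_log (by norm_num) hm2
      have h2 := Real.log_two_gt_d9
      rw [hld]
      linarith
    obtain ⟨C1, hC1⟩ : ∃ C1 : ℝ, C1 = 30 * (32 / η + 1) + 5 := ⟨_, rfl⟩
    have hC10 : 0 < C1 := by rw [hC1]; positivity
    obtain ⟨p1, hp1, hp1gt⟩ := hinf.exists_gt ⌈4 * C1 * w / η⌉₊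
    obtain ⟨T, hT⟩ : ∃ T : ℕ, T = ⌈64 / η⌉₊ := ⟨_, rfl⟩
    obtain ⟨p2, hp2, hp2gt⟩ := hinf.exists_gt ((T + 1) * p1)
    have hp1S := hp1.1
    have hp2S := hp2.1
    obtain ⟨z1, hz1⟩ : ∃ z1, z1 = Z p1 := ⟨_, rfl⟩
    obtain ⟨z2, hz2⟩ : ∃ z2, z2 = Z p2 := ⟨_, rfl⟩
    have h1 := hZ p1 hp1S
    have h2 := hZ p2 hp2S
    rw [← hz1] at h1
    rw [← hz2] at h2
    have hc1 : p1 % q = c := hp1.2.1
    have hc2 : p2 % q = c := hp2.2.1
    have hfw : f p1 = f p2 := hp1.2.2.trans hp2.2.2.symm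
    rw [hf, hf, ← hz1, ← hz2] at hfw
    have hp13 := h1.p3
    have hp12 : p1 < p2 := by
      refine lt_of_le_of_lt ?_ hp2gt
      exact Nat.le_mul_of_pos_left _ (by omega)
    obtain ⟨n, hnd⟩ : ∃ n, n = p2 / q - p1 / q := ⟨_, rfl⟩
    have e3' : p1 / q ≤ p2 / q := Nat.div_le_div_right hp12.le
    have hn : p2 = p1 + q * n := by
      have e1 := Nat.div_add_mod p1 q
      have e2 := Nat.div_add_mod p2 q
      rw [hnd, Nat.mul_sub]
      have e4 : q * (p1 / q) ≤ q * (p2 / q) := Nat.mul_le_mul_left _ e3'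
      omega
    have hcl : (D : ℤ) ∣ z1 * x ^ n - z2 := by
      rw [← ZMod.intCast_zmod_eq_zero_iff_dvd]
      push_cast
      rw [sub_eq_zero]
      have hxu : (x : ZMod D) * (x : ZMod D)⁻¹ = 1 := by
        apply ZMod.mul_inv_of_unit
        have hcopD : IsCoprime x (D : ℤ) := hxy.of_isCoprime_of_dvd_right hDy
        obtain ⟨r, s, hrs⟩ := hcopD
        have e1 : (r : ZMod D) * x = 1 := by
          have e2 : ((r * x + s * (D : ℤ) : ℤ) : ZMod D) = 1 := by rw [hrs]; simp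
          push_cast at e2
          rw [ZMod.natCast_self, mul_zero, add_zero] at e2
          exact e2
        exact IsUnit.of_mul_eq_one_right _ e1
      have hsplit : p2 / q = p1 / q + n := by omega
      rw [hsplit] at hfw
      have e5 : ∀ k : ℕ, (x : ZMod D) ^ k * ((x : ZMod D)⁻¹) ^ k = 1 := by
        intro k
        rw [← mul_pow, hxu, one_pow]
      calc (z1 : ZMod D) * x ^ n
          = (z1 * ((x : ZMod D)⁻¹) ^ (p1 / q)) * x ^ (p1 / q + n) := by
            rw [pow_add]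
            linear_combination (-(z1 : ZMod D) * x ^ n) * e5 (p1 / q)
        _ = (z2 * ((x : ZMod D)⁻¹) ^ (p1 / q + n)) * x ^ (p1 / q + n) := by rw [hfw]
        _ = z2 := by linear_combination (z2 : ZMod D) * e5 (p1 / q + n)
    obtain ⟨R, hR⟩ : ∃ R, R = p2 / p1 := ⟨_, rfl⟩
    have hRT : T ≤ R := by
      rw [hR, Nat.le_div_iff_mul_le (by omega)]
      nlinarith
    have hRp : p1 * R ≤ p2 := by
      rw [hR]
      exact Nat.mul_div_le p2 p1
    have hRp2 : p2 ≤ (R + 1) * p1 := by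
      rw [hR]
      exact (Nat.lt_mul_of_div_lt (Nat.lt_succ_self _) (by omega)).le
    have hηR : 64 ≤ η * R := by
      have e1 : 64 / η ≤ T := by rw [hT]; exact Nat.le_ceil _
      have e2 : (T : ℝ) ≤ R := by exact_mod_cast hRT
      rw [div_le_iff₀ hη0] at e1
      nlinarith
    have hR64 : (64 : ℝ) ≤ R := by
      have : (0 : ℝ) ≤ R := Nat.cast_nonneg _
      nlinarith
    have hR64N : 64 ≤ R := by exact_mod_cast hR64
    obtain ⟨δ, hδ⟩ : ∃ δ : ℕ, δ = ⌊η * R / 16⌋₊ := ⟨_, rfl⟩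
    have hδle : (δ : ℝ) ≤ η * R / 16 := by
      rw [hδ]
      exact Nat.floor_le (by positivity)
    have hδge : η * R ≤ 32 * δ := by
      have e1 : η * R / 16 < ⌊η * R / 16⌋₊ + 1 := Nat.lt_floor_add_one _
      rw [← hδ] at e1
      linarith
    have hδ1 : 1 ≤ δ := by
      have e1 : (0 : ℝ) < δ := by linarith
      exact_mod_cast e1
    have hδR : δ ≤ R / 16 := by
      rw [Nat.le_div_iff_mul_le (by norm_num)]
      have e1 : (δ : ℝ) * 16 ≤ R := by nlinarith
      exact_mod_cast e1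
    obtain ⟨K, hK⟩ : ∃ K : ℕ, K = (R + δ) / 2 := ⟨_, rfl⟩
    obtain ⟨M, hM⟩ : ∃ M : ℕ, M = 2 * K - δ := ⟨_, rfl⟩
    have hM1 : R - 1 ≤ M := by omega
    have hM2 : M ≤ R := by omega
    have hMK : M + δ = 2 * K := by omega
    have hKR : K ≤ R := by omega
    have hK1 : 1 ≤ K := by omega
    obtain ⟨e, he1, he2, he3⟩ := app2N h1 h2 hn hDy hqD hcl hm (K := K) (M := M) hK1 (by omega)
      (by omega) ((Nat.mul_le_mul_left _ hM2).trans hRp)
    have hCC := log_CC_le' (q := q) (L := 2) (K := K) (M := M) (G := K) (p := R) (ρ := 32 / η) hq3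
      (by norm_num) hK1 hKR hM2 (by omega) (by omega) (by omega) (by
        have e1 : ((2 * K : ℕ) : ℝ) - M = δ := by
          rw [← hMK]
          push_cast
          ring
        rw [e1]
        have e2 : (M : ℝ) ≤ R := by exact_mod_cast hM2
        rw [div_mul_eq_mul_div, le_div_iff₀ hη0]
        have e3 : (M : ℝ) * η ≤ R * η := mul_le_mul_of_nonneg_right e2 hη0.le
        linarith only [e3, hδge]) (by positivity)
    rw [← hwd] at hCC
    rw [← hld] at he3
    obtain ⟨cc, hcc⟩ : ∃ cc, cc = Real.log (CC q 2 K M K) := ⟨_, rfl⟩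
    rw [← hcc] at hCC he3
    have hkap : 2 * K + 2 - M - 2 = δ := by omega
    rw [hkap] at he2
    have he2R : (M : ℝ) - δ ≤ e := by
      have : (M : ℝ) ≤ e + δ := by exact_mod_cast he2
      linarith
    have hMR : (M : ℝ) = 2 * K - δ := by
      have : (M : ℝ) + δ = 2 * K := by exact_mod_cast hMK
      linarith
    have hM1R : (R : ℝ) - 1 ≤ M := by
      have e1 : R ≤ M + 1 := by omega
      have e2 : (R : ℝ) ≤ M + 1 := by exact_mod_cast e1
      linarith
    have haux := finp_aux (η := η) (q := q) (K := K) (M := M) (δ := δ) (R := R) hη0 hη1 hqR hMR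
      (Nat.cast_nonneg _) hδle hM1R hηR
    have hy0' : 0 < |(y : ℝ)| := abs_pos.mpr (by exact_mod_cast h1.y0)
    have hlogE : Real.log (|(y : ℝ)| / D) ≤ (1 / 2 - 1 / (q : ℝ) - η) * l := by
      rw [hDabs, div_self hy0'.ne', Real.log_one]
      apply mul_nonneg _ (by linarith)
      have e1 : 1 / (q : ℝ) ≤ 1 / 3 := one_div_le_one_div_of_le (by norm_num) hqR
      rw [hη]
      linarith
    have hp1R : (0 : ℝ) < p1 := by
      have : 0 < p1 := by omega
      exact_mod_cast this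
    have hv : (1 / 2 + 1 / (q : ℝ) + η) * l ≤ l - Real.log (|(y : ℝ)| / D) := by
      linarith only [hlogE]
    have hMδ : (0 : ℝ) ≤ M - δ := by
      have e1 : δ ≤ M := by omega
      have : (δ : ℝ) ≤ M := by exact_mod_cast e1
      linarith
    have hl0 : 0 < l := by linarith
    have hleft : ((M : ℝ) - δ) * (p1 * ((1 / 2 + 1 / (q : ℝ) + η) * l)) ≤
        e * (p1 * (l - Real.log (|(y : ℝ)| / D))) :=
      mul_le_mul he2R (mul_le_mul_of_nonneg_left hv hp1R.le) (by positivity) (Nat.cast_nonneg _)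
    have hfin := hleft.trans he3
    have hcast2 : ((K - 1 : ℕ) : ℝ) = (K : ℝ) - 1 := by
      rw [Nat.cast_sub hK1]
      norm_num
    rw [hcast2] at hfin
    have hlog8 : Real.log 8 ≤ 3 := by
      have e1 : Real.log 8 = 3 * Real.log 2 := by
        rw [show (8 : ℝ) = 2 ^ 3 by norm_num, Real.log_pow]
        norm_num
      have := Real.log_two_lt_d9
      linarith
    have hlog2 : Real.log 2 ≤ 1 := by
      have := Real.log_two_lt_d9
      linarith
    have hb1 : (e : ℝ) * Real.log 8 ≤ R * 3 := by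
      have e1 : (e : ℝ) ≤ R := by exact_mod_cast he1.trans hM2
      exact mul_le_mul e1 hlog8 (Real.log_nonneg (by norm_num)) (Nat.cast_nonneg _)
    have hb2 : ((K : ℝ) - 1) * Real.log 2 ≤ R := by
      have e1 : (0 : ℝ) ≤ (K : ℝ) - 1 := by
        have : (1 : ℝ) ≤ K := by exact_mod_cast hK1
        linarith
      have e2 : ((K : ℝ) - 1) * Real.log 2 ≤ (K - 1) * 1 := mul_le_mul_of_nonneg_left hlog2 e1
      have e3 : (K : ℝ) ≤ R := by exact_mod_cast hKR
      linarith only [e2, e3]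
    have hb3 : (p2 : ℝ) / q * l ≤ (R + 1) / q * (p1 * l) := by
      have e1 : (p2 : ℝ) ≤ (R + 1) * p1 := by exact_mod_cast hRp2
      have e2 : (p2 : ℝ) / q * l ≤ ((R + 1) * p1) / q * l := by gcongr
      refine e2.trans (le_of_eq ?_)
      ring
    have hmain : η * R / 2 * (p1 * l) ≤ C1 * R * w := by
      have e1 := mul_le_mul_of_nonneg_right haux (by positivity : (0 : ℝ) ≤ p1 * l)
      have e2 : (((M : ℝ) - δ) * (1 / 2 + 1 / q + η) - (R + 1) / q - (K - 1)) * (p1 * l) =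
          (M - δ) * (p1 * ((1 / 2 + 1 / q + η) * l)) - (R + 1) / q * (p1 * l) -
            (K - 1) * (p1 * l) := by
        ring
      rw [e2] at e1
      have e3 : ((K : ℝ) - 1) * (Real.log 2 + p1 * l) =
          (K - 1) * Real.log 2 + (K - 1) * (p1 * l) := by ring
      rw [e3] at hfin
      have e4 : (R : ℝ) ≤ R * w := le_mul_of_one_le_right (Nat.cast_nonneg _) hw
      have e5 : C1 * R * w = (32 / η + 1) * (10 * 2 + 10) * (R * w) + 5 * (R * w) := by
        rw [hC1]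
        ring
      have h0 : ((2 : ℕ) : ℝ) = 2 := by norm_num
      rw [h0] at hCC
      rw [e5]
      linarith only [e1, hfin, hb1, hb2, hb3, hCC, e4, hlog2, hR64]
    have hRpos : (0 : ℝ) < R := by linarith
    have hp1le : (p1 : ℝ) ≤ 4 * C1 * w / η := by
      rw [le_div_iff₀ hη0]
      have e1 : (R : ℝ) * (η / 2 * (p1 * l)) ≤ R * (C1 * w) := by linarith only [hmain]
      have e2 : η / 2 * (p1 * l) ≤ C1 * w := le_of_mul_le_mul_left e1 hRpos
      have e3 : (p1 : ℝ) * (1 / 2) ≤ p1 * l := mul_le_mul_of_nonneg_left hl hp1R.le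
      have e4 : η / 2 * ((p1 : ℝ) * (1 / 2)) ≤ η / 2 * (p1 * l) :=
        mul_le_mul_of_nonneg_left e3 (by positivity)
      linarith only [e2, e4]
    have hp1gt' : 4 * C1 * w / η < p1 := by
      refine lt_of_le_of_lt (Nat.le_ceil _) ?_
      exact_mod_cast hp1gt
    linarith
  rcases Set.eq_empty_or_nonempty S with hemp | hne
  · rw [hemp]
    exact Set.finite_empty
  obtain ⟨p0, hp0⟩ := hne
  have hq0 : 0 < q := by
    rw [hS] at hp0
    obtain ⟨z0, hz0⟩ := hp0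
    exact hz0.qp.pos
  have hsub : S ⊆ ⋃ c ∈ (Finset.range q : Set ℕ), ⋃ w : ZMod D, S ∩ {p | p % q = c ∧ f p = w} := by
    intro p hp
    simp only [Set.mem_iUnion]
    refine ⟨p % q, ?_, f p, hp, rfl, rfl⟩
    rw [Finset.coe_range, Set.mem_Iio]
    exact Nat.mod_lt _ hq0
  exact (Set.Finite.biUnion (Finset.range q).finite_toSet
    (fun c _ => Set.finite_iUnion (fun w => hclass c w))).subset hsub

end Pool.Agent.K9h9
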