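import Mathlib
import Pool.Agent.K9h9.FinPL

/-!
# Large exponents: the part of `x` and `y` composed of primes `1` modulo `q`
-/

set_option autoImplicit false

namespace Pool.Agent.K9h9

lemma large_one {η : ℝ} (hη0 : 0 < η) (hη1 : η ≤ 1) {L : ℕ} (hL : 2 ≤ L) : ∃ N : ℕ,
    ∀ (x y z : ℤ) (p q D : ℕ), Sol x y z p q → N ≤ max p q → L ≤ q → (D : ℤ) ∣ y →
      ¬ q ∣ D * D.totient →
      (D : ℝ) * (max |(x : ℝ)| |(y : ℝ)|) ^ (1 - 1 / (L : ℝ) - ((L : ℝ) - 1) / (q : ℝ) - η) <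
        |(y : ℝ)| := by
  obtain ⟨P0, C, hC0, hkey⟩ := key2 hη0 hη1 hL
  obtain ⟨Q0, hQ0⟩ := q_bounded C hC0
  obtain ⟨Q1, hQ1⟩ := q_bounded (2 / η) (by positivity)
  obtain ⟨N, hN⟩ : ∃ N : ℕ, N = ⌈Real.exp (C * Real.log Q0)⌉₊ := ⟨_, rfl⟩
  have hLR : (2 : ℝ) ≤ L := by exact_mod_cast hL
  obtain ⟨P, hP⟩ : ∃ P : ℤ → ℤ → ℕ → ℕ → Set ℕ, ∀ x y q D, P x y q D =
      {p : ℕ | (∃ z : ℤ, Sol x y z p q) ∧ L ≤ q ∧ (D : ℤ) ∣ y ∧ ¬ q ∣ D * D.totient ∧
        |(y : ℝ)| ≤ D * (max |(x : ℝ)| |(y : ℝ)|) ^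
          (1 - 1 / (L : ℝ) - ((L : ℝ) - 1) / (q : ℝ) - η)} :=
    ⟨_, fun _ _ _ _ => rfl⟩
  have hPfin : ∀ x y q D, (P x y q D).Finite := by
    intro x y q D
    rw [hP]
    by_cases h : L ≤ q ∧ (D : ℤ) ∣ y ∧ ¬ q ∣ D * D.totient ∧
        |(y : ℝ)| ≤ D * (max |(x : ℝ)| |(y : ℝ)|) ^
          (1 - 1 / (L : ℝ) - ((L : ℝ) - 1) / (q : ℝ) - η)
    · exact (finite_pL hη0 hη1 hL x y q D h.1 h.2.1 h.2.2.1 rfl h.2.2.2).subset (fun p hp => hp.1)
    · refine Set.finite_empty.subset ?_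
      intro p hp
      exact h hp.2
  have hfin : (⋃ x ∈ (Finset.Icc (-(N : ℤ)) N : Set ℤ), ⋃ y ∈ (Finset.Icc (-(N : ℤ)) N : Set ℤ),
      ⋃ q ∈ (Finset.range (Q0 + 1) : Set ℕ), ⋃ D ∈ (Finset.range (N + 1) : Set ℕ),
      P x y q D).Finite := by
    refine Set.Finite.biUnion (Finset.finite_toSet _) (fun x _ => ?_)
    refine Set.Finite.biUnion (Finset.finite_toSet _) (fun y _ => ?_)
    refine Set.Finite.biUnion (Finset.finite_toSet _) (fun q _ => ?_)
    refine Set.Finite.biUnion (Finset.finite_toSet _) (fun D _ => ?_)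
    exact hPfin x y q D
  obtain ⟨P1, hP1⟩ := hfin.bddAbove
  refine ⟨P1 + Q0 + Q1 + L * P0 + P0 + 1, ?_⟩
  intro x y z p q D h hNpq hLq hDy hqD
  by_contra hcon
  push Not at hcon
  have hm1 := h.m_pos rfl
  have hp3 := h.p3
  have hq3 := h.q3
  rcases le_or_gt P0 p with hpP | hpP
  · have hlog := hkey x y z p q D _ h hLq hpP hDy hqD rfl hcon
    have hq := hQ0 x y z p q _ h rfl hlog
    have hmN : max |(x : ℝ)| |(y : ℝ)| ≤ N := by
      rw [hN]
      refine le_trans ?_ (Nat.le_ceil _)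
      rw [← Real.log_le_iff_le_exp (by linarith)]
      refine hlog.trans ?_
      have h2 : Real.log q ≤ Real.log Q0 := by
        apply Real.log_le_log
        · have : 0 < q := by omega
          exact_mod_cast this
        · exact_mod_cast hq
      gcongr
    have hx : |(x : ℝ)| ≤ N := (le_max_left _ _).trans hmN
    have hy : |(y : ℝ)| ≤ N := (le_max_right _ _).trans hmN
    have hxZ : |x| ≤ N := by exact_mod_cast hx
    have hyZ : |y| ≤ N := by exact_mod_cast hy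
    have hDN : D ≤ N := by
      have h2 : (D : ℤ) ≤ |y| := Int.le_of_dvd (abs_pos.mpr h.y0) ((dvd_abs _ _).mpr hDy)
      have h3 : (D : ℤ) ≤ N := h2.trans hyZ
      exact_mod_cast h3
    have hpP1 : p ≤ P1 := by
      apply hP1
      simp only [Set.mem_iUnion]
      refine ⟨x, ?_, y, ?_, q, ?_, D, ?_, ?_⟩
      · rw [Finset.mem_coe, Finset.mem_Icc]
        exact abs_le.mp hxZ
      · rw [Finset.mem_coe, Finset.mem_Icc]
        exact abs_le.mp hyZ
      · rw [Finset.mem_coe, Finset.mem_range]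
        omega
      · rw [Finset.mem_coe, Finset.mem_range]
        omega
      · rw [hP]
        exact ⟨⟨z, h⟩, hLq, hDy, hqD, hcon⟩
    have : max p q ≤ P1 + Q0 := by
      rcases le_total p q with h1 | h1
      · rw [max_eq_right h1]
        omega
      · rw [max_eq_left h1]
        omega
    omega
  · have hqbig : P1 + Q0 + Q1 + L * P0 + P0 + 1 ≤ q := by
      rcases le_total p q with h1 | h1
      · rwa [max_eq_right h1] at hNpq
      · rw [max_eq_left h1] at hNpq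
        omega
    have hel := elem h (by omega) hDy hqD rfl
    obtain ⟨m, hm⟩ : ∃ m : ℝ, m = max |(x : ℝ)| |(y : ℝ)| := ⟨_, rfl⟩
    rw [← hm] at hel hcon hm1
    have hm0 : 0 < m := by linarith
    obtain ⟨l, hl⟩ : ∃ l, l = Real.log m := ⟨_, rfl⟩
    have hl0 : 0 ≤ l := by rw [hl]; exact Real.log_nonneg hm1
    have hD0 : D ≠ 0 := by
      intro h1
      rw [h1, Nat.cast_zero, zero_dvd_iff] at hDy
      exact h.y0 hDy
    have hDR : (0 : ℝ) < D := by exact_mod_cast Nat.pos_of_ne_zero hD0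
    have hqR : (3 : ℝ) ≤ q := by exact_mod_cast hq3
    have h1 : |(y : ℝ)| / D ≤ m ^ (1 - 1 / (L : ℝ) - ((L : ℝ) - 1) / (q : ℝ) - η) := by
      rw [div_le_iff₀ hDR]
      linarith
    have h2 : m ^ (1 - ((p : ℝ) - 1) / q) ≤
        3 * m ^ (1 - 1 / (L : ℝ) - ((L : ℝ) - 1) / (q : ℝ) - η) := by
      refine hel.trans ?_
      linarith
    have h3 := Real.log_le_log (by positivity) h2
    rw [Real.log_mul (by norm_num) (by positivity), Real.log_rpow hm0, Real.log_rpow hm0,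
      ← hl] at h3
    have h4 : ((p : ℝ) - 1) / q ≤ 1 / L := by
      rw [div_le_div_iff₀ (by linarith) (by linarith)]
      have h5 : L * P0 ≤ q := by omega
      have h6 : (L : ℝ) * P0 ≤ q := by exact_mod_cast h5
      have h7 : (p : ℝ) ≤ P0 := by exact_mod_cast hpP.le
      nlinarith
    have h5 : 0 ≤ ((L : ℝ) - 1) / q := div_nonneg (by linarith) (by linarith)
    have hlog3 : Real.log 3 ≤ 2 := by
      have h6 : Real.log 3 ≤ Real.log (2 ^ 2) := Real.log_le_log (by norm_num) (by norm_num)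
      rw [Real.log_pow] at h6
      have := Real.log_two_lt_d9
      push_cast at h6
      linarith
    have h6 : η * l ≤ 2 := by
      have h7 : (1 / (L : ℝ) + ((L : ℝ) - 1) / q + η - ((p : ℝ) - 1) / q) * l ≤ 2 := by
        have h8 : (1 / (L : ℝ) + ((L : ℝ) - 1) / q + η - ((p : ℝ) - 1) / q) * l =
          (1 - ((p : ℝ) - 1) / q) * l - (1 - 1 / (L : ℝ) - ((L : ℝ) - 1) / (q : ℝ) - η) * l := by
          ring
        rw [h8]
        linarith only [h3, hlog3]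
      have h9 : η * l ≤ (1 / (L : ℝ) + ((L : ℝ) - 1) / q + η - ((p : ℝ) - 1) / q) * l :=
        mul_le_mul_of_nonneg_right (by linarith only [h4, h5]) hl0
      linarith only [h7, h9]
    have hw : 1 ≤ Real.log q := by
      rw [Real.le_log_iff_exp_le (by linarith)]
      have h7 := Real.exp_one_lt_d9
      linarith
    have h7 : Real.log m ≤ 2 / η * Real.log q := by
      rw [← hl]
      have h8 : l ≤ 2 / η := by
        rw [le_div_iff₀ hη0]
        linarith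
      have h9 : 2 / η * 1 ≤ 2 / η * Real.log q := mul_le_mul_of_nonneg_left hw (by positivity)
      linarith
    have h8 := hQ1 x y z p q m h hm h7
    omega

theorem large_all {η : ℝ} (hη : 0 < η) : ∃ N : ℕ,
    ∀ (x y z : ℤ) (p q : ℕ), Sol x y z p q → N ≤ max p q → ∀ D L : ℕ, 2 ≤ L → L ≤ q →
      (D : ℤ) ∣ y → ¬ q ∣ D * D.totient →
      (D : ℝ) * (max |(x : ℝ)| |(y : ℝ)|) ^ (1 - 1 / (L : ℝ) - ((L : ℝ) - 1) / (q : ℝ) - η) <
        |(y : ℝ)| := by
  obtain ⟨η', hη'⟩ : ∃ η' : ℝ, η' = min η 1 := ⟨_, rfl⟩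
  have h0 : 0 < η' := by rw [hη']; exact lt_min hη one_pos
  have h1 : η' ≤ 1 := by rw [hη']; exact min_le_right _ _
  have h2 : η' ≤ η := by rw [hη']; exact min_le_left _ _
  have hall : ∀ L : ℕ, ∃ N : ℕ, 2 ≤ L → ∀ (x y z : ℤ) (p q D : ℕ), Sol x y z p q → N ≤ max p q →
      L ≤ q → (D : ℤ) ∣ y → ¬ q ∣ D * D.totient →
      (D : ℝ) * (max |(x : ℝ)| |(y : ℝ)|) ^ (1 - 1 / (L : ℝ) - ((L : ℝ) - 1) / (q : ℝ) - η' / 2) <
        |(y : ℝ)| := by
    intro L
    by_cases hL : 2 ≤ L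
    · obtain ⟨N, hN⟩ := large_one (η := η' / 2) (by positivity) (by linarith) hL
      exact ⟨N, fun _ => hN⟩
    · exact ⟨0, fun h => absurd h hL⟩
  choose F hF using hall
  obtain ⟨L0, hL0⟩ : ∃ L0 : ℕ, L0 = ⌈2 / η'⌉₊ + 2 := ⟨_, rfl⟩
  refine ⟨∑ L ∈ Finset.range (L0 + 1), F L, ?_⟩
  intro x y z p q h hN D L hL hLq hDy hqD
  have hm1 : 1 ≤ max |(x : ℝ)| |(y : ℝ)| := h.m_pos rfl
  have hq3 := h.q3
  have hqR : (3 : ℝ) ≤ q := by exact_mod_cast hq3
  have hLR : (2 : ℝ) ≤ L := by exact_mod_cast hL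
  have hFle : ∀ L' ≤ L0, F L' ≤ max p q := by
    intro L' hL'
    refine le_trans ?_ hN
    exact Finset.single_le_sum (f := F) (fun _ _ => Nat.zero_le _)
      (Finset.mem_range.mpr (by omega))
  rcases le_or_gt L L0 with hLL | hLL
  · refine lt_of_le_of_lt ?_ (hF L hL x y z p q D h (hFle L hLL) hLq hDy hqD)
    apply mul_le_mul_of_nonneg_left _ (Nat.cast_nonneg _)
    apply Real.rpow_le_rpow_of_exponent_le hm1
    linarith
  · refine lt_of_le_of_lt ?_ (hF L0 (by omega) x y z p q D h (hFle L0 le_rfl) (by omega) hDy hqD)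
    apply mul_le_mul_of_nonneg_left _ (Nat.cast_nonneg _)
    apply Real.rpow_le_rpow_of_exponent_le hm1
    have h3 : 1 / (L0 : ℝ) ≤ η' / 2 := by
      have h4 : 2 / η' ≤ L0 := by
        rw [hL0]
        push_cast
        have := Nat.le_ceil (2 / η')
        linarith
      have h5 : 0 < 2 / η' := by positivity
      have h6 : 1 / (L0 : ℝ) ≤ 1 / (2 / η') := one_div_le_one_div_of_le h5 h4
      rwa [one_div_div] at h6
    have h4 : ((L0 : ℝ) - 1) / q ≤ ((L : ℝ) - 1) / q := by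
      have : (L0 : ℝ) ≤ L := by exact_mod_cast hLL.le
      gcongr
    have h5 : 0 ≤ 1 / (L : ℝ) := by positivity
    linarith

end Pool.Agent.K9h9
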