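import Mathlib
import Pool.Agent.K9h9.FinPN

/-!
# One of the two bases with the equal exponents is bounded
-/

set_option autoImplicit false

namespace Pool.Agent.K9h9

/-- Finitely many pairs of exponents for given `x` and `y`. -/
theorem finite_pq (x y : ℤ) : {t : ℕ × ℕ | ∃ z : ℤ, Sol x y z t.1 t.2}.Finite := by
  obtain ⟨N, hN⟩ : ∃ N : ℕ, N = max x.natAbs y.natAbs := ⟨_, rfl⟩
  obtain ⟨ν, hν⟩ : ∃ ν, ν = Nat.log 2 N + 1 := ⟨_, rfl⟩
  have hNlt : N < 2 ^ ν := by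
    rw [hν]
    exact Nat.lt_pow_succ_log_self (by norm_num) N
  obtain ⟨C, hC⟩ : ∃ C : ℝ, C = Real.log (max |(x : ℝ)| |(y : ℝ)|) + 1 := ⟨_, rfl⟩
  by_cases hne : ∃ (z : ℤ) (p q : ℕ), Sol x y z p q
  swap
  · refine Set.finite_empty.subset ?_
    rintro ⟨p, q⟩ ⟨z, hz⟩
    exact hne ⟨z, p, q, hz⟩
  obtain ⟨z0, p0, q0, h0⟩ := hne
  have hm1 := h0.m_pos rfl
  have hC0 : 0 < C := by
    rw [hC]
    have := Real.log_nonneg hm1
    linarith
  obtain ⟨Q0, hQ0⟩ := q_bounded C hC0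
  have hfin : (⋃ q ∈ (Finset.range (Q0 + 1) : Set ℕ),
      (fun p : ℕ => (p, q)) '' {p : ℕ | ∃ z : ℤ, Sol x y z p q}).Finite := by
    refine Set.Finite.biUnion (Finset.finite_toSet _) (fun q _ => ?_)
    refine Set.Finite.image _ ?_
    by_cases hqy : (q : ℤ) ∣ y
    · by_cases hqx : (q : ℤ) ∣ x
      · refine Set.finite_empty.subset ?_
        rintro p ⟨z, hz⟩
        have h1 := hz.cop.isUnit_of_dvd' hqx hqy
        exact (Nat.prime_iff_prime_int.mp hz.qp).not_isUnit h1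
      · refine (finite_p_nil y x q h0.cop.symm h0.x0 hqx).subset ?_
        rintro p ⟨z, hz⟩
        exact ⟨z, hz.symm⟩
    · exact finite_p_nil x y q h0.cop h0.y0 hqy
  refine hfin.subset ?_
  rintro ⟨p, q⟩ ⟨z, hz⟩
  simp only at hz
  simp only [Set.mem_iUnion]
  refine ⟨q, ?_, p, ⟨z, hz⟩, rfl⟩
  rw [Finset.mem_coe, Finset.mem_range]
  have hq3 := hz.q3
  have hw : 1 ≤ Real.log q := by
    have hqR : (3 : ℝ) ≤ q := by exact_mod_cast hq3
    rw [Real.le_log_iff_exp_le (by linarith)]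
    have h1 := Real.exp_one_lt_d9
    linarith
  have h1 := hQ0 x y z p q _ hz rfl (by
    have h2 : C * 1 ≤ C * Real.log q := mul_le_mul_of_nonneg_left hw hC0.le
    rw [hC] at h2 ⊢
    linarith)
  omega

/-- The solutions with `|y| ≤ X`. -/
theorem finite_given (X : ℕ) :
    {t : ℤ × ℤ × ℤ × ℕ × ℕ | Sol t.1 t.2.1 t.2.2.1 t.2.2.2.1 t.2.2.2.2 ∧ |t.2.1| ≤ X}.Finite := by
  have hbad := finite_bad (η := 1 / 12) (by norm_num) (by norm_num)
  obtain ⟨W, hW⟩ : ∃ W : Set (ℤ × ℤ × ℤ × ℕ × ℕ),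
      W = {t : ℤ × ℤ × ℤ × ℕ × ℕ | Sol t.1 t.2.1 t.2.2.1 t.2.2.2.1 t.2.2.2.2 ∧
        |t.1| ≤ (X ^ 12 : ℕ) ∧ |t.2.1| ≤ (X ^ 12 : ℕ)} := ⟨_, rfl⟩
  have hWfin : W.Finite := by
    apply Set.Finite.of_finite_image (f := fun t : ℤ × ℤ × ℤ × ℕ × ℕ =>
      (t.1, t.2.1, t.2.2.2.1, t.2.2.2.2))
    swap
    · rintro ⟨x, y, z, p, q⟩ ht ⟨x', y', z', p', q'⟩ ht' heq
      simp only [Prod.mk.injEq] at heq
      obtain ⟨rfl, rfl, rfl, rfl⟩ := heq
      rw [hW] at ht ht'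
      have h1 := ht.1
      have h2 := ht'.1
      simp only at h1 h2
      have h3 : z ^ q = z' ^ q := by rw [← h1.eq, ← h2.eq]
      have h4 : z = z' := h1.oddq.strictMono_pow.injective h3
      rw [h4]
    have hfin : (⋃ x ∈ (Finset.Icc (-((X ^ 12 : ℕ) : ℤ)) (X ^ 12 : ℕ) : Set ℤ),
        ⋃ y ∈ (Finset.Icc (-((X ^ 12 : ℕ) : ℤ)) (X ^ 12 : ℕ) : Set ℤ),
        (fun t : ℕ × ℕ => (x, y, t.1, t.2)) ''
          {t : ℕ × ℕ | ∃ z : ℤ, Sol x y z t.1 t.2}).Finite := by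
      refine Set.Finite.biUnion (Finset.finite_toSet _) (fun x _ => ?_)
      refine Set.Finite.biUnion (Finset.finite_toSet _) (fun y _ => ?_)
      exact (finite_pq x y).image _
    refine hfin.subset ?_
    rintro _ ⟨⟨x, y, z, p, q⟩, ht, rfl⟩
    rw [hW] at ht
    obtain ⟨h1, h2, h3⟩ := ht
    simp only at h1 h2 h3
    simp only [Set.mem_iUnion]
    refine ⟨x, ?_, y, ?_, (p, q), ⟨z, h1⟩, rfl⟩
    · rw [Finset.mem_coe, Finset.mem_Icc]
      exact abs_le.mp h2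
    · rw [Finset.mem_coe, Finset.mem_Icc]
      exact abs_le.mp h3
  refine (hbad.union hWfin).subset ?_
  rintro ⟨x, y, z, p, q⟩ ⟨h, hy⟩
  simp only at h hy
  obtain ⟨m, hm⟩ : ∃ m : ℝ, m = max |(x : ℝ)| |(y : ℝ)| := ⟨_, rfl⟩
  have hm1 := h.m_pos hm
  have hm2 := h.two_le_m hm
  have hq3 := h.q3
  have hqR : (3 : ℝ) ≤ q := by exact_mod_cast hq3
  rcases le_or_gt |(y : ℝ)| (m ^ (1 / 2 - 1 / (q : ℝ) - 1 / 12)) with hc | hc
  · left
    refine ⟨h, 1, ?_, ?_, ?_⟩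
    · simp
    · simp only [Nat.totient_one, mul_one]
      intro h1
      have := Nat.le_of_dvd one_pos h1
      omega
    · simp only
      rw [← hm, Nat.cast_one, one_mul]
      exact hc
  · right
    rw [hW]
    have hyX : |(y : ℝ)| ≤ X := by exact_mod_cast hy
    have h1 : m ^ ((1 : ℝ) / 12) < X := by
      refine lt_of_le_of_lt ?_ (hc.trans_le hyX)
      apply Real.rpow_le_rpow_of_exponent_le hm1
      have e1 : 1 / (q : ℝ) ≤ 1 / 3 := one_div_le_one_div_of_le (by norm_num) hqR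
      linarith
    have h2 : m ≤ (X : ℝ) ^ 12 := by
      have h3 : m = (m ^ ((1 : ℝ) / 12)) ^ 12 := by
        rw [← Real.rpow_natCast, ← Real.rpow_mul (by linarith)]
        norm_num
      rw [h3]
      exact pow_le_pow_left₀ (by positivity) h1.le _
    have hx' : |(x : ℝ)| ≤ (X : ℝ) ^ 12 := (by rw [hm]; exact le_max_left _ _ : |(x : ℝ)| ≤ m).trans h2
    have hy' : |(y : ℝ)| ≤ (X : ℝ) ^ 12 := (by rw [hm]; exact le_max_right _ _ : |(y : ℝ)| ≤ m).trans h2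
    exact ⟨h, by exact_mod_cast hx', by exact_mod_cast hy'⟩

end Pool.Agent.K9h9
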